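import Mathlib

/-! Diagonalisation of block quadratic forms. -/

set_option linter.unusedSectionVars false

namespace Pool.Agent.Bloch.Pen

theorem diag_one {ι : Type} [Fintype ι] [DecidableEq ι] (b : ι → ι → ℂ)
    (hb : ∀ s s', b s s' = b s' s) :
    ∃ P Q : ι → ι → ℂ, (∀ u u', ∑ s, Q u s * P s u' = if u = u' then 1 else 0) ∧
      ∀ u u', u ≠ u' → ∑ s, ∑ s', P s u * b s s' * P s' u' = 0 := by
  have : Invertible (2 : ℂ) := invertibleOfNonzero two_ne_zero
  have hs : LinearMap.IsSymm (Matrix.toBilin' (Matrix.of b)) := by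
    constructor
    intro x y
    rw [Matrix.toBilin'_apply, RingHom.id_apply, Matrix.toBilin'_apply, Finset.sum_comm]
    refine Finset.sum_congr rfl (fun i _ => Finset.sum_congr rfl (fun j _ => ?_))
    rw [Matrix.of_apply, Matrix.of_apply, hb j i]; ring
  obtain ⟨v₀, hv₀⟩ := LinearMap.BilinForm.exists_orthogonal_basis hs
  have hfin : Module.finrank ℂ (ι → ℂ) = Fintype.card ι := Module.finrank_fintype_fun_eq_card ℂ
  let e : Fin (Module.finrank ℂ (ι → ℂ)) ≃ ι :=
    (finCongr hfin).trans (Fintype.equivFin ι).symm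
  let v : Module.Basis ι ℂ (ι → ℂ) := v₀.reindex e
  have hv : ∀ u u', u ≠ u' → Matrix.toBilin' (Matrix.of b) (v u) (v u') = 0 := by
    intro u u' h
    have h1 : e.symm u ≠ e.symm u' := fun h2 => h (e.symm.injective h2)
    have := hv₀ h1
    simpa [v, Function.onFun] using this
  refine ⟨fun s u => v u s, fun u s => v.repr (Pi.single s 1) u, ?_, ?_⟩
  · intro u u'
    have h1 : v u' = ∑ s, (v u' s) • (Pi.single s (1 : ℂ) : ι → ℂ) := by
      funext k
      rw [Finset.sum_apply, Finset.sum_eq_single k]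
      · simp
      · intro k' _ h; simp [Pi.single_eq_of_ne h.symm]
      · intro h; exact absurd (Finset.mem_univ _) h
    have h2 := congrArg (fun w => v.repr w u) h1
    simp only [map_sum, map_smul, Module.Basis.repr_self, Finsupp.coe_finsetSum,
      Finset.sum_apply, Finsupp.smul_apply, smul_eq_mul, Finsupp.single_apply] at h2
    rw [← if_congr (eq_comm (a := u') (b := u)) rfl rfl, h2]
    apply Finset.sum_congr rfl
    intro s _
    ring
  · intro u u' h
    have := hv u u' h
    rwa [Matrix.toBilin'_apply] at this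

open Classical in
theorem sum_sub {σ : Type} [Fintype σ] (p : σ → Prop) (f : {s : σ // p s} → ℂ) :
    ∑ s, (if h : p s then f ⟨s, h⟩ else 0) = ∑ s : {s : σ // p s}, f s := by
  rw [← Finset.sum_filter_add_sum_filter_not Finset.univ p]
  rw [Finset.sum_eq_zero (s := Finset.univ.filter (fun s => ¬ p s)), add_zero]
  · symm
    refine Finset.sum_bij (fun s _ => s.1) ?_ ?_ ?_ ?_
    · intro s _; rw [Finset.mem_filter]; exact ⟨Finset.mem_univ _, s.2⟩
    · intro s _ s' _ h; exact Subtype.ext h
    · intro s hs; rw [Finset.mem_filter] at hs; exact ⟨⟨s, hs.2⟩, Finset.mem_univ _, rfl⟩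
    · intro s _; rw [dif_pos s.2]
  · intro s hs
    rw [Finset.mem_filter] at hs
    rw [dif_neg hs.2]

theorem diag_block {σ T : Type} [Fintype σ] [DecidableEq σ] (β : σ → T) (b : σ → σ → ℂ)
    (hb : ∀ s s', b s s' = b s' s) (hβ : ∀ s s', β s ≠ β s' → b s s' = 0) :
    ∃ P Q : σ → σ → ℂ, (∀ u u', ∑ s, Q u s * P s u' = if u = u' then 1 else 0) ∧
      (∀ s u, β s ≠ β u → P s u = 0) ∧
      (∀ s u, β s ≠ β u → Q s u = 0) ∧
      ∀ u u', u ≠ u' → ∑ s, ∑ s', P s u * b s s' * P s' u' = 0 := by
  classical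
  have key : ∀ k : T, ∃ P Q : σ → σ → ℂ, (∀ u u', β u = k → β u' = k → 
      ∑ s, (if β s = k then Q u s * P s u' else 0) = if u = u' then 1 else 0) ∧
      ∀ u u', β u = k → β u' = k → u ≠ u' →
        ∑ s, ∑ s', (if β s = k ∧ β s' = k then P s u * b s s' * P s' u' else 0) = 0 := by
    intro k
    obtain ⟨P, Q, h1, h2⟩ := diag_one (ι := {s : σ // β s = k}) (fun s s' => b s.1 s'.1)
      (fun s s' => hb _ _)
    refine ⟨fun s u => if h : β s = k ∧ β u = k then P ⟨s, h.1⟩ ⟨u, h.2⟩ else 0,
      fun s u => if h : β s = k ∧ β u = k then Q ⟨s, h.1⟩ ⟨u, h.2⟩ else 0, ?_, ?_⟩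
    · intro u u' hu hu'
      have h3 := h1 ⟨u, hu⟩ ⟨u', hu'⟩
      have h4 : (if (⟨u, hu⟩ : {s : σ // β s = k}) = ⟨u', hu'⟩ then (1 : ℂ) else 0) =
          if u = u' then 1 else 0 := by
        congr 1
        rw [Subtype.mk.injEq]
      rw [← h4, ← h3, ← sum_sub (fun s => β s = k)]
      apply Finset.sum_congr rfl
      intro s _
      beta_reduce
      by_cases h : β s = k
      · rw [if_pos h, dif_pos h, dif_pos ⟨hu, h⟩, dif_pos ⟨h, hu'⟩]
      · rw [if_neg h, dif_neg h]
    · intro u u' hu hu' hne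
      have h3 := h2 ⟨u, hu⟩ ⟨u', hu'⟩ (fun h => hne (congrArg Subtype.val h))
      refine Eq.trans ?_ h3
      rw [← sum_sub (fun s => β s = k)]
      apply Finset.sum_congr rfl
      intro s _
      by_cases h : β s = k
      · rw [dif_pos h, ← sum_sub (fun s => β s = k)]
        apply Finset.sum_congr rfl
        intro s' _
        beta_reduce
        by_cases h' : β s' = k
        · rw [if_pos ⟨h, h'⟩, dif_pos h', dif_pos ⟨h, hu⟩, dif_pos ⟨h', hu'⟩]
        · rw [if_neg (fun h'' => h' h''.2), dif_neg h']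
      · rw [dif_neg h]
        apply Finset.sum_eq_zero
        intro s' _
        exact if_neg (fun h' => h h'.1)
  choose P Q hPQ hd using key
  refine ⟨fun s u => if β s = β u then P (β u) s u else 0,
    fun u s => if β s = β u then Q (β u) u s else 0, ?_, ?_, ?_, ?_⟩
  · intro u u'
    by_cases h : β u = β u'
    · rw [← hPQ (β u) u u' rfl h.symm]
      apply Finset.sum_congr rfl
      intro s _
      beta_reduce
      by_cases h1 : β s = β u
      · rw [if_pos h1, if_pos h1, if_pos (h1.trans h), ← h]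
      · rw [if_neg h1, if_neg h1, zero_mul]
    · rw [if_neg (fun h1 => h (by rw [h1]))]
      apply Finset.sum_eq_zero
      intro s _
      beta_reduce
      by_cases h1 : β s = β u
      · rw [if_neg (show ¬ β s = β u' from fun h2 => h (h1.symm.trans h2)), mul_zero]
      · rw [if_neg h1, zero_mul]
  · intro s u h; exact if_neg h
  · intro s u h; exact if_neg (fun h1 => h h1.symm)
  · intro u u' hne
    by_cases h : β u = β u'
    · refine Eq.trans ?_ (hd (β u) u u' rfl h.symm hne)
      apply Finset.sum_congr rfl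
      intro s _
      apply Finset.sum_congr rfl
      intro s' _
      beta_reduce
      by_cases h1 : β s = β u
      · by_cases h2 : β s' = β u
        · rw [if_pos h1, if_pos (h2.trans h), if_pos ⟨h1, h2⟩, ← h]
        · rw [if_neg (show ¬ β s' = β u' from fun h3 => h2 (h3.trans h.symm)), mul_zero,
            if_neg (fun h3 => h2 h3.2)]
      · rw [if_neg h1, zero_mul, zero_mul, if_neg (fun h3 => h1 h3.1)]
    · apply Finset.sum_eq_zero
      intro s _
      apply Finset.sum_eq_zero
      intro s' _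
      beta_reduce
      by_cases h1 : β s = β u
      · by_cases h2 : β s' = β u'
        · rw [hβ s s' (fun h3 => h (h1.symm.trans (h3.trans h2))), mul_zero, zero_mul]
        · rw [if_neg h2, mul_zero]
      · rw [if_neg h1, zero_mul, zero_mul]

end Pool.Agent.Bloch.Pen
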