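import Pool.Agent.H78.Pen.Change
import Pool.Agent.H78.Pen.Diag

/-! Block quadratic forms are diagonal in suitable coordinates. -/

set_option linter.unusedSectionVars false

open MvPolynomial

namespace Pool.Agent.Bloch.Pen

section
variable {σ : Type} [Fintype σ]

/-- monomials of degree `d` in the variables of one block -/
def BM {T : Type} (β : σ → T) (d : ℕ) : Set (σ →₀ ℕ) :=
  {m | m.degree = d ∧ ∀ s s', m s ≠ 0 → m s' ≠ 0 → β s = β s'}

theorem quad_repr [DecidableEq σ] {T : Type} (β : σ → T) (F : MvPolynomial σ ℂ)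
    (hF : ∀ m ∈ F.support, m ∈ BM β 2) :
    ∃ b : σ → σ → ℂ, (∀ s s', b s s' = b s' s) ∧ (∀ s s', β s ≠ β s' → b s s' = 0) ∧
      F = ∑ s, ∑ s', C (b s s') * X s * X s' := by
  have key : ∀ m ∈ BM β 2, ∀ c : ℂ, ∃ b : σ → σ → ℂ, (∀ s s', b s s' = b s' s) ∧
      (∀ s s', β s ≠ β s' → b s s' = 0) ∧
      monomial m c = ∑ s, ∑ s', C (b s s') * X s * X s' := by
    intro m hm c
    obtain ⟨hm1, hm2⟩ := hm
    have h1 : ∃ s, m s ≠ 0 := by
      by_contra h
      push Not at h
      have : m = 0 := Finsupp.ext h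
      rw [this, map_zero] at hm1
      omega
    obtain ⟨s, hs⟩ := h1
    obtain ⟨m', rfl⟩ : ∃ m', m = Finsupp.single s 1 + m' := by
      refine ⟨m - Finsupp.single s 1, ?_⟩
      rw [add_tsub_cancel_of_le]
      rw [Finsupp.single_le_iff]
      omega
    have h2 : ∃ s', m' = Finsupp.single s' 1 := by
      rw [map_add, Finsupp.degree_single] at hm1
      have h3 : ∃ s', m' s' ≠ 0 := by
        by_contra h
        push Not at h
        have : m' = 0 := Finsupp.ext h
        rw [this, map_zero] at hm1
        omega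
      obtain ⟨s', hs'⟩ := h3
      refine ⟨s', ?_⟩
      obtain ⟨m'', rfl⟩ : ∃ m'', m' = Finsupp.single s' 1 + m'' := by
        refine ⟨m' - Finsupp.single s' 1, ?_⟩
        rw [add_tsub_cancel_of_le]
        rw [Finsupp.single_le_iff]
        omega
      rw [map_add, Finsupp.degree_single] at hm1
      have : m'' = 0 := by
        rw [← Finsupp.degree_eq_zero_iff]
        omega
      rw [this, add_zero]
    obtain ⟨s', rfl⟩ := h2
    have hββ : β s = β s' := by
      apply hm2
      · rw [Finsupp.add_apply, Finsupp.single_eq_same]; omega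
      · rw [Finsupp.add_apply, Finsupp.single_eq_same]; omega
    refine ⟨fun u u' => (if u = s ∧ u' = s' then c / 2 else 0) +
      (if u = s' ∧ u' = s then c / 2 else 0), ?_, ?_, ?_⟩
    · intro u u'
      beta_reduce
      rw [add_comm]
      congr 1
      · exact if_congr and_comm rfl rfl
      · exact if_congr and_comm rfl rfl
    · intro u u' h
      beta_reduce
      rw [if_neg, if_neg, add_zero]
      · rintro ⟨rfl, rfl⟩; exact h hββ.symm
      · rintro ⟨rfl, rfl⟩; exact h hββ
    · have h4 : ∀ u u' : σ, ∑ x, ∑ x', C (if x = u ∧ x' = u' then c / 2 else 0) * X x * X x' =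
          (C (c / 2) * X u * X u' : MvPolynomial σ ℂ) := by
        intro u u'
        rw [Finset.sum_eq_single u, Finset.sum_eq_single u']
        · rw [if_pos ⟨rfl, rfl⟩]
        · intro x' _ hx'
          rw [if_neg (fun h => hx' h.2), C_0, zero_mul, zero_mul]
        · intro h; exact absurd (Finset.mem_univ _) h
        · intro x _ hx
          apply Finset.sum_eq_zero
          intro x' _
          rw [if_neg (fun h => hx h.1), C_0, zero_mul, zero_mul]
        · intro h; exact absurd (Finset.mem_univ _) h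
      have h5 : ∑ x, ∑ x', C ((if x = s ∧ x' = s' then c / 2 else 0) +
          (if x = s' ∧ x' = s then c / 2 else 0)) * X x * X x' =
          (C (c / 2) * X s * X s' + C (c / 2) * X s' * X s : MvPolynomial σ ℂ) := by
        rw [← h4 s s', ← h4 s' s, ← Finset.sum_add_distrib]
        apply Finset.sum_congr rfl
        intro x _
        rw [← Finset.sum_add_distrib]
        apply Finset.sum_congr rfl
        intro x' _
        rw [C_add]; ring
      rw [h5]
      have h6 : monomial (Finsupp.single s 1 + Finsupp.single s' 1) c =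
          (C c * X s * X s' : MvPolynomial σ ℂ) := by
        rw [X, X, C_mul_monomial, monomial_mul, mul_one, mul_one]
      rw [h6]
      have h7 : (C c : MvPolynomial σ ℂ) = C (c / 2) + C (c / 2) := by
        rw [← C_add, add_halves]
      rw [h7]; ring
  have key2 : ∀ S : Finset (σ →₀ ℕ), (∀ m ∈ S, m ∈ BM β 2) → ∀ c : (σ →₀ ℕ) → ℂ,
      ∃ b : σ → σ → ℂ, (∀ s s', b s s' = b s' s) ∧ (∀ s s', β s ≠ β s' → b s s' = 0) ∧
      ∑ m ∈ S, monomial m (c m) = ∑ s, ∑ s', C (b s s') * X s * X s' := by
    intro S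
    induction S using Finset.induction_on with
    | empty =>
      intro _ c
      refine ⟨fun _ _ => 0, fun _ _ => rfl, fun _ _ _ => rfl, ?_⟩
      simp
    | insert m S hmS ih =>
      intro hS c
      obtain ⟨b, h1, h2, h3⟩ := ih (fun m hm => hS m (Finset.mem_insert_of_mem hm)) c
      obtain ⟨b', h1', h2', h3'⟩ := key m (hS m (Finset.mem_insert_self _ _)) (c m)
      refine ⟨fun s s' => b' s s' + b s s', ?_, ?_, ?_⟩
      · intro s s'
        change b' s s' + b s s' = b' s' s + b s' s
        rw [h1, h1']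
      · intro s s' h
        change b' s s' + b s s' = 0
        rw [h2 s s' h, h2' s s' h, add_zero]
      · rw [Finset.sum_insert hmS, h3, h3', ← Finset.sum_add_distrib]
        apply Finset.sum_congr rfl
        intro x _
        rw [← Finset.sum_add_distrib]
        apply Finset.sum_congr rfl
        intro x' _
        rw [C_add]; ring
  obtain ⟨b, h1, h2, h3⟩ := key2 F.support hF (fun m => coeff m F)
  exact ⟨b, h1, h2, by rw [← h3]; exact F.as_sum⟩

/-- linear change of the variables -/
noncomputable def lch (P : σ → σ → ℂ) : MvPolynomial σ ℂ →ₐ[ℂ] MvPolynomial σ ℂ :=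
  aeval (fun s => ∑ u, C (P s u) * X u)

theorem lch_X (P : σ → σ → ℂ) (s : σ) : lch P (X s) = ∑ u, C (P s u) * X u := aeval_X _ _

theorem lch_C (P : σ → σ → ℂ) (c : ℂ) : lch P (C c) = C c := by
  rw [← algebraMap_eq, AlgHom.commutes]

theorem lch_gr (P : σ → σ → ℂ) : Gr (lch P) := by
  apply gr_aeval
  intro s
  apply IsHomogeneous.sum
  intro u _
  have := (isHomogeneous_C σ (P s u)).mul (isHomogeneous_X ℂ u)
  rwa [zero_add] at this

theorem lch_lch [DecidableEq σ] (P Q : σ → σ → ℂ)
    (h : ∀ u u', ∑ s, Q u s * P s u' = if u = u' then 1 else 0) (f : MvPolynomial σ ℂ) :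
    lch P (lch Q f) = f := by
  have : (lch P).comp (lch Q) = AlgHom.id ℂ (MvPolynomial σ ℂ) := by
    apply MvPolynomial.algHom_ext
    intro u
    rw [AlgHom.comp_apply, lch_X, map_sum, AlgHom.id_apply]
    have h1 : ∀ s, lch P (C (Q u s) * X s) = ∑ u', C (Q u s * P s u') * X u' := by
      intro s
      rw [map_mul, lch_C, lch_X, Finset.mul_sum]
      apply Finset.sum_congr rfl
      intro u' _
      rw [C_mul]; ring
    rw [Finset.sum_congr rfl (fun s _ => h1 s), Finset.sum_comm]
    have h2 : ∀ u', ∑ s, C (Q u s * P s u') * (X u' : MvPolynomial σ ℂ) =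
        C (if u = u' then 1 else 0) * X u' := by
      intro u'
      rw [← Finset.sum_mul, ← map_sum, h]
    rw [Finset.sum_congr rfl (fun s _ => h2 s), Finset.sum_eq_single u]
    · rw [if_pos rfl, C_1, one_mul]
    · intro u' _ h'; rw [if_neg h'.symm, C_0, zero_mul]
    · intro h'; exact absurd (Finset.mem_univ _) h'
  exact DFunLike.congr_fun this f

theorem lch_scl {T : Type} (β : σ → T) (P : σ → σ → ℂ) (hP : ∀ s u, β s ≠ β u → P s u = 0)
    (h : σ → ℂ) (hh : ∀ s u, β s = β u → h s = h u) (f : MvPolynomial σ ℂ) :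
    lch P (scl ℂ h f) = scl ℂ h (lch P f) := by
  have : (lch P).comp (scl ℂ h) = (scl ℂ h).comp (lch P) := by
    apply MvPolynomial.algHom_ext
    intro s
    rw [AlgHom.comp_apply, AlgHom.comp_apply, scl_X, map_mul, lch_C, lch_X, map_sum,
      Finset.mul_sum]
    apply Finset.sum_congr rfl
    intro u _
    rw [map_mul, scl_C, scl_X]
    by_cases hu : β s = β u
    · rw [hh s u hu]; ring
    · rw [hP s u hu, C_0, zero_mul, zero_mul, mul_zero]
  exact DFunLike.congr_fun this f

theorem lch_quad [DecidableEq σ] (P b : σ → σ → ℂ)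
    (hP : ∀ u u', u ≠ u' → ∑ s, ∑ s', P s u * b s s' * P s' u' = 0) :
    lch P (∑ s, ∑ s', C (b s s') * X s * X s') =
      ∑ u, C (∑ s, ∑ s', P s u * b s s' * P s' u) * X u ^ 2 := by
  rw [map_sum]
  have h1 : ∀ s, lch P (∑ s', C (b s s') * X s * X s') =
      ∑ s', ∑ u, ∑ u', C (P s u * b s s' * P s' u') * (X u * X u') := by
    intro s
    rw [map_sum]
    apply Finset.sum_congr rfl
    intro s' _
    rw [map_mul, map_mul, lch_C, lch_X, lch_X, mul_assoc, Finset.sum_mul_sum, Finset.mul_sum]
    apply Finset.sum_congr rfl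
    intro u _
    rw [Finset.mul_sum]
    apply Finset.sum_congr rfl
    intro u' _
    rw [C_mul, C_mul]; ring
  rw [Finset.sum_congr rfl (fun s _ => h1 s)]
  have h2 : ∑ s, ∑ s', ∑ u, ∑ u', C (P s u * b s s' * P s' u') * (X u * X u') =
      ∑ u, ∑ u', C (∑ s, ∑ s', P s u * b s s' * P s' u') * (X u * X u' : MvPolynomial σ ℂ) := by
    have h3 : ∀ u u' : σ, C (∑ s, ∑ s', P s u * b s s' * P s' u') *
        (X u * X u' : MvPolynomial σ ℂ) =
        ∑ s, ∑ s', C (P s u * b s s' * P s' u') * (X u * X u') := by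
      intro u u'
      rw [map_sum, Finset.sum_mul]
      apply Finset.sum_congr rfl
      intro s _
      rw [map_sum, Finset.sum_mul]
    simp only [h3]
    rw [Finset.sum_congr rfl (fun s _ => Finset.sum_comm), Finset.sum_comm]
    apply Finset.sum_congr rfl
    intro u _
    rw [Finset.sum_congr rfl (fun s _ => Finset.sum_comm), Finset.sum_comm]
  rw [h2]
  apply Finset.sum_congr rfl
  intro u _
  rw [Finset.sum_eq_single u]
  · rw [pow_two]
  · intro u' _ h
    rw [hP u u' h.symm, C_0, zero_mul]
  · intro h; exact absurd (Finset.mem_univ _) h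

end

end Pool.Agent.Bloch.Pen
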