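import Pool.Agent.H78.Pen.RankOne
import Pool.Agent.H78.Pen.Quad

/-! One sum of forms in separate variables, with zero summands. -/

set_option linter.unusedSectionVars false

open MvPolynomial

namespace Pool.Agent.Bloch.Pen

theorem cond_comp {t t' d : ℕ} {m : Fin t → ℕ} (h : Cond d m) (g : Fin t' → Fin t)
    (hg : Function.Injective g) : Cond d (fun k => m (g k)) := by
  classical
  intro M hM hMd
  have hsum : ∀ (S : Finset (Fin t')) (f : Fin t → ℕ), ∑ k ∈ S.map ⟨g, hg⟩, f k = ∑ k ∈ S, f (g k) := by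
    intro S f
    rw [Finset.sum_map]
    rfl
  obtain ⟨⟨j, φ, h1, h2⟩, h3⟩ := h (M.map ⟨g, hg⟩) (Finset.Nonempty.map hM)
    (by rwa [Finset.card_map])
  refine ⟨⟨j, fun k => φ (g k), fun l hl => ?_, ?_⟩, fun h4 h5 => ?_⟩
  · have h6 := h1 l hl
    rw [Finset.filter_map, hsum] at h6
    exact h6
  · rwa [hsum] at h2
  · rw [hsum] at h3
    apply h3 h4
    intro k hk
    rw [Finset.mem_map] at hk
    obtain ⟨k', hk', rfl⟩ := hk
    have h6 : (M.map ⟨g, hg⟩).erase (g k') = (M.erase k').map ⟨g, hg⟩ := by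
      rw [Finset.map_erase]
      rfl
    change ∑ l ∈ (M.map ⟨g, hg⟩).erase (g k'), m l < d
    rw [h6, hsum]
    exact h5 k' hk'

section split
variable {S : Type} [Fintype S] {T : Type}

open Classical in
/-- the part of a form in the variables of a block -/
noncomputable def prt (β : S → T) (G : MvPolynomial S ℂ) (k : T) : MvPolynomial S ℂ :=
  ∑ μ ∈ G.support, if ∃ s, μ s ≠ 0 ∧ β s = k then monomial μ (coeff μ G) else 0

open Classical in
theorem coeff_prt (β : S → T) (G : MvPolynomial S ℂ) (k : T) (μ : S →₀ ℕ) :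
    coeff μ (prt β G k) = if ∃ s, μ s ≠ 0 ∧ β s = k then coeff μ G else 0 := by
  unfold prt
  rw [coeff_sum]
  have h1 : ∀ μ' ∈ G.support, coeff μ (if ∃ s, μ' s ≠ 0 ∧ β s = k then
      monomial μ' (coeff μ' G) else 0) =
      if μ' = μ then (if ∃ s, μ s ≠ 0 ∧ β s = k then coeff μ G else 0) else 0 := by
    intro μ' _
    by_cases h : μ' = μ
    · subst h
      rw [if_pos rfl]
      split_ifs
      · rw [coeff_monomial, if_pos rfl]
      · rw [coeff_zero]
    · rw [if_neg h]
      split_ifs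
      · rw [coeff_monomial, if_neg h]
      · rw [coeff_zero]
  rw [Finset.sum_congr rfl h1, Finset.sum_ite_eq']
  split_ifs with h2 h3
  · rfl
  · rfl
  · rw [notMem_support_iff.1 h2]
  · rfl

theorem prt_bh (β : S → T) {d : ℕ} {G : MvPolynomial S ℂ} (hG : ∀ μ ∈ G.support, μ ∈ BM β d)
    (k : T) : BH β k d (prt β G k) := by
  classical
  intro μ hμ
  rw [mem_support_iff, coeff_prt] at hμ
  split_ifs at hμ with h
  · obtain ⟨s, hs, hsk⟩ := h
    have h1 := hG μ (mem_support_iff.2 hμ)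
    exact ⟨fun s' hs' => by rw [h1.2 s' s hs' hs, hsk], h1.1⟩
  · exact absurd rfl hμ

theorem sum_prt [Fintype T] (β : S → T) {d : ℕ} (hd : 0 < d) {G : MvPolynomial S ℂ}
    (hG : ∀ μ ∈ G.support, μ ∈ BM β d) : ∑ k, prt β G k = G := by
  classical
  ext μ
  rw [coeff_sum]
  simp only [coeff_prt]
  by_cases hμ : μ ∈ G.support
  · have h1 := hG μ hμ
    obtain ⟨s, hs⟩ : ∃ s, μ s ≠ 0 := by
      by_contra h
      push Not at h
      have h2 : μ = 0 := Finsupp.ext h
      have h3 := h1.1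
      rw [h2, map_zero] at h3
      omega
    rw [Finset.sum_eq_single (β s)]
    · rw [if_pos ⟨s, hs, rfl⟩]
    · intro k _ hk
      rw [if_neg]
      rintro ⟨s', hs', rfl⟩
      exact hk (h1.2 s' s hs' hs)
    · intro h; exact absurd (Finset.mem_univ _) h
  · rw [notMem_support_iff] at hμ
    rw [hμ]
    simp

end split

/-- The case of a sum of nonzero forms, the groups of cycles of dimension `i ≥ 0`. -/
theorem sums_pos {S : Type} [Fintype S] {t d i : ℕ} (hd : 2 ≤ d) (β : S → Fin t) (m : Fin t → ℕ)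
    (hm : ∀ k, 0 < m k ∧ m k ≤ Nat.card {s : S // β s = k}) (hC : Cond d m)
    (hsum : d * (1 + i) < ∑ k, m k) (hcard : ∑ k, m k ≤ Fintype.card S) (G : MvPolynomial S ℂ)
    (hG : ∀ μ ∈ G.support, μ ∈ BM β d)
    (hG0 : ∀ k, prt β G k ≠ 0) : RO ℚ (ZF fun _ : Unit => G) (i + 1) := by
  classical
  have : NeZero d := ⟨by omega⟩
  rw [ro_iff_pdiv]
  by_cases hi : i = 0
  · subst hi
    have h1 : 1 * d < Fintype.card S := by omega
    have := Sep.sep_main (m := 1) (i := 0) hd one_pos G (by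
      intro μ hμ
      have h2 := (hG μ (mem_support_iff.2 hμ)).1
      rwa [Finsupp.degree_eq_weight_one] at h2) (fun _ => Finset.univ)
      (fun l l' h => absurd (Subsingleton.elim l l') h)
      (fun _ => by rw [Finset.card_univ]; omega)
      (fun μ _ l l' h => absurd (Subsingleton.elim l l') h)
      (fun μ hμ l => by
        have h2 := (hG μ hμ).1
        rw [Finsupp.degree_eq_sum] at h2
        rw [h2, Finset.card_univ]
        omega) h1
    rw [zf_unit]
    exact this
  · refine main_HQ (d := d) β ?_ (prt β G) (prt_bh β hG) hG0 _ ?_ hd (by omega) m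
      (fun k => (hm k).2) hC hsum
    · intro k
      have h1 := (hm k).1.trans_le (hm k).2
      have h2 := (Nat.card_pos_iff.1 h1).1
      obtain ⟨s, hs⟩ := h2
      exact ⟨s, hs⟩
    · intro Q
      rw [sum_prt β (by omega) hG]
      exact ⟨fun h => h (), fun h _ => h⟩

theorem zf_up {K σ ι : Type} [Field K] (F : ι → MvPolynomial σ K) :
    ∀ p ∈ ZF F, ∀ q, p ≤ q → q ∈ ZF F := fun _ hp _ hpq e => hpq (hp e)

theorem zf_rename {σ τ : Type} (g : τ → σ) (G : MvPolynomial τ ℂ) :
    {Q : PrimeSpectrum (MvPolynomial σ ℂ) |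
      ctr ℂ (rename g : MvPolynomial τ ℂ →ₐ[ℂ] MvPolynomial σ ℂ) Q ∈ (ZF fun _ : Unit => G)} =
    (ZF fun _ : Unit => (rename g G : MvPolynomial σ ℂ)) := rfl

/-- A form which does not involve more than `j` variables. -/
theorem ro_few {σ : Type} [Fintype σ] (F : MvPolynomial σ ℂ) (E : Finset σ)
    (hE : ∀ μ ∈ F.support, ∀ s ∈ E, μ s = 0) (k : ℕ) (hk : k ≤ E.card) :
    RO ℚ (ZF fun _ : Unit => F) k := by
  classical
  obtain ⟨E', hE', hc⟩ := Finset.exists_subset_card_eq hk
  obtain ⟨G, rfl⟩ := exists_rename_eq_of_vars_subset_range F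
    (Subtype.val : {s // s ∉ E'} → σ) Subtype.val_injective (by
    intro s hs
    rw [Finset.mem_coe, mem_vars_iff_mem_support] at hs
    obtain ⟨μ, hμ, hs⟩ := hs
    refine ⟨⟨s, fun h => ?_⟩, rfl⟩
    exact (Finsupp.mem_support_iff.1 hs) (hE μ hμ s (hE' h)))
  have h1 := ro_emb ℚ k (Subtype.val : {s // s ∉ E'} → σ) Subtype.val_injective (by
    have := Fintype.card_subtype_compl (fun s => s ∈ E')
    rw [this, Fintype.card_coe, hc]
    have := Finset.card_le_univ E'
    omega) (Z := ZF fun _ : Unit => G) (zf_up _) (ro_zero ℚ _)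
  rw [zero_add] at h1
  exact h1

/-- Sums of forms in separate variables, with zero summands. -/
theorem sums_base {σ : Type} [Fintype σ] {t d j : ℕ} (hd : 2 ≤ d) (β : σ → Fin t) (m : Fin t → ℕ)
    (hm : ∀ k, 0 < m k ∧ m k ≤ Nat.card {s : σ // β s = k}) (hC : Cond d m)
    (hsum : d * (1 + j) < ∑ k, m k) (F : MvPolynomial σ ℂ)
    (hF : ∀ μ ∈ F.support, μ ∈ BM β d) : RO ℚ (ZF fun _ : Unit => F) (j + 1) := by
  classical
  set K₁ : Finset (Fin t) := Finset.univ.filter (fun k => prt β F k ≠ 0) with hK₁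
  set E : Finset σ := Finset.univ.filter (fun s => β s ∉ K₁) with hE
  have hFE : ∀ μ ∈ F.support, ∀ s ∈ E, μ s = 0 := by
    intro μ hμ s hs
    by_contra h
    apply (Finset.mem_filter.1 hs).2
    rw [hK₁, Finset.mem_filter]
    refine ⟨Finset.mem_univ _, fun h0 => ?_⟩
    have h1 := congrArg (coeff μ) h0
    rw [coeff_prt, if_pos ⟨s, h, rfl⟩, coeff_zero] at h1
    exact (mem_support_iff.1 hμ) h1
  by_cases hEj : j + 1 ≤ E.card
  · exact ro_few F E hFE (j + 1) hEj
  push Not at hEj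
  obtain ⟨G, hGF⟩ := exists_rename_eq_of_vars_subset_range F
    (Subtype.val : {s // s ∉ E} → σ) Subtype.val_injective (by
    intro s hs
    rw [Finset.mem_coe, mem_vars_iff_mem_support] at hs
    obtain ⟨μ, hμ, hs⟩ := hs
    refine ⟨⟨s, fun h => ?_⟩, rfl⟩
    exact (Finsupp.mem_support_iff.1 hs) (hFE μ hμ s h))
  have hsupp : ∀ μ : {s // s ∉ E} →₀ ℕ, μ ∈ G.support ↔
      μ.mapDomain Subtype.val ∈ F.support := by
    intro μ
    rw [← hGF, support_rename_of_injective Subtype.val_injective, Finset.mem_image]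
    constructor
    · intro h; exact ⟨μ, h, rfl⟩
    · rintro ⟨μ', h, h'⟩
      rwa [← Finsupp.mapDomain_injective Subtype.val_injective h']
  have hmd : ∀ (μ : {s // s ∉ E} →₀ ℕ) (s : {s // s ∉ E}),
      μ.mapDomain Subtype.val s.1 = μ s := fun μ s =>
    Finsupp.mapDomain_apply Subtype.val_injective μ s
  have hmem : ∀ s : {s // s ∉ E}, β s.1 ∈ K₁ := by
    intro s
    by_contra h
    exact s.2 (Finset.mem_filter.2 ⟨Finset.mem_univ _, h⟩)
  let e₁ : K₁ ≃ Fin K₁.card := K₁.equivFin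
  let β' : {s // s ∉ E} → Fin K₁.card := fun s => e₁ ⟨β s.1, hmem s⟩
  let g : Fin K₁.card → Fin t := fun k => (e₁.symm k).1
  have hg : Function.Injective g := fun a b h => e₁.symm.injective (Subtype.ext h)
  have hgβ : ∀ s, g (β' s) = β s.1 := by
    intro s
    change (e₁.symm (e₁ ⟨β s.1, hmem s⟩)).1 = _
    rw [Equiv.symm_apply_apply]
  have hgK : ∀ k, g k ∈ K₁ := fun k => (e₁.symm k).2
  have hβ' : ∀ s k, β s.1 = g k → β' s = k := by
    intro s k h
    apply hg
    rw [hgβ, h]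
  have hm' : ∀ k, 0 < m (g k) ∧ m (g k) ≤ Nat.card {s : {s // s ∉ E} // β' s = k} := by
    intro k
    refine ⟨(hm (g k)).1, (hm (g k)).2.trans ?_⟩
    have hnE : ∀ s : {s : σ // β s = g k}, s.1 ∉ E := by
      intro s h
      apply (Finset.mem_filter.1 h).2
      rw [s.2]; exact hgK k
    refine Nat.card_le_card_of_injective
      (fun s : {s : σ // β s = g k} =>
        (⟨⟨s.1, hnE s⟩, hβ' ⟨s.1, hnE s⟩ k s.2⟩ : {s : {s // s ∉ E} // β' s = k})) ?_
    intro a b hab
    exact Subtype.ext (congrArg (fun x => x.1.1) hab)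
  have hcardE : ∑ k ∈ Finset.univ.filter (fun k => k ∉ K₁), m k ≤ E.card := by
    rw [Finset.card_eq_sum_card_fiberwise (f := β)
      (t := Finset.univ.filter (fun k => k ∉ K₁)) (fun s hs => by
        rw [Finset.mem_coe, Finset.mem_filter] at hs ⊢
        exact ⟨Finset.mem_univ _, hs.2⟩)]
    apply Finset.sum_le_sum
    intro k hk
    refine (hm k).2.trans ?_
    rw [Nat.card_eq_fintype_card, Fintype.card_subtype]
    apply Finset.card_le_card
    intro s hs
    have hs' := (Finset.mem_filter.1 hs).2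
    refine Finset.mem_filter.2 ⟨Finset.mem_filter.2 ⟨Finset.mem_univ _, ?_⟩, hs'⟩
    rw [hs']
    exact (Finset.mem_filter.1 hk).2
  have hsum2 : ∑ k : Fin K₁.card, m (g k) = ∑ k ∈ K₁, m k := by
    rw [← Finset.sum_coe_sort K₁]
    exact e₁.symm.sum_comp (fun k : K₁ => m k.1)
  have hsum3 : ∑ k ∈ K₁, m k + ∑ k ∈ Finset.univ.filter (fun k => k ∉ K₁), m k = ∑ k, m k := by
    rw [← Finset.sum_filter_add_sum_filter_not Finset.univ (fun k => k ∈ K₁),
      Finset.filter_mem_eq_inter, Finset.univ_inter]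
  have hcS : Fintype.card {s // s ∉ E} = Fintype.card σ - E.card := by
    have := Fintype.card_subtype_compl (fun s => s ∈ E)
    rw [this, Fintype.card_coe]
  have hEle := Finset.card_le_univ E
  have hcard : ∑ k : Fin K₁.card, m (g k) ≤ Fintype.card {s // s ∉ E} := by
    have h1 : ∑ k : Fin K₁.card, m (g k) ≤
        ∑ k : Fin K₁.card, Nat.card {s : {s // s ∉ E} // β' s = k} :=
      Finset.sum_le_sum (fun k _ => (hm' k).2)
    refine h1.trans (le_of_eq ?_)
    rw [← Finset.card_univ (α := {s // s ∉ E}), Finset.card_eq_sum_card_fiberwise (f := β')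
      (t := Finset.univ) (fun s _ => Finset.mem_coe.2 (Finset.mem_univ _))]
    apply Finset.sum_congr rfl
    intro k _
    rw [Nat.card_eq_fintype_card, Fintype.card_subtype]
  have hd1 : d * (1 + (j - E.card)) < ∑ k : Fin K₁.card, m (g k) := by
    rw [hsum2]
    have h1 : d * (1 + j) = d * (1 + (j - E.card)) + d * E.card := by
      rw [← Nat.mul_add]
      congr 1
      omega
    have h2 : E.card ≤ d * E.card := Nat.le_mul_of_pos_left _ (by omega)
    omega
  have hG : ∀ μ ∈ G.support, μ ∈ BM β' d := by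
    intro μ hμ
    have h1 := hF _ ((hsupp μ).1 hμ)
    refine ⟨?_, fun s s' hs hs' => ?_⟩
    · have h2 := h1.1
      rwa [Finsupp.degree_mapDomain] at h2
    · have h2 := h1.2 s.1 s'.1 (by rwa [hmd]) (by rwa [hmd])
      apply hβ'
      rw [hgβ, h2]
  have hG0 : ∀ k, prt β' G k ≠ 0 := by
    intro k h0
    have h1 : prt β F (g k) ≠ 0 := (Finset.mem_filter.1 (hgK k)).2
    obtain ⟨μ, hμ⟩ := ne_zero_iff.1 h1
    rw [coeff_prt] at hμ
    split_ifs at hμ with h2
    · obtain ⟨s, hs, hsk⟩ := h2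
      have hμF : μ ∈ F.support := mem_support_iff.2 hμ
      have hμ' := hμF
      rw [← hGF, support_rename_of_injective Subtype.val_injective, Finset.mem_image] at hμ'
      obtain ⟨μ', hμ'1, rfl⟩ := hμ'
      have hsE : s ∉ E := by
        intro h
        exact hs (hFE _ hμF s h)
      have h3 := congrArg (coeff μ') h0
      have h4 : μ' ⟨s, hsE⟩ ≠ 0 := by
        rw [← hmd]; exact hs
      rw [coeff_prt, if_pos ⟨⟨s, hsE⟩, h4, hβ' ⟨s, hsE⟩ k hsk⟩, coeff_zero] at h3
      exact (mem_support_iff.1 hμ'1) h3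
    · exact hμ rfl
  have h1 := sums_pos hd β' (fun k => m (g k)) hm' (cond_comp hC g hg) hd1 hcard G hG hG0
  have h2 := ro_emb ℚ E.card (Subtype.val : {s // s ∉ E} → σ) Subtype.val_injective (by omega)
    (Z := ZF fun _ : Unit => G) (zf_up _) h1
  rw [zf_rename, hGF] at h2
  have h3 : j - E.card + 1 + E.card = j + 1 := by omega
  rw [h3] at h2
  exact h2

end Pool.Agent.Bloch.Pen
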