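import Pool.Agent.H78.Pen.Split
import Pool.Agent.H78.Pen.SumBase

/-! Systems of sums of forms in separate variables with a group of scalings of the blocks. -/

set_option linter.unusedSectionVars false

open MvPolynomial

namespace Pool.Agent.Bloch.Pen

open Pool.Agent.Bloch.PEN

section
variable {t r : ℕ} (d : ℕ) (ν : Fin t → ℕ)
  (f : Fin r → (k : Fin t) → MvPolynomial (Fin (ν k + 1)) ℂ)

open Classical in
/-- the bound for the number of the variables of a set of blocks -/
noncomputable def bgv (S : Finset (Fin t)) : ℕ := if ∀ e, ∀ k ∈ S, f e k = 0 then 0 else d - 1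

theorem bgv_le (S : Finset (Fin t)) : bgv d ν f S ≤ d - 1 := by
  unfold bgv
  split_ifs
  · exact Nat.zero_le _
  · exact le_rfl

theorem rk_zero {S : Finset (Fin t)} (h : ∀ e, ∀ k ∈ S, f e k = 0) : rkS ν f S = 0 := by
  unfold rkS
  have h1 : Submodule.span ℂ (Set.range fun e : Fin r => ∑ k ∈ S, ff ν f e k) = ⊥ := by
    rw [Submodule.span_eq_bot]
    rintro _ ⟨e, rfl⟩
    apply Finset.sum_eq_zero
    intro k hk
    unfold ff
    rw [h e k hk, map_zero]
  rw [h1, finrank_bot]

theorem rk_le_one (f₁ : Fin 1 → (k : Fin t) → MvPolynomial (Fin (ν k + 1)) ℂ)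
    (S : Finset (Fin t)) : rkS ν f₁ S ≤ 1 := by
  unfold rkS
  have := finrank_range_le_card (R := ℂ) (fun e : Fin 1 => ∑ k ∈ S, ff ν f₁ e k)
  rwa [Fintype.card_fin] at this

end

/-- a form with monomials in the variables of single blocks is a sum of forms in the variables
of the blocks -/
theorem exists_blocks {t d : ℕ} (hd : 0 < d) (ν : Fin t → ℕ) (F : MvPolynomial (Vars ν) ℂ)
    (hF : ∀ m ∈ F.support, m ∈ BM (fun s : Vars ν => s.1) d) :
    ∃ g : Fin 1 → (k : Fin t) → MvPolynomial (Fin (ν k + 1)) ℂ, (∀ e k, (g e k).IsHomogeneous d) ∧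
      (∑ k, ff ν g 0 k = F) ∧ ∀ k, (∀ m ∈ F.support, ∀ s, m s ≠ 0 → s.1 ≠ k) → g 0 k = 0 := by
  classical
  have key : ∀ k : Fin t, ∃ g : MvPolynomial (Fin (ν k + 1)) ℂ, g.IsHomogeneous d ∧
      (rename (fun j => (⟨k, j⟩ : Vars ν)) g : MvPolynomial (Vars ν) ℂ) =
        prt (fun s : Vars ν => s.1) F k := by
    intro k
    have hinj : Function.Injective (fun j : Fin (ν k + 1) => (⟨k, j⟩ : Vars ν)) := by
      intro a b h
      simpa using h
    have hbh := prt_bh (fun s : Vars ν => s.1) hF k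
    obtain ⟨g, hg⟩ := exists_rename_eq_of_vars_subset_range
      (prt (fun s : Vars ν => s.1) F k) (fun j : Fin (ν k + 1) => (⟨k, j⟩ : Vars ν)) hinj (by
      intro s hs
      rw [Finset.mem_coe, mem_vars_iff_mem_support] at hs
      obtain ⟨μ, hμ, hs⟩ := hs
      have h1 := (hbh μ hμ).1 s (Finsupp.mem_support_iff.1 hs)
      obtain ⟨k', j⟩ := s
      subst h1
      exact ⟨j, rfl⟩)
    refine ⟨g, ?_, hg⟩
    rw [← IsHomogeneous.rename_isHomogeneous_iff hinj, hg]
    intro μ hμ
    have h1 := (hbh μ (mem_support_iff.2 hμ)).2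
    rwa [Finsupp.degree_eq_weight_one] at h1
  choose g hg1 hg2 using key
  refine ⟨fun _ => g, fun _ k => hg1 k, ?_, ?_⟩
  · rw [← sum_prt (fun s : Vars ν => s.1) hd hF]
    apply Finset.sum_congr rfl
    intro k _
    exact hg2 k
  · intro k hk
    have hinj : Function.Injective (fun j : Fin (ν k + 1) => (⟨k, j⟩ : Vars ν)) := by
      intro a b h
      simpa using h
    apply rename_injective _ hinj
    rw [map_zero]
    change rename (fun j => (⟨k, j⟩ : Vars ν)) (g k) = 0
    rw [hg2 k]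
    ext μ
    rw [coeff_prt, coeff_zero]
    split_ifs with h
    · obtain ⟨s, hs, hsk⟩ := h
      by_contra hne
      exact hk μ (mem_support_iff.2 hne) s hs hsk
    · rfl

end Pool.Agent.Bloch.Pen
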