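import Pool.Agent.H78.Pen.BlockG

/-! Systems of sums of forms in separate variables with a group of scalings of the blocks. -/

set_option linter.unusedSectionVars false

open MvPolynomial

namespace Pool.Agent.Bloch.Pen

open Pool.Agent.Bloch.PEN

theorem od_eq' {t r : ℕ} (d : ℕ) (ν : Fin t → ℕ)
    (f : Fin r → (k : Fin t) → MvPolynomial (Fin (ν k + 1)) ℂ)
    (G : Set (Fin t → ZMod d)) (k : ℕ) :
    odST d ν f G k ⊆
      odK (HG d ν G) {Q : PrimeSpectrum (MvPolynomial (Vars ν) ℂ) | eqI ν f ≤ Q.asIdeal} k := by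
  rintro z ⟨g, hg, V, V', hV, rfl⟩
  refine ⟨_, ⟨g, hg, rfl⟩, V, V', ?_, rfl⟩
  apply PrimeSpectrum.ext
  refine hV.trans ?_
  have : (scl ℂ (fun s : Vars ν => Complex.exp (2 * Real.pi * Complex.I / d) ^ (g s.1).val) :
      MvPolynomial (Vars ν) ℂ →ₐ[ℂ] MvPolynomial (Vars ν) ℂ) = bscale d ν g := by
    apply MvPolynomial.algHom_ext
    intro s
    rw [scl_X]
    unfold bscale
    rw [aeval_X]
    rfl
  rw [← this]
  rfl

section
variable {t r : ℕ} (d : ℕ) (ν : Fin t → ℕ)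

/-- The hypothesis on the blocks. -/
def HypB (b : Finset (Fin t) → ℕ) (G : Set (Fin t → ZMod d)) (R : ℕ) : Prop :=
  (∃ B : Finset (Fin t), (∀ k ∈ B, b {k} < ∑ k ∈ ({k} : Finset (Fin t)), (ν k + 1)) ∧
      d * R < t + (d - 1) * B.card) ∨
    (∃ g, 0 < g ∧ g * R < t ∧ ∀ S : Finset (Fin t), S.card = g → b S < ∑ k ∈ S, (ν k + 1)) ∨
    (R < t ∧ ∀ c : Fin t → ZMod d, c ≠ 0 → ∑ k, c k = 0 →
      (∀ g ∈ G, ∑ k, g k * c k = 0) → Dist d ν b (R + 1) c)

variable {d ν}

theorem Dist.mono {b b' : Finset (Fin t) → ℕ} {N N' : ℕ} {c : Fin t → ZMod d}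
    (h : Dist d ν b N c) (hb : ∀ S, b' S ≤ b S) (hN : N' ≤ N) : Dist d ν b' N' c := by
  obtain ⟨q, m, ρ, π, E, h1, h2, h3, h4, h5, h6⟩ := h
  refine ⟨q, m, ρ, π, E, h1, h2, h3, h4, hN.trans h5, fun j hj => ?_⟩
  have := h6 j hj
  have h7 := hb (Finset.univ.filter (fun k => ρ k = j))
  omega

theorem HypB.mono {b b' : Finset (Fin t) → ℕ} {G : Set (Fin t → ZMod d)} {R R' : ℕ}
    (h : HypB d ν b G R) (hb : ∀ S, b' S ≤ b S) (hR : R' ≤ R) : HypB d ν b' G R' := by
  rcases h with ⟨B, h1, h2⟩ | ⟨g, h1, h2, h3⟩ | ⟨h1, h2⟩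
  · exact Or.inl ⟨B, fun k hk => (hb _).trans_lt (h1 k hk),
      (Nat.mul_le_mul_left d hR).trans_lt h2⟩
  · exact Or.inr (Or.inl ⟨g, h1, (Nat.mul_le_mul_left g hR).trans_lt h2,
      fun S hS => (hb _).trans_lt (h3 S hS)⟩)
  · exact Or.inr (Or.inr ⟨hR.trans_lt h1, fun c hc1 hc2 hc3 =>
      (h2 c hc1 hc2 hc3).mono hb (by omega)⟩)

theorem HypB.lt {b : Finset (Fin t) → ℕ} {G : Set (Fin t → ZMod d)} {R : ℕ} (hd : 0 < d)
    (h : HypB d ν b G R) : R < t := by
  rcases h with ⟨B, h1, h2⟩ | ⟨g, h1, h2, h3⟩ | ⟨h1, h2⟩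
  · have h1 : B.card ≤ t := by
      have := Finset.card_le_univ B
      rwa [Fintype.card_fin] at this
    have h3 : (d - 1) * B.card ≤ (d - 1) * t := Nat.mul_le_mul_left _ h1
    have h4 : t + (d - 1) * t = d * t := by
      obtain ⟨d', rfl⟩ : ∃ d', d = d' + 1 := ⟨d - 1, by omega⟩
      rw [Nat.add_sub_cancel]; ring
    have h5 : d * R < d * t := by omega
    exact lt_of_mul_lt_mul_left h5 (Nat.zero_le d)
  · have h1 : 1 * R ≤ g * R := Nat.mul_le_mul_right _ h1
    omega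
  · exact h1

theorem old_main (i : ℕ) (hd : 0 < d) (f : Fin r → (k : Fin t) → MvPolynomial (Fin (ν k + 1)) ℂ)
    (hf : ∀ e k, (f e k).IsHomogeneous d) (G : Set (Fin t → ZMod d))
    (H : HypB d ν (fun S => rkS ν f S * (d - 1)) G (r + i)) :
    Module.rank ℚ ((VH {Q : PrimeSpectrum (MvPolynomial (Vars ν) ℂ) | eqI ν f ≤ Q.asIdeal} (i + 1)
        →₀ ℚ) ⧸
      Submodule.span ℚ (pdiv {Q : PrimeSpectrum (MvPolynomial (Vars ν) ℂ) | eqI ν f ≤ Q.asIdeal}
        (i + 1) ∪ odST d ν f G (i + 1))) ≤ 1 := by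
  apply main_BC d ν f i hd hf G
  rcases H with ⟨B, h1, h2⟩ | ⟨g, h1, h2, h3⟩ | ⟨h1, h2⟩
  · exact Or.inl ⟨B, h1, h2⟩
  · exact Or.inr (Or.inl ⟨g, h1, h2, h3⟩)
  · exact Or.inr (Or.inr ⟨h1, h2⟩)

/-- the case in which all the blocks have one variable -/
theorem hypB_small (hd : 0 < d) (f : Fin r → (k : Fin t) → MvPolynomial (Fin (ν k + 1)) ℂ)
    (hν : ∀ k, ν k = 0) (G : Set (Fin t → ZMod d)) {R : ℕ} (hR : 0 < R)
    (hcard : ∑ k, (ν k + 1) ≤ R + 1) (H : HypB d ν (bgv d ν f) G R) :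
    HypB d ν (fun S => rkS ν f S * (d - 1)) G R := by
  classical
  obtain rfl : ν = fun _ => 0 := funext hν
  have hsum : ∀ S : Finset (Fin t), ∑ _k ∈ S, (0 + 1) = S.card := by
    intro S
    rw [Finset.sum_const, smul_eq_mul, zero_add, mul_one]
  have hzero : ∀ S, bgv d (fun _ => 0) f S = 0 → rkS (fun _ => 0) f S * (d - 1) = 0 := by
    intro S hS
    unfold bgv at hS
    split_ifs at hS with h
    · rw [rk_zero _ f h, zero_mul]
    · rw [hS, mul_zero]
  rcases H with ⟨B, h1, h2⟩ | ⟨g, h1, h2, h3⟩ | ⟨h1, h2⟩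
  · refine Or.inl ⟨B, fun k hk => ?_, h2⟩
    have h3 := h1 k hk
    rw [hsum, Finset.card_singleton] at h3
    change rkS (fun _ => 0) f {k} * (d - 1) < _
    rw [hzero _ (by omega)]
    simp
  · have hg : g = 1 := by
      rw [hsum, Finset.card_univ, Fintype.card_fin] at hcard
      by_contra hne
      have h4 : 2 * R ≤ g * R := Nat.mul_le_mul_right _ (by omega)
      omega
    subst hg
    refine Or.inr (Or.inl ⟨1, h1, h2, fun S hS => ?_⟩)
    have h4 := h3 S hS
    rw [hsum, hS] at h4 ⊢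
    change rkS (fun _ => 0) f S * (d - 1) < _
    rw [hzero _ (by omega)]
    exact Nat.one_pos
  · refine Or.inr (Or.inr ⟨h1, fun c hc1 hc2 hc3 => ?_⟩)
    obtain ⟨q, m, ρ, π, E, g1, g2, g3, g4, g5, g6⟩ := h2 c hc1 hc2 hc3
    refine split_all hd c (fun k => ∀ e, f e k = 0) (bgv d (fun _ => 0) f) _ ?_ ?_ (R + 1)
      _ q m ρ π E g1 g2 g3 g4 g5 ?_ rfl
    · intro S hS
      unfold bgv
      rw [if_neg]
      intro h
      exact hS (fun k hk e => h e k hk)
    · intro S hS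
      change rkS (fun _ => 0) f S * (d - 1) = 0
      rw [rk_zero _ f (fun e k hk => hS k hk e), zero_mul]
    · intro j hj
      have := g6 j hj
      rwa [hsum] at this

/-- one form -/
theorem block_base (hd : 0 < d) (f : Fin r → (k : Fin t) → MvPolynomial (Fin (ν k + 1)) ℂ)
    (G : Set (Fin t → ZMod d)) {j R : ℕ} (hR : 1 + j ≤ R) (H : HypB d ν (bgv d ν f) G R)
    (F : MvPolynomial (Vars ν) ℂ)
    (hF : ∀ m ∈ F.support, m ∈ BM (fun s : Vars ν => s.1) d ∧ ∀ s, m s ≠ 0 → ∃ e, f e s.1 ≠ 0) :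
    One (HG d ν G) (ZF fun _ : Unit => F) (j + 1) := by
  obtain ⟨g, hg1, hg2, hg3⟩ := exists_blocks hd ν F (fun m hm => (hF m hm).1)
  have h1 : (ZF fun _ : Unit => F) =
      {Q : PrimeSpectrum (MvPolynomial (Vars ν) ℂ) | eqI ν g ≤ Q.asIdeal} := by
    rw [← zf_eqI]
    ext Q
    change (∀ _ : Unit, F ∈ Q.asIdeal) ↔ (∀ e : Fin 1, ∑ k, ff ν g e k ∈ Q.asIdeal)
    constructor
    · intro h e
      rw [Fin.fin_one_eq_zero e, hg2]
      exact h ()
    · intro h _
      have := h 0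
      rwa [hg2] at this
  rw [h1]
  have h2 := old_main (ν := ν) j hd g hg1 G (H.mono (fun S => by
    change rkS ν g S * (d - 1) ≤ bgv d ν f S
    unfold bgv
    split_ifs with h
    · rw [rk_zero, zero_mul]
      intro e k hk
      rw [Fin.fin_one_eq_zero e]
      apply hg3
      intro m hm s hs hsk
      obtain ⟨e', he'⟩ := (hF m hm).2 s hs
      apply he'
      subst hsk
      exact h e' _ hk
    · have := rk_le_one ν g S
      calc rkS ν g S * (d - 1) ≤ 1 * (d - 1) := Nat.mul_le_mul_right _ this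
        _ = d - 1 := one_mul _) hR)
  unfold One
  refine le_trans ?_ h2
  exact LinearMap.rank_le_of_surjective (Submodule.factor (Submodule.span_mono
    (Set.union_subset_union_right _ (od_eq' d ν g _ (j + 1))))) (Submodule.factor_surjective _)

/-- Systems of sums of forms in separate variables. -/
theorem block_mainG (hS : SystemsG) (i : ℕ) (hd : 0 < d)
    (f : Fin r → (k : Fin t) → MvPolynomial (Fin (ν k + 1)) ℂ)
    (hf : ∀ e k, (f e k).IsHomogeneous d) (G : AddSubgroup (Fin t → ZMod d))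
    (H : HypB d ν (bgv d ν f) (G : Set (Fin t → ZMod d)) (r + i)) :
    Module.rank ℚ ((VH {Q : PrimeSpectrum (MvPolynomial (Vars ν) ℂ) | eqI ν f ≤ Q.asIdeal} (i + 1)
        →₀ ℚ) ⧸
      Submodule.span ℚ (pdiv {Q : PrimeSpectrum (MvPolynomial (Vars ν) ℂ) | eqI ν f ≤ Q.asIdeal}
        (i + 1) ∪ odST d ν f (G : Set (Fin t → ZMod d)) (i + 1))) ≤ 1 := by
  classical
  have : NeZero d := ⟨hd.ne'⟩
  by_cases hr : r = 0
  · subst hr
    refine old_main i hd f hf _ (H.mono (fun S => ?_) le_rfl)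
    change rkS ν f S * (d - 1) ≤ bgv d ν f S
    rw [rk_zero _ f (fun e => e.elim0), zero_mul]
    exact Nat.zero_le _
  by_cases hN : r + i + 2 ≤ ∑ k, (ν k + 1)
  · have hζ : IsPrimitiveRoot (Complex.exp (2 * Real.pi * Complex.I / (d : ℕ))) d :=
      Complex.isPrimitiveRoot_exp d hd.ne'
    have key : One (HG d ν (G : Set (Fin t → ZMod d))) (ZF fun e => ∑ k, ff ν f e k) (i + 1) := by
      have h1 := hS (Vars ν) d {m | m ∈ BM (fun s : Vars ν => s.1) d ∧
          ∀ s, m s ≠ 0 → ∃ e, f e s.1 ≠ 0}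
        (hg_finite d ν (G : Set (Fin t → ZMod d))).toFinset r i (fun m hm => hm.1.1) hd
        (hg_grp d ν G) (fun φ c hc => by
          rw [Set.Finite.mem_toFinset] at hc ⊢
          rw [← hg_stable d ν G φ]
          exact ⟨c, hc, rfl⟩) (fun c hc m hm => by
          rw [Set.Finite.mem_toFinset] at hc
          obtain ⟨g, hg, rfl⟩ := hc
          refine bm_coeff_prod _ d hm.1 _ ?_ ?_
          · intro s u hsu
            rw [show s.1 = u.1 from hsu]
          · intro s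
            rw [← pow_mul, mul_comm (g s.1).val d, pow_mul, hζ.pow_eq_one, one_pow]) (by omega)
        (by rw [card_vars]; exact hN) (fun j hj1 hj2 F hF => by
          rw [Set.Finite.coe_toFinset]
          exact block_base hd f _ (by omega) H F hF) (fun e => ∑ k, ff ν f e k) (by
          intro e m hm
          refine ⟨bm_ff ν f hf e m hm, fun s hs => ?_⟩
          have h1 := support_sum hm
          rw [Finset.mem_biUnion] at h1
          obtain ⟨k, _, hk⟩ := h1
          have h2 := (bh_rename k (f e k) (hf e k) m hk).1 s hs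
          refine ⟨e, fun h => ?_⟩
          have h3 : s.1 = k := h2
          subst h3
          unfold ff at hk
          rw [h, map_zero, support_zero] at hk
          exact absurd hk (Finset.notMem_empty _))
      rw [Set.Finite.coe_toFinset] at h1
      exact h1
    rw [zf_eqI] at key
    unfold One at key
    refine le_trans ?_ key
    exact LinearMap.rank_le_of_surjective (Submodule.factor (Submodule.span_mono
      (Set.union_subset_union_right _ (od_eq d ν f _ (i + 1))))) (Submodule.factor_surjective _)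
  · have h1 := H.lt hd
    have h2 : ∑ k, (ν k + 1) = ∑ k, ν k + t := by
      rw [Finset.sum_add_distrib, Finset.sum_const, Finset.card_univ, Fintype.card_fin,
        smul_eq_mul, mul_one]
    have h3 : ∑ k, ν k = 0 := by omega
    have h4 : ∀ k, ν k = 0 := fun k => Finset.sum_eq_zero_iff.1 h3 k (Finset.mem_univ k)
    exact old_main i hd f hf _ (hypB_small hd f h4 _ (by omega) (by omega) H)

end

end Pool.Agent.Bloch.Pen
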