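import Pool.Agent.H78.Pen.Sys

/-! Invariance under graded automorphisms. -/

set_option linter.unusedSectionVars false

open MvPolynomial

namespace Pool.Agent.Bloch.Pen

section
variable {K : Type} [Field K] {σ : Type} [Fintype σ]

/-- the map on subvarieties -/
noncomputable def mv (Φ Ψ : MvPolynomial σ K →ₐ[K] MvPolynomial σ K) (h1 : ∀ f, Φ (Ψ f) = f)
    (hΦ : Gr Φ) (Z : Set (PrimeSpectrum (MvPolynomial σ K))) (k : ℕ)
    (V : VH {Q | ctr K Φ Q ∈ Z} k) : VH Z k :=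
  ⟨ctr K Φ V.1, by
    intro f hf n
    rw [mem_ctr, ← hΦ.comp]
    exact V.2.1 _ hf n, V.2.2.1, by
    rw [dl_uset (frac_of_surj (fun f => ⟨Ψ f, h1 f⟩)) (Q := V.1) (S := ⊥) (by
      intro u hu h
      rw [Submonoid.mem_bot] at hu
      rw [hu, map_one] at h
      exact V.1.2.ne_top ((Ideal.eq_top_iff_one _).2 h))]
    exact V.2.2.2⟩

theorem mv_val (Φ Ψ : MvPolynomial σ K →ₐ[K] MvPolynomial σ K) (h1 : ∀ f, Φ (Ψ f) = f)
    (hΦ : Gr Φ) (Z : Set (PrimeSpectrum (MvPolynomial σ K))) (k : ℕ)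
    (V : VH {Q | ctr K Φ Q ∈ Z} k) : (mv Φ Ψ h1 hΦ Z k V).1 = ctr K Φ V.1 := rfl

theorem mv_inj (Φ Ψ : MvPolynomial σ K →ₐ[K] MvPolynomial σ K) (h1 : ∀ f, Φ (Ψ f) = f)
    (hΦ : Gr Φ) (Z : Set (PrimeSpectrum (MvPolynomial σ K))) (k : ℕ) :
    Function.Injective (mv Φ Ψ h1 hΦ Z k) := by
  intro V V' h
  have h3 := congrArg Subtype.val h
  rw [mv_val, mv_val] at h3
  apply Subtype.ext
  apply PrimeSpectrum.ext
  ext f
  have h4 : ∀ Q : PrimeSpectrum (MvPolynomial σ K), f ∈ Q.asIdeal ↔ Ψ f ∈ (ctr K Φ Q).asIdeal := by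
    intro Q
    rw [mem_ctr, h1]
  rw [h4, h4, h3]

theorem mv_surj (Φ Ψ : MvPolynomial σ K →ₐ[K] MvPolynomial σ K) (h1 : ∀ f, Φ (Ψ f) = f)
    (h2 : ∀ f, Ψ (Φ f) = f)
    (hΦ : Gr Φ) (hΨ : Gr Ψ) (Z : Set (PrimeSpectrum (MvPolynomial σ K))) (k : ℕ) :
    Function.Surjective (mv Φ Ψ h1 hΦ Z k) := by
  intro V
  have h3 : ctr K Φ (ctr K Ψ V.1) = V.1 := by
    apply PrimeSpectrum.ext
    ext f
    rw [mem_ctr, mem_ctr, h2]
  refine ⟨⟨ctr K Ψ V.1, ?_, ?_, ?_⟩, ?_⟩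
  · intro f hf n
    rw [mem_ctr, ← hΨ.comp]
    exact V.2.1 _ hf n
  · change ctr K Φ (ctr K Ψ V.1) ∈ Z
    rw [h3]; exact V.2.2.1
  · rw [dl_uset (frac_of_surj (fun f => ⟨Φ f, h2 f⟩)) (Q := V.1) (S := ⊥) (by
      intro u hu h
      rw [Submonoid.mem_bot] at hu
      rw [hu, map_one] at h
      exact V.1.2.ne_top ((Ideal.eq_top_iff_one _).2 h))]
    exact V.2.2.2
  · exact Subtype.ext h3

/-- The property `One` is invariant under graded automorphisms which commute with the scalings. -/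
theorem one_change (Φ Ψ : MvPolynomial σ K →ₐ[K] MvPolynomial σ K) (h1 : ∀ f, Φ (Ψ f) = f)
    (h2 : ∀ f, Ψ (Φ f) = f) (hΦ : Gr Φ) (hΨ : Gr Ψ) (H : Set (σ → K))
    (hH : ∀ h ∈ H, ∀ f, Φ (scl K h f) = scl K h (Φ f))
    (Z : Set (PrimeSpectrum (MvPolynomial σ K))) (k : ℕ) (h : One H {Q | ctr K Φ Q ∈ Z} k) :
    One H Z k := by
  unfold One at h ⊢
  let e : VH {Q | ctr K Φ Q ∈ Z} k ≃ VH Z k :=
    Equiv.ofBijective (mv Φ Ψ h1 hΦ Z k) ⟨mv_inj Φ Ψ h1 hΦ Z k, mv_surj Φ Ψ h1 h2 hΦ hΨ Z k⟩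
  let L : (VH {Q | ctr K Φ Q ∈ Z} k →₀ ℚ) ≃ₗ[ℚ] (VH Z k →₀ ℚ) := Finsupp.domLCongr e
  have hL : ∀ V c, L (Finsupp.single V c) = Finsupp.single (mv Φ Ψ h1 hΦ Z k V) c := by
    intro V c
    exact Finsupp.domLCongr_single e V c
  have hLapp : ∀ z V, L z (mv Φ Ψ h1 hΦ Z k V) = z V := by
    intro z V
    have : L z (e V) = z V := by
      rw [Finsupp.domLCongr_apply, Finsupp.domCongr_apply, Finsupp.equivMapDomain_apply,
        Equiv.symm_apply_apply]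
    exact this
  have hF : Frac K Φ (⊥ : Submonoid (MvPolynomial σ K)) := frac_of_surj (fun f => ⟨Ψ f, h1 f⟩)
  have hU : ∀ Q : PrimeSpectrum (MvPolynomial σ K), Q ∈ Uset K Φ (⊥ : Submonoid (MvPolynomial σ K)) := by
    intro Q u hu h
    rw [Submonoid.mem_bot] at hu
    rw [hu, map_one] at h
    exact Q.2.ne_top ((Ideal.eq_top_iff_one _).2 h)
  have hle : Submodule.span ℚ (pdK {Q | ctr K Φ Q ∈ Z} k ∪ odK H {Q | ctr K Φ Q ∈ Z} k) ≤
      (Submodule.span ℚ (pdK Z k ∪ odK H Z k)).comap (L : _ →ₗ[ℚ] _) := by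
    rw [Submodule.span_le]
    rintro z (hz | hz)
    · obtain ⟨W, n, f, g, hf, hg, hfW, hgW, hz⟩ := hz
      apply Submodule.subset_span
      left
      refine ⟨mv Φ Ψ h1 hΦ Z (k + 1) W, n, Ψ f, Ψ g, hΨ f n hf, hΨ g n hg, ?_, ?_, ?_⟩
      · rw [mv_val, mem_ctr, h1]; exact hfW
      · rw [mv_val, mem_ctr, h1]; exact hgW
      · intro V'
        obtain ⟨V, rfl⟩ := mv_surj Φ Ψ h1 h2 hΦ hΨ Z k V'
        have h3 := hLapp z V
        change L z _ = _ at h3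
        change L z _ = _
        rw [h3, hz V, mv_val, mv_val]
        have key : ∀ f : MvPolynomial σ K,
            len V.1 (MvPolynomial σ K ⧸ (W.1.asIdeal ⊔ Ideal.span {f})) =
            len (ctr K Φ V.1) (MvPolynomial σ K ⧸ ((ctr K Φ W.1).asIdeal ⊔ Ideal.span {Ψ f})) := by
          intro f
          exact len_uset_div (Q₀ := W.1) hF (hU V.1) (Submonoid.one_mem _)
            (show f * Φ 1 = Φ (Ψ f) by rw [map_one, mul_one, h1])
        rw [key f, key g]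
    · obtain ⟨h, hh, V, V', hV, rfl⟩ := hz
      apply Submodule.subset_span
      right
      refine ⟨h, hh, mv Φ Ψ h1 hΦ Z k V, mv Φ Ψ h1 hΦ Z k V', ?_, ?_⟩
      · rw [mv_val, mv_val, hV]
        apply PrimeSpectrum.ext
        ext f
        rw [mem_ctr, mem_ctr, mem_ctr, mem_ctr, hH h hh]
      · change L _ = _
        rw [map_sub, hL, hL]
  refine le_trans ?_ h
  refine LinearMap.rank_le_of_surjective (Submodule.mapQ _ _ (L : _ →ₗ[ℚ] _) hle) ?_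
  intro x
  obtain ⟨y, rfl⟩ := Submodule.Quotient.mk_surjective _ x
  refine ⟨Submodule.Quotient.mk (L.symm y), ?_⟩
  rw [Submodule.mapQ_apply]
  congr 1
  exact L.apply_symm_apply y

end

end Pool.Agent.Bloch.Pen
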