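import Pool.Agent.Bloch.MainHS

/-! Cones: the ring of polynomials with one more variable. -/

set_option linter.unusedSectionVars false

open MvPolynomial

namespace Pool.Agent.Bloch.Pen

section
variable {K : Type} [Field K] {τ : Type} [Fintype τ]

/-- the isomorphism with the polynomials in the last variable -/
noncomputable abbrev thc (K : Type) [Field K] (τ : Type) [Fintype τ] :
    MvPolynomial (Option τ) K →ₐ[K] Polynomial (MvPolynomial τ K) :=
  (optionEquivLeft K τ).toAlgHom

/-- the inverse isomorphism -/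
noncomputable abbrev thd (K : Type) [Field K] (τ : Type) [Fintype τ] :
    Polynomial (MvPolynomial τ K) →ₐ[K] MvPolynomial (Option τ) K :=
  (optionEquivLeft K τ).symm.toAlgHom

/-- the inclusion -/
noncomputable abbrev inc (K : Type) [Field K] (τ : Type) [Fintype τ] :
    MvPolynomial τ K →ₐ[K] MvPolynomial (Option τ) K := rename some

theorem thc_thd (f : Polynomial (MvPolynomial τ K)) : thc K τ (thd K τ f) = f :=
  (optionEquivLeft K τ).apply_symm_apply f

theorem thd_thc (f : MvPolynomial (Option τ) K) : thd K τ (thc K τ f) = f :=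
  (optionEquivLeft K τ).symm_apply_apply f

theorem thc_inc (f : MvPolynomial τ K) : thc K τ (inc K τ f) = Polynomial.C f := by
  have : (thc K τ).comp (inc K τ) = polyC K (MvPolynomial τ K) := by
    apply MvPolynomial.algHom_ext
    intro s
    rw [AlgHom.comp_apply, rename_X]
    exact optionEquivLeft_X_some K τ s
  exact DFunLike.congr_fun this f

theorem thd_C (f : MvPolynomial τ K) : thd K τ (Polynomial.C f) = inc K τ f := by
  rw [← thc_inc, thd_thc]

/-- components of the coefficients -/
theorem hc_thc (f : MvPolynomial (Option τ) K) (n j : ℕ) :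
    (thc K τ (homogeneousComponent n f)).coeff j =
      if j ≤ n then homogeneousComponent (n - j) ((thc K τ f).coeff j) else 0 := by
  induction f using MvPolynomial.induction_on' with
  | monomial m r =>
    have hdeg : m.degree = m none + m.some.degree := by
      rw [Finsupp.degree_eq_sum, Finsupp.degree_eq_sum, Fintype.sum_option]
      rfl
    have h1 : ∀ (m : Option τ →₀ ℕ) (r : K), (thc K τ (monomial m r)) =
        Polynomial.monomial (m none) (monomial m.some r) :=
      fun m r => optionEquivLeft_monomial K τ m r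
    have h2 : homogeneousComponent n (monomial m r) = if n = m.degree then monomial m r else 0 :=
      homogeneousComponent_of_mem (isHomogeneous_monomial r rfl)
    have h3 : ∀ l, homogeneousComponent l (monomial m.some r) =
        if l = m.some.degree then monomial m.some r else 0 :=
      fun l => homogeneousComponent_of_mem (isHomogeneous_monomial r rfl)
    rw [h2, h1, Polynomial.coeff_monomial]
    by_cases hj : m none = j
    · rw [if_pos hj, h3]
      by_cases hn : n = m.degree
      · rw [if_pos hn, h1, Polynomial.coeff_monomial, if_pos hj, if_pos (by omega),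
          if_pos (by omega)]
      · rw [if_neg hn, map_zero, Polynomial.coeff_zero]
        split_ifs with h4 h5
        · omega
        · rfl
        · rfl
    · rw [if_neg hj, map_zero, ite_self]
      split_ifs
      · rw [h1, Polynomial.coeff_monomial, if_neg hj]
      · rw [map_zero, Polynomial.coeff_zero]
  | add p q hp hq =>
    rw [map_add, map_add, Polynomial.coeff_add, hp, hq, map_add, Polynomial.coeff_add]
    split_ifs
    · rw [map_add]
    · rw [add_zero]

/-- the cone over a subvariety -/
noncomputable def cn (q : PrimeSpectrum (MvPolynomial τ K)) :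
    PrimeSpectrum (MvPolynomial (Option τ) K) := ctr K (thc K τ) (ext q)

theorem mem_cn (q : PrimeSpectrum (MvPolynomial τ K)) (f : MvPolynomial (Option τ) K) :
    f ∈ (cn q).asIdeal ↔ ∀ n, (thc K τ f).coeff n ∈ q.asIdeal := mem_ext q _

theorem inc_mem_cn (q : PrimeSpectrum (MvPolynomial τ K)) (f : MvPolynomial τ K) :
    inc K τ f ∈ (cn q).asIdeal ↔ f ∈ q.asIdeal := by
  rw [mem_cn, thc_inc]
  constructor
  · intro h
    have := h 0
    rwa [Polynomial.coeff_C_zero] at this
  · intro h n
    rw [Polynomial.coeff_C]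
    split_ifs
    · exact h
    · exact Ideal.zero_mem _

theorem ctr_cn (q : PrimeSpectrum (MvPolynomial τ K)) : ctr K (inc K τ) (cn q) = q := by
  apply PrimeSpectrum.ext
  ext f
  rw [mem_ctr, inc_mem_cn]

/-- the prime of the polynomial ring -/
noncomputable def up (P : PrimeSpectrum (MvPolynomial (Option τ) K)) :
    PrimeSpectrum (Polynomial (MvPolynomial τ K)) := ctr K (thd K τ) P

theorem ctr_up (P : PrimeSpectrum (MvPolynomial (Option τ) K)) : ctr K (thc K τ) (up P) = P := by
  apply PrimeSpectrum.ext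
  ext f
  rw [mem_ctr]
  change thd K τ (thc K τ f) ∈ P.asIdeal ↔ f ∈ P.asIdeal
  rw [thd_thc]

theorem up_ctr (P : PrimeSpectrum (Polynomial (MvPolynomial τ K))) : up (ctr K (thc K τ) P) = P := by
  apply PrimeSpectrum.ext
  ext f
  change thc K τ (thd K τ f) ∈ P.asIdeal ↔ f ∈ P.asIdeal
  rw [thc_thd]

theorem polyC_up (P : PrimeSpectrum (MvPolynomial (Option τ) K)) :
    ctr K (polyC K (MvPolynomial τ K)) (up P) = ctr K (inc K τ) P := by
  apply PrimeSpectrum.ext
  ext f
  rw [mem_ctr, mem_ctr]
  change thd K τ (Polynomial.C f) ∈ P.asIdeal ↔ inc K τ f ∈ P.asIdeal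
  rw [thd_C]

theorem cn_ctr_le (P : PrimeSpectrum (MvPolynomial (Option τ) K)) :
    cn (ctr K (inc K τ) P) ≤ P := by
  intro f hf
  have h1 : thc K τ f ∈ (ext (ctr K (polyC K _) (up P))).asIdeal := by
    rw [polyC_up]; exact hf
  have h2 := ext_ctr_le K (up P) h1
  change thd K τ (thc K τ f) ∈ P.asIdeal at h2
  rwa [thd_thc] at h2

theorem frac_thc : Frac K (thc K τ) (⊥ : Submonoid (MvPolynomial (Option τ) K)) :=
  frac_of_surj (fun f => ⟨thd K τ f, thc_thd f⟩)

theorem uset_bot {P T : Type} [CommRing P] [Algebra K P] [CommRing T] [Algebra K T]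
    (θ : P →ₐ[K] T) (Q : PrimeSpectrum T) : Q ∈ Uset K θ (⊥ : Submonoid P) := by
  intro u hu h
  rw [Submonoid.mem_bot] at hu
  rw [hu, map_one] at h
  exact Q.2.ne_top ((Ideal.eq_top_iff_one _).2 h)

theorem dl_cn (q : PrimeSpectrum (MvPolynomial τ K)) : dl K (cn q) = dl K q + 1 := by
  unfold cn
  rw [dl_uset frac_thc (uset_bot _ _), dl_ext]

theorem dl_up (P : PrimeSpectrum (MvPolynomial (Option τ) K)) : dl K (up P) = dl K P := by
  rw [← dl_uset frac_thc (uset_bot _ _), ctr_up]

/-- A subvariety which is not a cone has the same dimension as its projection. -/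
theorem dl_ctr_of_ne (P : PrimeSpectrum (MvPolynomial (Option τ) K))
    (h : P ≠ cn (ctr K (inc K τ) P)) : dl K P = dl K (ctr K (inc K τ) P) := by
  rw [← dl_up, ← polyC_up]
  apply dl_eq_ctr_of_ne
  intro h1
  apply h
  rw [polyC_up] at h1
  unfold cn
  rw [← h1, ctr_up]

theorem inc_gr : Gr (inc K τ) := by
  intro f n hf
  exact hf.rename_isHomogeneous

theorem homP_cn {q : PrimeSpectrum (MvPolynomial τ K)} (hq : HomP q) : HomP (cn q) := by
  intro f hf n
  rw [mem_cn] at hf ⊢
  intro j
  rw [hc_thc]
  split_ifs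
  · exact hq _ (hf j) _
  · exact Ideal.zero_mem _

theorem homP_ctr_inc {P : PrimeSpectrum (MvPolynomial (Option τ) K)} (hP : HomP P) :
    HomP (ctr K (inc K τ) P) := inc_gr.homP_ctr hP

/-- A homogeneous element which generates the prime generically over its projection. -/
theorem exists_gen_hom (P : PrimeSpectrum (MvPolynomial (Option τ) K)) (hP : HomP P)
    (hne : P ≠ cn (ctr K (inc K τ) P)) :
    ∃ (n : ℕ) (f : MvPolynomial (Option τ) K), f.IsHomogeneous n ∧ f ∈ P.asIdeal ∧
      f ∉ (cn (ctr K (inc K τ) P)).asIdeal ∧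
      ∀ g ∈ P.asIdeal, ∃ u : MvPolynomial τ K, u ∉ (ctr K (inc K τ) P).asIdeal ∧
        inc K τ u * g ∈ (cn (ctr K (inc K τ) P)).asIdeal ⊔ Ideal.span {f} := by
  set p := ctr K (inc K τ) P with hp
  have hpH : HomP p := homP_ctr_inc hP
  have hker : ∀ g : MvPolynomial (Option τ) K, g ∈ (cn p).asIdeal ↔
      (thc K τ g).map (toKap p) = 0 := by
    intro g
    rw [mem_cn, Polynomial.ext_iff]
    simp only [Polynomial.coeff_map, Polynomial.coeff_zero, toKap_eq_zero]
  have hexi : ∃ f, f ∈ P.asIdeal ∧ f ∉ (cn p).asIdeal := by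
    by_contra hcon
    push Not at hcon
    exact hne (le_antisymm hcon (cn_ctr_le P))
  obtain ⟨f₀, ⟨hf₀1, hf₀2⟩, hfmin⟩ := WellFounded.has_min
    (measure (fun f : MvPolynomial (Option τ) K => ((thc K τ f).map (toKap p)).natDegree)).wf
    {f | f ∈ P.asIdeal ∧ f ∉ (cn p).asIdeal} hexi
  obtain ⟨n, hn⟩ : ∃ n, homogeneousComponent n f₀ ∉ (cn p).asIdeal := by
    by_contra hcon
    push Not at hcon
    apply hf₀2
    exact mem_of_comp _ f₀ hcon
  set f := homogeneousComponent n f₀ with hf
  have hf1 : f ∈ P.asIdeal := hP _ hf₀1 n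
  have hle : ((thc K τ f).map (toKap p)).natDegree ≤ ((thc K τ f₀).map (toKap p)).natDegree := by
    rw [Polynomial.natDegree_le_iff_coeff_eq_zero]
    intro j hj
    have h1 := Polynomial.coeff_eq_zero_of_natDegree_lt hj
    rw [Polynomial.coeff_map, toKap_eq_zero] at h1 ⊢
    rw [hf, hc_thc]
    split_ifs
    · exact hpH _ h1 _
    · exact Ideal.zero_mem _
  refine ⟨n, f, homogeneousComponent_isHomogeneous n f₀, hf1, hn, fun g hg => ?_⟩
  set F := (thc K τ f).map (toKap p) with hF
  have hF0 : F ≠ 0 := fun h => hn ((hker f).2 h)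
  set G := (thc K τ g).map (toKap p) with hG
  obtain ⟨u, h, h1, h2⟩ := toKap_poly_frac p (G / F)
  refine ⟨u, h2, ?_⟩
  have hu0 : toKap p u ≠ 0 := by rwa [ne_eq, toKap_eq_zero]
  have h3 : (thc K τ (inc K τ u * g - thd K τ h * f)).map (toKap p) =
      Polynomial.C (toKap p u) * (G % F) := by
    rw [map_sub, map_mul, map_mul, thc_inc, thc_thd, Polynomial.map_sub, Polynomial.map_mul,
      Polynomial.map_mul, Polynomial.map_C, ← h1]
    have := EuclideanDomain.div_add_mod G F
    rw [← hG, ← hF]
    linear_combination (-Polynomial.C (toKap p u)) * this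
  have h4 : inc K τ u * g - thd K τ h * f ∈ P.asIdeal :=
    Ideal.sub_mem _ (Ideal.mul_mem_left _ _ hg) (Ideal.mul_mem_left _ _ hf1)
  have h5 : inc K τ u * g - thd K τ h * f ∈ (cn p).asIdeal := by
    by_contra h6
    have h7 := hfmin _ ⟨h4, h6⟩
    apply h7
    refine lt_of_lt_of_le ?_ hle
    change (Polynomial.map (toKap p) (thc K τ (inc K τ u * g - thd K τ h * f))).natDegree <
      F.natDegree
    have h8 : Polynomial.map (toKap p) (thc K τ (inc K τ u * g - thd K τ h * f)) ≠ 0 :=
      fun h => h6 ((hker _).2 h)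
    apply Polynomial.natDegree_lt_natDegree h8
    rw [h3, Polynomial.degree_C_mul hu0]
    exact EuclideanDomain.mod_lt G hF0
  have h6 : inc K τ u * g = (inc K τ u * g - thd K τ h * f) + thd K τ h * f := by ring
  rw [h6]
  exact Ideal.add_mem _ (Ideal.mem_sup_left h5)
    (Ideal.mem_sup_right (Ideal.mul_mem_left _ _ (Ideal.mem_span_singleton_self f)))

end

end Pool.Agent.Bloch.Pen
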