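import Pool.Agent.H78.Pen.Cone1

/-! Cycles on cones. -/

set_option linter.unusedSectionVars false

open MvPolynomial TensorProduct

namespace Pool.Agent.Bloch.Pen

section pull
variable {K : Type} [Field K] (𝕜 : Type) [Field 𝕜] [CharZero 𝕜]
variable {A : Type} [CommRing A] [Algebra K A] [Algebra.EssFiniteType K A] [IsNoetherianRing A]

/-- The pull-back of a principal divisor to the polynomial ring. -/
theorem pull_div {k : ℕ} {q : PrimeSpectrum A} {a : A} (h1 : dl K q = k + 1)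
    (h2 : a ∉ q.asIdeal) : pull K 𝕜 (Polynomial A) 1 (divCyc K 𝕜 k q a) =
      divCyc K 𝕜 (k + 1) (ext q) (Polynomial.C a) := by
  unfold divCyc
  rw [← cyc_tensor K 𝕜 (Polynomial A) (rho_poly K) (bd_div K h1 h2)]
  apply cyc_congr
  have e := (Algebra.TensorProduct.quotIdealMapEquivTensorQuot (Polynomial A)
    (q.asIdeal ⊔ Ideal.span {a})).toLinearEquiv.symm
  have h3 : (q.asIdeal ⊔ Ideal.span {a}).map (algebraMap A (Polynomial A)) =
      (ext q).asIdeal ⊔ Ideal.span {Polynomial.C a} := by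
    rw [Ideal.map_sup, Ideal.map_span, Set.image_singleton]
    rfl
  rw [← h3]
  exact e

end pull

section
variable {K : Type} [Field K] (𝕜 : Type) [Field 𝕜] [CharZero 𝕜] {τ : Type} [Fintype τ]

/-- the cone over a cycle -/
noncomputable def ec : (PrimeSpectrum (MvPolynomial τ K) →₀ 𝕜) →ₗ[𝕜]
    (PrimeSpectrum (MvPolynomial (Option τ) K) →₀ 𝕜) :=
  push K 𝕜 (thc K τ) ⊥ ∘ₗ pull K 𝕜 (Polynomial (MvPolynomial τ K)) 1

theorem ec_single (q : PrimeSpectrum (MvPolynomial τ K)) :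
    ec 𝕜 (Finsupp.single q 1) = Finsupp.single (cn q) 1 := by
  unfold ec
  rw [LinearMap.comp_apply, pull_poly, push_single K 𝕜 (thc K τ) ⊥ (uset_bot _ _)]
  rfl

theorem ec_div {k : ℕ} {q : PrimeSpectrum (MvPolynomial τ K)} {a : MvPolynomial τ K}
    (h1 : dl K q = k + 1) (h2 : a ∉ q.asIdeal) :
    ec 𝕜 (divCyc K 𝕜 k q a) = divCyc K 𝕜 (k + 1) (cn q) (inc K τ a) := by
  have h3 : dl K (cn q) = k + 1 + 1 := by rw [dl_cn, h1]
  have h4 : inc K τ a ∉ (cn q).asIdeal := by rwa [inc_mem_cn]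
  have h5 : dl K (ext q) = k + 1 + 1 := by rw [dl_ext, h1]
  have h6 : Polynomial.C a ∉ (ext q).asIdeal := by
    rw [← thc_inc]; exact h4
  ext P
  unfold ec
  rw [LinearMap.comp_apply, pull_div 𝕜 h1 h2]
  conv_lhs => rw [← ctr_up P]
  rw [push_apply K 𝕜 frac_thc (uset_bot _ _)]
  by_cases hd : dl K P = k + 1
  · rw [divCyc_apply K 𝕜 h5 h6 _ (by rw [dl_up, hd]), divCyc_apply K 𝕜 h3 h4 _ hd]
    congr 2
    have := len_uset_div (Q₀ := ext q) (frac_thc (K := K) (τ := τ)) (uset_bot (thc K τ) (up P))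
      (Submonoid.one_mem _) (show Polynomial.C a * thc K τ 1 = thc K τ (inc K τ a) by
        rw [map_one, mul_one, thc_inc])
    rw [this, ctr_up]
    rfl
  · have h7 : divCyc K 𝕜 (k + 1) (ext q) (Polynomial.C a) (up P) = 0 := by
      by_contra h
      rw [← ne_eq, divCyc_ne_zero_iff K 𝕜 h5 h6] at h
      exact hd (by rw [← dl_up, h.1])
    have h8 : divCyc K 𝕜 (k + 1) (cn q) (inc K τ a) P = 0 := by
      by_contra h
      rw [← ne_eq, divCyc_ne_zero_iff K 𝕜 h3 h4] at h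
      exact hd h.1
    rw [h7, h8]

/-- the cone over a closed set -/
def Zc (Z : Set (PrimeSpectrum (MvPolynomial τ K))) :
    Set (PrimeSpectrum (MvPolynomial (Option τ) K)) := {Q | ctr K (inc K τ) Q ∈ Z}

/-- the cone over a subvariety -/
noncomputable def cnV (Z : Set (PrimeSpectrum (MvPolynomial τ K))) (k : ℕ) (V : VH Z k) :
    VH (Zc Z) (k + 1) :=
  ⟨cn V.1, homP_cn V.2.1, by
    change ctr K (inc K τ) (cn V.1) ∈ Z
    rw [ctr_cn]; exact V.2.2.1, by rw [dl_cn, V.2.2.2]⟩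

/-- cones over homogeneous cycles -/
noncomputable def eh (Z : Set (PrimeSpectrum (MvPolynomial τ K))) (k : ℕ) :
    (VH Z k →₀ 𝕜) →ₗ[𝕜] (VH (Zc Z) (k + 1) →₀ 𝕜) :=
  res 𝕜 (Zc Z) (k + 1) ∘ₗ ec 𝕜 ∘ₗ emb 𝕜 Z k

theorem eh_single (Z : Set (PrimeSpectrum (MvPolynomial τ K))) (k : ℕ) (V : VH Z k) :
    eh 𝕜 Z k (Finsupp.single V 1) = Finsupp.single (cnV Z k V) 1 := by
  unfold eh
  rw [LinearMap.comp_apply, LinearMap.comp_apply, emb_single, ec_single]
  exact res_single 𝕜 (Zc Z) (k + 1) (cnV Z k V) 1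

theorem eh_rel {Z : Set (PrimeSpectrum (MvPolynomial τ K))} (hup : ∀ p ∈ Z, ∀ q, p ≤ q → q ∈ Z)
    {k : ℕ} {z : VH Z k →₀ 𝕜} (hz : z ∈ RelH 𝕜 Z k) : eh 𝕜 Z k z ∈ RelH 𝕜 (Zc Z) (k + 1) := by
  unfold RelH at hz
  induction hz using Submodule.span_induction with
  | mem z hz =>
    obtain ⟨W, n, f, g, hf, hg, hfW, hgW, rfl⟩ := hz
    apply Submodule.subset_span
    refine ⟨cnV Z (k + 1) W, n, inc K τ f, inc K τ g, inc_gr f n hf, inc_gr g n hg, ?_, ?_, ?_⟩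
    · change inc K τ f ∉ (cn W.1).asIdeal
      rwa [inc_mem_cn]
    · change inc K τ g ∉ (cn W.1).asIdeal
      rwa [inc_mem_cn]
    · unfold eh
      rw [LinearMap.comp_apply, LinearMap.comp_apply, map_sub, map_sub,
        emb_res_div 𝕜 Z k hup W hf hfW, emb_res_div 𝕜 Z k hup W hg hgW, map_sub,
        ec_div 𝕜 W.2.2.2 hfW, ec_div 𝕜 W.2.2.2 hgW]
      rfl
  | zero => rw [map_zero]; exact Submodule.zero_mem _
  | add x y _ _ hx hy => rw [map_add]; exact Submodule.add_mem _ hx hy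
  | smul c x _ hx => rw [map_smul]; exact Submodule.smul_mem _ _ hx

theorem exists_X {σ : Type} [Fintype σ] {k : ℕ} (W : PrimeSpectrum (MvPolynomial σ K))
    (hd : dl K W = k + 1) : ∃ s, X s ∉ W.asIdeal := by
  by_contra h
  push Not at h
  have h1 := dl_vars K W h
  omega

/-- Every subvariety of a cone is equivalent to a combination of cones. -/
theorem mem_cones {Z : Set (PrimeSpectrum (MvPolynomial τ K))} {k : ℕ}
    (V : VH (Zc Z) (k + 1)) :
    Finsupp.single V 1 ∈ RelH 𝕜 (Zc Z) (k + 1) ⊔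
      Submodule.span 𝕜 (Set.range fun V' : VH Z k => Finsupp.single (cnV Z k V') (1 : 𝕜)) := by
  have hcone : ∀ Q : VH (Zc Z) (k + 1), Q.1 = cn (ctr K (inc K τ) Q.1) →
      Finsupp.single Q 1 ∈ RelH 𝕜 (Zc Z) (k + 1) ⊔
      Submodule.span 𝕜 (Set.range fun V' : VH Z k => Finsupp.single (cnV Z k V') (1 : 𝕜)) := by
    intro Q hQ
    apply Submodule.mem_sup_right
    apply Submodule.subset_span
    refine ⟨⟨ctr K (inc K τ) Q.1, homP_ctr_inc Q.2.1, Q.2.2.1, ?_⟩, ?_⟩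
    · have h1 := Q.2.2.2
      rw [hQ, dl_cn] at h1
      omega
    · change Finsupp.single _ _ = _
      congr 1
      exact Subtype.ext hQ.symm
  by_cases hne : V.1 = cn (ctr K (inc K τ) V.1)
  · exact hcone V hne
  obtain ⟨n, f, hf, hfV, hfp, hgen⟩ := exists_gen_hom V.1 V.2.1 hne
  set p := ctr K (inc K τ) V.1 with hp
  have hdp : dl K p = k + 1 := by rw [← V.2.2.2]; exact (dl_ctr_of_ne V.1 hne).symm
  obtain ⟨s, hs⟩ := exists_X p hdp
  let W : VH (Zc Z) (k + 1 + 1) := ⟨cn p, homP_cn (homP_ctr_inc V.2.1), by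
    change ctr K (inc K τ) (cn p) ∈ Z
    rw [ctr_cn]; exact V.2.2.1, by rw [dl_cn, hdp]⟩
  have hW : dl K W.1 = k + 1 + 1 := W.2.2.2
  have hg : (inc K τ (X s ^ n) : MvPolynomial (Option τ) K).IsHomogeneous n := by
    apply inc_gr
    have := (isHomogeneous_X K s).pow n
    rwa [one_mul] at this
  have hgW : inc K τ (X s ^ n) ∉ W.1.asIdeal := by
    change inc K τ (X s ^ n) ∉ (cn p).asIdeal
    rw [inc_mem_cn]
    intro h
    exact hs (p.2.mem_of_pow_mem n h)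
  have hD : res 𝕜 (Zc Z) (k + 1) (divCyc K 𝕜 (k + 1) W.1 f -
      divCyc K 𝕜 (k + 1) W.1 (inc K τ (X s ^ n))) ∈ RelH 𝕜 (Zc Z) (k + 1) :=
    Submodule.subset_span ⟨W, n, f, _, hf, hg, hfp, hgW, rfl⟩
  have hctr : ∀ Q : VH (Zc Z) (k + 1), cn p ≤ Q.1 → ctr K (inc K τ) Q.1 ≠ p →
      Q.1 = cn (ctr K (inc K τ) Q.1) := by
    intro Q h1 h2
    by_contra h3
    have h4 := dl_ctr_of_ne Q.1 h3
    have h5 : p ≤ ctr K (inc K τ) Q.1 := by
      have := ctr_mono K (inc K τ) h1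
      rwa [ctr_cn] at this
    have h6 := dl_lt K (lt_of_le_of_ne h5 (Ne.symm h2))
    rw [← h4, Q.2.2.2, hdp] at h6
    omega
  refine single_mem_of 𝕜 (Submodule.mem_sup_left hD) V ?_ ?_
  · rw [res_apply, Finsupp.sub_apply]
    have h1 : divCyc K 𝕜 (k + 1) W.1 (inc K τ (X s ^ n)) V.1 = 0 := by
      by_contra h
      rw [← ne_eq, divCyc_ne_zero_iff K 𝕜 hW hgW] at h
      have h2 : X s ^ n ∈ p.asIdeal := h.2.2
      exact hs (p.2.mem_of_pow_mem n h2)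
    rw [h1, sub_zero, divCyc_ne_zero_iff K 𝕜 hW hfp]
    exact ⟨V.2.2.2, cn_ctr_le V.1, hfV⟩
  · intro Q hQV hQ
    rw [res_apply, Finsupp.sub_apply] at hQ
    apply hcone
    by_cases h1 : divCyc K 𝕜 (k + 1) W.1 f Q.1 = 0
    · rw [h1, zero_sub, neg_ne_zero, divCyc_ne_zero_iff K 𝕜 hW hgW] at hQ
      apply hctr Q hQ.2.1
      intro h2
      have h3 : X s ^ n ∈ (ctr K (inc K τ) Q.1).asIdeal := hQ.2.2
      rw [h2] at h3
      exact hs (p.2.mem_of_pow_mem n h3)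
    · rw [← ne_eq, divCyc_ne_zero_iff K 𝕜 hW hfp] at h1
      apply hctr Q h1.2.1
      intro h2
      apply hQV
      symm
      apply Subtype.ext
      refine eq_of_le_of_dl K ?_ (by rw [V.2.2.2, Q.2.2.2])
      intro g hg'
      obtain ⟨u, hu1, hu2⟩ := hgen g hg'
      have hle : (cn p).asIdeal ⊔ Ideal.span {f} ≤ Q.1.asIdeal := by
        rw [sup_le_iff, Ideal.span_singleton_le_iff_mem]
        exact ⟨h1.2.1, h1.2.2⟩
      refine (Q.1.2.mem_or_mem (hle hu2)).resolve_left ?_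
      intro h3
      apply hu1
      have h4 : u ∈ (ctr K (inc K τ) Q.1).asIdeal := h3
      rwa [h2] at h4

/-- Cones: if the group of cycles has dimension at most one, then that of the cone, too. -/
theorem one_cone {Z : Set (PrimeSpectrum (MvPolynomial τ K))}
    (hup : ∀ p ∈ Z, ∀ q, p ≤ q → q ∈ Z) {k : ℕ}
    (h : ∃ α : VH Z k →₀ 𝕜, ∀ V, Finsupp.single V 1 ∈ RelH 𝕜 Z k ⊔ Submodule.span 𝕜 {α}) :
    ∃ α : VH (Zc Z) (k + 1) →₀ 𝕜, ∀ V, Finsupp.single V 1 ∈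
      RelH 𝕜 (Zc Z) (k + 1) ⊔ Submodule.span 𝕜 {α} := by
  obtain ⟨α, hα⟩ := h
  refine ⟨eh 𝕜 Z k α, fun V => ?_⟩
  refine (sup_le le_sup_left ?_ : RelH 𝕜 (Zc Z) (k + 1) ⊔
      Submodule.span 𝕜 (Set.range fun V' : VH Z k => Finsupp.single (cnV Z k V') (1 : 𝕜)) ≤ _)
    (mem_cones 𝕜 V)
  rw [Submodule.span_le]
  rintro _ ⟨V', rfl⟩
  change Finsupp.single (cnV Z k V') (1 : 𝕜) ∈ _
  rw [← eh_single]
  obtain ⟨x, hx, y, hy, hxy⟩ := Submodule.mem_sup.1 (hα V')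
  rw [← hxy, map_add]
  refine Submodule.add_mem _ (Submodule.mem_sup_left (eh_rel 𝕜 hup hx)) ?_
  obtain ⟨c, rfl⟩ := Submodule.mem_span_singleton.1 hy
  rw [map_smul]
  exact Submodule.smul_mem _ _ (Submodule.mem_sup_right (Submodule.mem_span_singleton_self _))

end

end Pool.Agent.Bloch.Pen
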