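import Pool.Agent.H78.Pen.Cone2

/-! Cones with several additional variables. -/

set_option linter.unusedSectionVars false

open MvPolynomial

namespace Pool.Agent.Bloch.Pen

section
variable {K : Type} [Field K] (𝕜 : Type) [Field 𝕜] [CharZero 𝕜]

/-- The group of cycles has dimension at most one. -/
def RO {σ : Type} [Fintype σ] (Z : Set (PrimeSpectrum (MvPolynomial σ K))) (k : ℕ) : Prop :=
  ∃ α : VH Z k →₀ 𝕜, ∀ V, Finsupp.single V 1 ∈ RelH 𝕜 Z k ⊔ Submodule.span 𝕜 {α}

/-- transport along a graded isomorphism of rings of polynomials -/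
theorem ro_iso {σ τ : Type} [Fintype σ] [Fintype τ] {Φ : MvPolynomial σ K →ₐ[K] MvPolynomial τ K}
    (hs : Function.Surjective Φ) (hi : Function.Injective Φ) (hgr : Gr Φ)
    {Z : Set (PrimeSpectrum (MvPolynomial σ K))}
    (hup : ∀ p ∈ Z, ∀ q, p ≤ q → q ∈ Z) (k : ℕ)
    (h : RO 𝕜 {Q | ctr K Φ Q ∈ Z} k) : RO 𝕜 Z k := by
  have hF : Frac K Φ (⊥ : Submonoid (MvPolynomial σ K)) := frac_of_surj hs
  set Z' := {Q : PrimeSpectrum (MvPolynomial τ K) | ctr K Φ Q ∈ Z} with hZ'
  obtain ⟨α, hα⟩ := h
  refine ⟨pushH 𝕜 Φ ⊥ Z' k Z k α, fun V => ?_⟩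
  obtain ⟨Q, hQ, hQV⟩ := exists_uset hF V.1 (fun x hx => by
      rw [(map_eq_zero_iff Φ hi).1 hx]; exact Ideal.zero_mem _) (by
    intro u hu h
    rw [Submonoid.mem_bot] at hu
    rw [hu] at h
    exact V.1.2.ne_top ((Ideal.eq_top_iff_one _).2 h))
  have hQ1 : HomP Q := hgr.homP_of_ctr (by
    intro u hu
    rw [Submonoid.mem_bot] at hu
    exact ⟨0, by rw [hu]; exact isHomogeneous_one _ _⟩) hF hQ (by rw [hQV]; exact V.2.1)
  have hQ2 : Q ∈ Z' := by
    change ctr K Φ Q ∈ Z
    rw [hQV]; exact V.2.2.1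
  have hQ3 : dl K Q = k := by rw [← dl_uset hF hQ, hQV, V.2.2.2]
  let V' : VH Z' k := ⟨Q, hQ1, hQ2, hQ3⟩
  have h1 := pushH_single (𝕜 := 𝕜) (θ := Φ) (S := ⊥) V' V hQV.symm hQ 1
  rw [← h1]
  obtain ⟨x, hx, y, hy, hxy⟩ := Submodule.mem_sup.1 (hα V')
  rw [← hxy, map_add]
  refine Submodule.add_mem _ (Submodule.mem_sup_left ?_) ?_
  · refine push_rel 𝕜 hgr hF ?_ (fun Q hQ => hQ) _ le_rfl hx
    intro p hp q hpq
    exact hup _ hp _ (ctr_mono K Φ hpq)
  · obtain ⟨c, rfl⟩ := Submodule.mem_span_singleton.1 hy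
    rw [map_smul]
    exact Submodule.smul_mem _ _ (Submodule.mem_sup_right (Submodule.mem_span_singleton_self _))

theorem rename_gr {σ τ : Type} [Fintype σ] [Fintype τ] (g : τ → σ) :
    Gr (rename g : MvPolynomial τ K →ₐ[K] MvPolynomial σ K) := by
  intro f n hf
  exact hf.rename_isHomogeneous

/-- Cones with `e` more variables. -/
theorem ro_emb (e : ℕ) : ∀ {σ τ : Type} [Fintype σ] [Fintype τ] (g : τ → σ)
    (_ : Function.Injective g) (_ : Fintype.card σ = Fintype.card τ + e)
    {Z : Set (PrimeSpectrum (MvPolynomial τ K))} (_ : ∀ p ∈ Z, ∀ q, p ≤ q → q ∈ Z) {k : ℕ}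
    (_ : RO 𝕜 Z k), RO 𝕜 {Q : PrimeSpectrum (MvPolynomial σ K) |
      ctr K (rename g : MvPolynomial τ K →ₐ[K] MvPolynomial σ K) Q ∈ Z} (k + e) := by
  induction e with
  | zero =>
    intro σ τ _ _ g hg hc Z hup k h
    have hbij : Function.Bijective g :=
      (Fintype.bijective_iff_injective_and_card g).2 ⟨hg, by omega⟩
    let eq := Equiv.ofBijective g hbij
    let Φ : MvPolynomial σ K →ₐ[K] MvPolynomial τ K := rename eq.symm
    have hΦ1 : ∀ f, Φ (rename g f) = f := by
      intro f
      rw [rename_rename]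
      have : (⇑eq.symm ∘ g) = id := by
        funext s
        exact eq.symm_apply_apply s
      rw [this, rename_id_apply]
    have hΦ2 : ∀ f, rename g (Φ f) = f := by
      intro f
      rw [rename_rename]
      have : (g ∘ ⇑eq.symm) = id := by
        funext s
        exact eq.apply_symm_apply s
      rw [this, rename_id_apply]
    refine ro_iso 𝕜 (Φ := Φ) (fun f => ⟨rename g f, hΦ1 f⟩)
      (Function.LeftInverse.injective hΦ2) (rename_gr _) ?_ k ?_
    · intro p hp q hpq
      exact hup _ hp _ (ctr_mono K _ hpq)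
    · have hset : {Q : PrimeSpectrum (MvPolynomial τ K) | ctr K Φ Q ∈
          {Q : PrimeSpectrum (MvPolynomial σ K) |
            ctr K (rename g : MvPolynomial τ K →ₐ[K] MvPolynomial σ K) Q ∈ Z}} = Z := by
        ext Q
        change ctr K (rename g : MvPolynomial τ K →ₐ[K] MvPolynomial σ K) (ctr K Φ Q) ∈ Z ↔ _
        have : ctr K (rename g : MvPolynomial τ K →ₐ[K] MvPolynomial σ K) (ctr K Φ Q) = Q := by
          apply PrimeSpectrum.ext
          ext f
          rw [mem_ctr, mem_ctr, hΦ1]
        rw [this]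
      rw [hset]
      exact h
  | succ e ih =>
    intro σ τ _ _ g hg hc Z hup k h
    classical
    obtain ⟨y, hy⟩ : ∃ y, y ∉ Set.range g := by
      by_contra hcon
      push Not at hcon
      have h1 : Function.Surjective g := hcon
      have := Fintype.card_le_of_surjective g h1
      omega
    let g' : Option τ → σ := fun o => o.elim y g
    have hg' : Function.Injective g' := by
      intro a b hab
      cases a with
      | none =>
        cases b with
        | none => rfl
        | some b => exact absurd ⟨b, hab.symm⟩ hy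
      | some a =>
        cases b with
        | none => exact absurd ⟨a, hab⟩ hy
        | some b => exact congrArg some (hg hab)
    have h1 := ih g' hg' (by rw [Fintype.card_option]; omega) (Z := Zc Z) (by
      intro p hp q hpq
      exact hup _ hp _ (ctr_mono K _ hpq)) (one_cone 𝕜 hup h)
    have h2 : {Q : PrimeSpectrum (MvPolynomial σ K) |
        ctr K (rename g' : MvPolynomial (Option τ) K →ₐ[K] MvPolynomial σ K) Q ∈ Zc Z} =
        {Q : PrimeSpectrum (MvPolynomial σ K) |
          ctr K (rename g : MvPolynomial τ K →ₐ[K] MvPolynomial σ K) Q ∈ Z} := by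
      ext Q
      change ctr K (inc K τ) (ctr K (rename g' : MvPolynomial (Option τ) K →ₐ[K]
        MvPolynomial σ K) Q) ∈ Z ↔ _
      have : ctr K (inc K τ) (ctr K (rename g' : MvPolynomial (Option τ) K →ₐ[K]
          MvPolynomial σ K) Q) =
          ctr K (rename g : MvPolynomial τ K →ₐ[K] MvPolynomial σ K) Q := by
        apply PrimeSpectrum.ext
        ext f
        rw [mem_ctr, mem_ctr, mem_ctr, rename_rename]
        rfl
      rw [this]
      rfl
    rw [h2] at h1
    have h3 : k + (e + 1) = k + 1 + e := by ring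
    rw [h3]
    exact h1

theorem vars_unique {σ : Type} [Fintype σ] {p q : PrimeSpectrum (MvPolynomial σ K)}
    (hp : ∀ s, X s ∈ p.asIdeal) (hq : ∀ s, X s ∈ q.asIdeal) : p ≤ q := by
  have key : ∀ (p : PrimeSpectrum (MvPolynomial σ K)), (∀ s, X s ∈ p.asIdeal) →
      ∀ f : MvPolynomial σ K, f - C (constantCoeff f) ∈ p.asIdeal := by
    intro p hp f
    induction f using MvPolynomial.induction_on with
    | C a => rw [constantCoeff_C, sub_self]; exact Ideal.zero_mem _
    | add f g hf hg =>
      rw [map_add, C_add]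
      have : f + g - (C (constantCoeff f) + C (constantCoeff g)) =
        (f - C (constantCoeff f)) + (g - C (constantCoeff g)) := by ring
      rw [this]
      exact Ideal.add_mem _ hf hg
    | mul_X f s _ =>
      rw [map_mul, constantCoeff_X, mul_zero, C_0, sub_zero]
      exact Ideal.mul_mem_left _ _ (hp s)
  intro f hf
  have h1 := key p hp f
  have h2 := key q hq f
  have h3 : C (constantCoeff f) ∈ p.asIdeal := by
    have : C (constantCoeff f) = f - (f - C (constantCoeff f)) := by ring
    rw [this]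
    exact Ideal.sub_mem _ hf h1
  have h4 : constantCoeff f = 0 := by
    by_contra h
    exact p.2.ne_top (Ideal.eq_top_of_isUnit_mem _ h3 ((IsUnit.mk0 _ h).map C))
  rw [h4, C_0, sub_zero] at h2
  exact h2

/-- The case of the vertex. -/
theorem ro_zero {σ : Type} [Fintype σ] (Z : Set (PrimeSpectrum (MvPolynomial σ K))) :
    RO 𝕜 Z 0 := by
  by_cases h : Nonempty (VH Z 0)
  · obtain ⟨V₀⟩ := h
    refine ⟨Finsupp.single V₀ 1, fun V => ?_⟩
    have hX : ∀ V : VH Z 0, ∀ s, X s ∈ V.1.asIdeal := by
      intro V s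
      by_contra hs
      have := dl_pos V.1 V.2.1 hs
      have := V.2.2.2
      omega
    have : V = V₀ := by
      apply Subtype.ext
      exact le_antisymm (vars_unique (hX V) (hX V₀)) (vars_unique (hX V₀) (hX V))
    rw [this]
    exact Submodule.mem_sup_right (Submodule.mem_span_singleton_self _)
  · exact ⟨0, fun V => absurd ⟨V⟩ h⟩

end

end Pool.Agent.Bloch.Pen
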