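import Pool.Agent.H78.Pen.Sys

/-! Systems of forms with separated groups of variables. -/

set_option linter.unusedSectionVars false

open MvPolynomial

namespace Pool.Agent.Bloch.Pen

theorem one_empty_iff {σ : Type} [Fintype σ] (Z : Set (PrimeSpectrum (MvPolynomial σ ℂ)))
    (k : ℕ) : One (∅ : Set (σ → ℂ)) Z k ↔
      Module.rank ℚ ((VH Z k →₀ ℚ) ⧸ Submodule.span ℚ (pdiv Z k)) ≤ 1 := by
  unfold One
  have : pdK Z k ∪ odK (∅ : Set (σ → ℂ)) Z k = pdiv Z k := by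
    rw [pdK_eq]
    apply Set.union_eq_self_of_subset_right
    rintro z ⟨h, hh, _⟩
    exact absurd hh (Set.notMem_empty _)
  rw [this]

theorem zf_unit {σ : Type} (F : MvPolynomial σ ℂ) :
    (ZF fun _ : Unit => F) = {Q : PrimeSpectrum (MvPolynomial σ ℂ) | Ideal.span {F} ≤ Q.asIdeal} := by
  ext Q
  change (∀ _ : Unit, F ∈ Q.asIdeal) ↔ Ideal.span {F} ≤ Q.asIdeal
  rw [Ideal.span_singleton_le_iff_mem]
  exact ⟨fun h => h (), fun h _ => h⟩

theorem zf_range {σ ι : Type} (F : ι → MvPolynomial σ ℂ) :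
    ZF F = {Q : PrimeSpectrum (MvPolynomial σ ℂ) | Ideal.span (Set.range F) ≤ Q.asIdeal} := by
  ext Q
  change (∀ e, F e ∈ Q.asIdeal) ↔ Ideal.span (Set.range F) ≤ Q.asIdeal
  rw [Ideal.span_le]
  constructor
  · rintro h _ ⟨e, rfl⟩; exact h e
  · intro h e; exact h ⟨e, rfl⟩

theorem sep_systems (hS : Systems) {σ : Type} [Fintype σ] {c r i d : ℕ} (hd : 2 ≤ d) (hr : 0 < r)
    (hri : r + i ≤ c)
    (F : Fin r → MvPolynomial σ ℂ) (hF : ∀ e, (F e).IsHomogeneous d) (V : Fin c → Finset σ)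
    (hV : ∀ l l', l ≠ l' → Disjoint (V l) (V l')) (hV2 : ∀ l, 2 ≤ (V l).card)
    (hsep : ∀ e, ∀ μ ∈ (F e).support, ∀ l l', l ≠ l' → ∀ s ∈ V l, ∀ s' ∈ V l', μ s = 0 ∨ μ s' = 0)
    (hdeg : ∀ e, ∀ μ ∈ (F e).support, ∀ l, ∑ s ∈ V l, μ s ≤ (V l).card)
    (hcard : c * d < Fintype.card σ) :
    Module.rank ℚ ((VH {Q : PrimeSpectrum (MvPolynomial σ ℂ) |
      Ideal.span (Set.range F) ≤ Q.asIdeal} (i + 1) →₀ ℚ) ⧸
      Submodule.span ℚ (pdiv {Q : PrimeSpectrum (MvPolynomial σ ℂ) |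
        Ideal.span (Set.range F) ≤ Q.asIdeal} (i + 1))) ≤ 1 := by
  rw [← zf_range, ← one_empty_iff]
  refine hS σ d {μ | μ.degree = d ∧ (∀ l l', l ≠ l' → ∀ s ∈ V l, ∀ s' ∈ V l', μ s = 0 ∨ μ s' = 0) ∧
    ∀ l, ∑ s ∈ V l, μ s ≤ (V l).card} ∅ r i (fun m hm => hm.1) Set.finite_empty
    (fun h hh => absurd hh (Set.notMem_empty _)) (fun φ => Set.image_empty _)
    (fun h hh => absurd hh (Set.notMem_empty _)) hr ?_ F ?_
  · intro j hj1 hj2 G hG
    rw [zf_unit, one_empty_iff]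
    refine Sep.sep_main hd (by omega : j < c) G ?_ V hV hV2 (fun μ hμ => (hG μ hμ).2.1)
      (fun μ hμ => (hG μ hμ).2.2) hcard
    intro μ hμ
    have := (hG μ (mem_support_iff.2 hμ)).1
    rwa [Finsupp.degree_eq_weight_one] at this
  · intro e μ hμ
    refine ⟨?_, hsep e μ hμ, hdeg e μ hμ⟩
    have := hF e (mem_support_iff.1 hμ)
    rwa [Finsupp.degree_eq_weight_one]

end Pool.Agent.Bloch.Pen
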