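import Pool.Agent.H78.Pen.Cone3
import Pool.Agent.H78.Pen.SepSys

/-! Comparison of the two forms of the condition. -/

set_option linter.unusedSectionVars false

open MvPolynomial

namespace Pool.Agent.Bloch.Pen

theorem relH_pd {K : Type} [Field K] {σ : Type} [Fintype σ]
    (Z : Set (PrimeSpectrum (MvPolynomial σ K))) (k : ℕ) :
    RelH ℚ Z k = Submodule.span ℚ (pdK Z k) := by
  unfold RelH
  congr 1
  ext z
  constructor
  · rintro ⟨W, n, f, g, hf, hg, hfW, hgW, rfl⟩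
    refine ⟨W, n, f, g, hf, hg, hfW, hgW, fun V => ?_⟩
    rw [res_apply, Finsupp.sub_apply, divCyc_apply K ℚ W.2.2.2 hfW V.1 V.2.2.2,
      divCyc_apply K ℚ W.2.2.2 hgW V.1 V.2.2.2]
  · rintro ⟨W, n, f, g, hf, hg, hfW, hgW, hz⟩
    refine ⟨W, n, f, g, hf, hg, hfW, hgW, ?_⟩
    ext V
    rw [hz V, res_apply, Finsupp.sub_apply, divCyc_apply K ℚ W.2.2.2 hfW V.1 V.2.2.2,
      divCyc_apply K ℚ W.2.2.2 hgW V.1 V.2.2.2]

theorem rank_one_iff {ι : Type} (N : Submodule ℚ (ι →₀ ℚ)) :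
    Module.rank ℚ ((ι →₀ ℚ) ⧸ N) ≤ 1 ↔
      ∃ α : ι →₀ ℚ, ∀ V, Finsupp.single V 1 ∈ N ⊔ Submodule.span ℚ {α} := by
  rw [rank_le_one_iff]
  constructor
  · rintro ⟨v₀, h⟩
    obtain ⟨α, rfl⟩ := Submodule.Quotient.mk_surjective _ v₀
    refine ⟨α, fun V => ?_⟩
    obtain ⟨r, hr⟩ := h (Submodule.Quotient.mk (Finsupp.single V 1))
    rw [← Submodule.Quotient.mk_smul, eq_comm, ← sub_eq_zero, ← Submodule.Quotient.mk_sub,
      Submodule.Quotient.mk_eq_zero] at hr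
    have h1 : Finsupp.single V (1 : ℚ) = (Finsupp.single V 1 - r • α) + r • α := by abel
    rw [h1]
    exact Submodule.add_mem _ (Submodule.mem_sup_left hr) (Submodule.mem_sup_right
      (Submodule.smul_mem _ _ (Submodule.mem_span_singleton_self α)))
  · rintro ⟨α, h⟩
    refine ⟨Submodule.Quotient.mk α, fun v => ?_⟩
    obtain ⟨z, rfl⟩ := Submodule.Quotient.mk_surjective _ v
    have h1 : z ∈ N ⊔ Submodule.span ℚ {α} := by
      rw [← Finsupp.sum_single z]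
      apply Submodule.sum_mem
      intro V _
      change Finsupp.single V (z V) ∈ _
      rw [← mul_one (z V), ← smul_eq_mul, ← Finsupp.smul_single]
      exact Submodule.smul_mem _ _ (h V)
    obtain ⟨x, hx, y, hy, hxy⟩ := Submodule.mem_sup.1 h1
    obtain ⟨r, rfl⟩ := Submodule.mem_span_singleton.1 hy
    refine ⟨r, ?_⟩
    rw [← Submodule.Quotient.mk_smul, eq_comm, ← sub_eq_zero, ← Submodule.Quotient.mk_sub,
      Submodule.Quotient.mk_eq_zero, ← hxy, add_sub_cancel_right]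
    exact hx

theorem ro_iff {K : Type} [Field K] {σ : Type} [Fintype σ]
    (Z : Set (PrimeSpectrum (MvPolynomial σ K))) (k : ℕ) :
    RO ℚ Z k ↔ One (∅ : Set (σ → K)) Z k := by
  unfold One RO
  have : pdK Z k ∪ odK (∅ : Set (σ → K)) Z k = pdK Z k := by
    apply Set.union_eq_self_of_subset_right
    rintro z ⟨h, hh, _⟩
    exact absurd hh (Set.notMem_empty _)
  rw [this, rank_one_iff, relH_pd]

theorem ro_iff_pdiv {σ : Type} [Fintype σ]
    (Z : Set (PrimeSpectrum (MvPolynomial σ ℂ))) (k : ℕ) :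
    RO ℚ Z k ↔ Module.rank ℚ ((VH Z k →₀ ℚ) ⧸ Submodule.span ℚ (pdiv Z k)) ≤ 1 := by
  rw [ro_iff, one_empty_iff]

end Pool.Agent.Bloch.Pen
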