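import Pool.Agent.PEN.NvH
import Pool.Agent.H78.Pen.RankOne

/-! Existence of subvarieties of given dimension of a system of forms. -/

set_option linter.unusedSectionVars false

open MvPolynomial

namespace Pool.Agent.Bloch.Pen

open Pool.Agent.Bloch.PEN

variable {K : Type} [Field K] {σ : Type} [Fintype σ]

/-- a component of the intersection with a hypersurface -/
theorem exists_drop {W : PrimeSpectrum (MvPolynomial σ K)} (hW : HomP W) {k m : ℕ}
    (hd : dl K W = k + 2) {f : MvPolynomial σ K} (hf : f.IsHomogeneous m) (hm : 0 < m)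
    (hfW : f ∉ W.asIdeal) :
    ∃ T : PrimeSpectrum (MvPolynomial σ K), HomP T ∧ W ≤ T ∧ f ∈ T.asIdeal ∧ dl K T = k + 1 := by
  have h1 := dg_div ℚ hW hd hf hfW
  have h2 : (0 : ℤ) < dg (k + 1) W.asIdeal := dg_pos hW hd
  have h3 : divCyc K ℚ (k + 1) W f ≠ 0 := by
    intro h
    rw [h, map_zero] at h1
    have h4 : (m : ℚ) ≠ 0 := Nat.cast_ne_zero.2 hm.ne'
    have h5 : ((dg (k + 1) W.asIdeal : ℤ) : ℚ) ≠ 0 := Int.cast_ne_zero.2 h2.ne'
    exact mul_ne_zero h4 h5 h1.symm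
  obtain ⟨T, hT⟩ := Finsupp.ne_iff.1 h3
  rw [Finsupp.zero_apply, divCyc_ne_zero_iff K ℚ hd hfW] at hT
  exact ⟨T, homP_of_div hW hd hf hfW hT.2.1 hT.2.2 hT.1, hT.2.1, hT.2.2, hT.1⟩

theorem dl_bot : dl K (⟨⊥, Ideal.isPrime_bot⟩ : PrimeSpectrum (MvPolynomial σ K)) =
    Fintype.card σ := by
  unfold dl
  rw [td_congr K (AlgEquiv.quotientBot K (MvPolynomial σ K))]
  unfold td
  rw [MvPolynomial.trdeg_of_isDomain]
  simp

theorem exists_exact (n : ℕ) : ∀ (W : PrimeSpectrum (MvPolynomial σ K)) (_ : HomP W) (m : ℕ)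
    (_ : 0 < m) (_ : dl K W = m + n), ∃ T : PrimeSpectrum (MvPolynomial σ K),
      HomP T ∧ W ≤ T ∧ dl K T = m := by
  induction n with
  | zero => intro W hW m _ hd; exact ⟨W, hW, le_rfl, hd⟩
  | succ n ih =>
    intro W hW m hm hd
    obtain ⟨k, hk⟩ : ∃ k, m + n = k + 1 := ⟨m + n - 1, by omega⟩
    obtain ⟨s, hs⟩ := exists_X (k := k + 1) W (by omega)
    obtain ⟨T, hT1, hT2, _, hT4⟩ := exists_drop hW (show dl K W = k + 2 by omega)
      (isHomogeneous_X K s) one_pos hs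
    obtain ⟨T', h1, h2, h3⟩ := ih T hT1 m hm (by omega)
    exact ⟨T', h1, hT2.trans h2, h3⟩

theorem exists_big (r : ℕ) : ∀ (F : Fin r → MvPolynomial σ K) (d : Fin r → ℕ)
    (_ : ∀ e, (F e).IsHomogeneous (d e)) (_ : ∀ e, 0 < d e) (_ : r + 1 ≤ Fintype.card σ),
    ∃ W : PrimeSpectrum (MvPolynomial σ K), HomP W ∧ (∀ e, F e ∈ W.asIdeal) ∧
      Fintype.card σ ≤ dl K W + r := by
  induction r with
  | zero =>
    intro F d _ _ _
    refine ⟨⟨⊥, Ideal.isPrime_bot⟩, ?_, fun e => e.elim0, by rw [dl_bot]; omega⟩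
    intro f hf n
    have : f = 0 := hf
    rw [this, map_zero]
    exact Ideal.zero_mem _
  | succ r ih =>
    intro F d hF hd hr
    obtain ⟨W, hW1, hW2, hW3⟩ := ih (fun e => F e.castSucc) (fun e => d e.castSucc)
      (fun e => hF _) (fun e => hd _) (by omega)
    by_cases h : F (Fin.last r) ∈ W.asIdeal
    · refine ⟨W, hW1, fun e => ?_, by omega⟩
      refine Fin.lastCases h (fun e => hW2 e) e
    · obtain ⟨k, hk⟩ : ∃ k, dl K W = k + 2 := ⟨dl K W - 2, by omega⟩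
      obtain ⟨T, hT1, hT2, hT3, hT4⟩ := exists_drop hW1 hk (hF (Fin.last r)) (hd _) h
      refine ⟨T, hT1, fun e => ?_, by omega⟩
      refine Fin.lastCases hT3 (fun e => hT2 (hW2 e)) e

/-- Systems of forms have subvarieties of all small dimensions. -/
theorem exists_VH {r : ℕ} (F : Fin r → MvPolynomial σ K) (d : Fin r → ℕ)
    (hF : ∀ e, (F e).IsHomogeneous (d e)) (hd : ∀ e, 0 < d e) {m : ℕ} (hm : 0 < m)
    (hr : r + m ≤ Fintype.card σ) : Nonempty (VH (ZF F) m) := by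
  obtain ⟨W, hW1, hW2, hW3⟩ := exists_big r F d hF hd (by omega)
  obtain ⟨T, hT1, hT2, hT3⟩ := exists_exact (dl K W - m) W hW1 m hm (by omega)
  exact ⟨⟨T, hT1, fun e => hT2 (hW2 e), hT3⟩⟩

end Pool.Agent.Bloch.Pen
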