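import Pool.Agent.PEN.AvB
import Pool.Agent.H78.Pen.RankOne

/-! Systems of forms: the final form of the statement. -/

set_option linter.unusedSectionVars false

open MvPolynomial

namespace Pool.Agent.Bloch.Pen

open Pool.Agent.Bloch.PEN

/-- Systems of `r` forms with monomials in `M`, and a finite group of scalings. -/
def SystemsG : Prop :=
  ∀ (σ : Type) [Fintype σ] (d : ℕ) (M : Set (σ →₀ ℕ)) (Gf : Finset (σ → ℂ)) (r i : ℕ),
    (∀ m ∈ M, m.degree = d) → 0 < d → Grp Gf →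
    (∀ φ : ℂ →+* ℂ, ∀ c ∈ Gf, (fun s => φ (c s)) ∈ Gf) →
    (∀ c ∈ Gf, ∀ m ∈ M, (m.prod fun s k => c s ^ k) = 1) → 0 < r →
    r + i + 2 ≤ Fintype.card σ →
    (∀ j, i ≤ j → j < i + r → ∀ F : MvPolynomial σ ℂ, (∀ m ∈ F.support, m ∈ M) →
      One (Gf : Set (σ → ℂ)) (ZF fun _ : Unit => F) (j + 1)) →
    ∀ F : Fin r → MvPolynomial σ ℂ, (∀ e, ∀ m ∈ (F e).support, m ∈ M) →
      One (Gf : Set (σ → ℂ)) (ZF F) (i + 1)

theorem NN_eq {K : Type} [Field K] {σ : Type} [Fintype σ]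
    (Z : Set (PrimeSpectrum (MvPolynomial σ K))) (k : ℕ) (H : Set (σ → K)) :
    NN ℚ Z k H = Submodule.span ℚ (pdK Z k ∪ odK H Z k) := by
  rw [Submodule.span_union, ← relH_pd]
  rfl

theorem one_iff_NN {K : Type} [Field K] {σ : Type} [Fintype σ]
    (Z : Set (PrimeSpectrum (MvPolynomial σ K))) (k : ℕ) (H : Set (σ → K)) :
    One H Z k ↔ Module.rank ℚ ((VH Z k →₀ ℚ) ⧸ NN ℚ Z k H) ≤ 1 := by
  unfold One
  rw [NN_eq]

/-- the trivial group -/
theorem grp_one {σ : Type} [Fintype σ] : Grp ({fun _ => 1} : Finset (σ → ℂ)) where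
  one := Finset.mem_singleton_self _
  mul := by
    intro c hc c' hc'
    rw [Finset.mem_singleton] at hc hc' ⊢
    subst hc hc'
    funext s
    exact mul_one 1
  nz := by
    intro c hc s
    rw [Finset.mem_singleton] at hc
    subst hc
    exact one_ne_zero

theorem one_triv_iff {σ : Type} [Fintype σ] (Z : Set (PrimeSpectrum (MvPolynomial σ ℂ)))
    (k : ℕ) : One (({fun _ => 1} : Finset (σ → ℂ)) : Set (σ → ℂ)) Z k ↔
      Module.rank ℚ ((VH Z k →₀ ℚ) ⧸ Submodule.span ℚ (pdiv Z k)) ≤ 1 := by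
  unfold One
  have : Submodule.span ℚ (pdK Z k ∪ odK (({fun _ => 1} : Finset (σ → ℂ)) : Set (σ → ℂ)) Z k) =
      Submodule.span ℚ (pdiv Z k) := by
    rw [pdK_eq, Submodule.span_union, sup_eq_left, Submodule.span_le]
    rintro z ⟨h, hh, V, V', hV, rfl⟩
    rw [Finset.mem_coe, Finset.mem_singleton] at hh
    subst hh
    have h1 : V' = V := by
      apply Subtype.ext
      rw [hV]
      apply PrimeSpectrum.ext
      ext f
      rw [mem_ctr, scl_one]
    rw [h1, sub_self]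
    exact Submodule.zero_mem _
  rw [this]

end Pool.Agent.Bloch.Pen
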