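import Pool.Agent.Bloch.Pen.DescC
import Pool.Agent.PEN.NvH
import Pool.Agent.PEN.PpA
import Pool.Agent.Pcl.ExtB
import Pool.Agent.H78.Pen.Sys2
import Pool.Agent.H78.Pen.Exist

/-! Induction on the number of the equations. -/

set_option linter.unusedSectionVars false

open MvPolynomial

namespace Pool.Agent.Bloch.Pen

open Pool.Agent.Bloch.PEN Pool.Agent.Bloch.Pcl

attribute [local instance] MvPolynomial.algebraMvPolynomial

/-- the pencil lemma -/
def PencilStmt : Prop :=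
  ∀ {σ : Type} [Fintype σ] (E : Set (MvPolynomial σ ℂ)) (_ : ∀ f ∈ E, ∃ m, f.IsHomogeneous m)
    {F G : MvPolynomial σ ℂ} {d : ℕ} (_ : F.IsHomogeneous d) (_ : G.IsHomogeneous d)
    {Gf : Finset (σ → ℂ)} (_ : Grp Gf) (_ : ∀ c ∈ Gf, ∀ f ∈ E, scl ℂ c f = f)
    (_ : ∀ c ∈ Gf, scl ℂ c F = F) (_ : ∀ c ∈ Gf, scl ℂ c G = G) {k : ℕ}
    (_ : VH (Zs (insert F (insert G E))) (k + 2))
    (_ : PP ℚ (Zs (insert (bc F + C (Pcl.mu ℂ) * bc G) (bc '' E))) (k + 1)
      {c' | ∃ c ∈ (Gf : Set (σ → ℂ)), c' = fun s => algebraMap ℂ (Fn ℂ) (c s)})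
    (_ : ∀ l : ℂ, PP ℚ (Zs (insert (F + C l * G) E)) (k + 2) (Gf : Set (σ → ℂ)))
    (_ : PP ℚ (Zs (insert G E)) (k + 2) (Gf : Set (σ → ℂ))),
    PP ℚ (Zs (insert F (insert G E))) (k + 1) (Gf : Set (σ → ℂ))

theorem pp_of_one {σ : Type} [Fintype σ] {Z : Set (PrimeSpectrum (MvPolynomial σ ℂ))}
    (hup : ∀ p ∈ Z, ∀ q, p ≤ q → q ∈ Z) {k : ℕ} {Gf : Finset (σ → ℂ)} (hG : Grp Gf)
    (h : One (Gf : Set (σ → ℂ)) Z (k + 1)) : PP ℚ Z (k + 1) (Gf : Set (σ → ℂ)) := by
  obtain ⟨deg, h1, h2⟩ := exists_deg ℚ hup k (Gf : Set (σ → ℂ)) (fun c hc => hG.nz c hc)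
  refine pp_of_rank ℚ deg ?_ (fun z hz => h2 hz) ((one_iff_NN Z (k + 1) _).1 h)
  intro V
  obtain ⟨n, hn, h3⟩ := h1 V
  rw [h3]
  exact Nat.cast_ne_zero.2 hn.ne'

theorem one_of_pp {σ : Type} [Fintype σ] {Z : Set (PrimeSpectrum (MvPolynomial σ ℂ))}
    {k : ℕ} {H : Set (σ → ℂ)} (h : PP ℚ Z k H) : One H Z k :=
  (one_iff_NN Z k H).2 (rank_of_pp ℚ h)

theorem zf_snoc {K σ : Type} [Field K] {r : ℕ} (f : Fin r → MvPolynomial σ K)
    (g : MvPolynomial σ K) :
    ZF (Fin.snoc f g : Fin (r + 1) → MvPolynomial σ K) =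
      {Q : PrimeSpectrum (MvPolynomial σ K) | (∀ e, f e ∈ Q.asIdeal) ∧ g ∈ Q.asIdeal} := by
  ext Q
  change (∀ e : Fin (r + 1), (Fin.snoc f g : Fin (r + 1) → MvPolynomial σ K) e ∈ Q.asIdeal) ↔ _
  constructor
  · intro h
    refine ⟨fun e => ?_, ?_⟩
    · have := h e.castSucc
      rwa [Fin.snoc_castSucc] at this
    · have := h (Fin.last r)
      rwa [Fin.snoc_last] at this
  · rintro ⟨h1, h2⟩ e
    refine Fin.lastCases ?_ (fun e => ?_) e
    · rw [Fin.snoc_last]; exact h2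
    · rw [Fin.snoc_castSucc]; exact h1 e

theorem zs_insert_range {K σ : Type} [Field K] [Finite σ] {r : ℕ} (f : Fin r → MvPolynomial σ K)
    (g : MvPolynomial σ K) :
    Zs (insert g (Set.range f)) = ZF (Fin.snoc f g : Fin (r + 1) → MvPolynomial σ K) := by
  rw [zf_snoc]
  ext Q
  change (∀ x ∈ insert g (Set.range f), x ∈ Q.asIdeal) ↔ _
  constructor
  · intro h
    exact ⟨fun e => h _ (Set.mem_insert_of_mem _ ⟨e, rfl⟩), h _ (Set.mem_insert _ _)⟩
  · rintro ⟨h1, h2⟩ x (rfl | ⟨e, rfl⟩)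
    · exact h2
    · exact h1 e

theorem snoc_supp {σ : Type} {M : Set (σ →₀ ℕ)} {r : ℕ} {f : Fin r → MvPolynomial σ ℂ}
    {g : MvPolynomial σ ℂ} (hf : ∀ e, ∀ m ∈ (f e).support, m ∈ M) (hg : ∀ m ∈ g.support, m ∈ M) :
    ∀ e, ∀ m ∈ ((Fin.snoc f g : Fin (r + 1) → MvPolynomial σ ℂ) e).support, m ∈ M := by
  intro e
  refine Fin.lastCases ?_ (fun e => ?_) e
  · rw [Fin.snoc_last]; exact hg
  · rw [Fin.snoc_castSucc]; exact hf e

theorem supp_comb {σ : Type} {M : Set (σ →₀ ℕ)} {f g : MvPolynomial σ ℂ}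
    (hf : ∀ m ∈ f.support, m ∈ M) (hg : ∀ m ∈ g.support, m ∈ M) (l : ℂ) :
    ∀ m ∈ (f + C l * g).support, m ∈ M := by
  classical
  intro m hm
  rw [mem_support_iff, coeff_add, coeff_C_mul] at hm
  by_cases h : coeff m f = 0
  · apply hg
    rw [mem_support_iff]
    intro h'
    rw [h, h', mul_zero, add_zero] at hm
    exact hm rfl
  · exact hf m (mem_support_iff.2 h)

theorem supp_map {σ : Type} {M : Set (σ →₀ ℕ)} {f : MvPolynomial σ ℂ}
    (hf : ∀ m ∈ f.support, m ∈ M) (φ : ℂ →+* ℂ) : ∀ m ∈ (map φ f).support, m ∈ M := by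
  intro m hm
  apply hf
  exact support_map_subset _ _ hm

theorem systems_of_pencil (hP : PencilStmt) : SystemsG := by
  classical
  intro σ _ d M Gf r i hM hd hG hst hact hr hN hbase F hF
  obtain ⟨i₀, hi₀⟩ := exists_alg_hom (Fn ℂ) mk_ratFunc
  let _ : Algebra (Fn ℂ) ℂ := i₀.toAlgebra
  have : Algebra.IsAlgebraic (Fn ℂ) ℂ := by
    have : Algebra.IsIntegral (Fn ℂ) ℂ := ⟨hi₀⟩
    infer_instance
  have hhom : ∀ f : MvPolynomial σ ℂ, (∀ m ∈ f.support, m ∈ M) → f.IsHomogeneous d := by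
    intro f hf m hm
    have := hM m (hf m (mem_support_iff.2 hm))
    rwa [Finsupp.degree_eq_weight_one] at this
  have hscl : ∀ c ∈ Gf, ∀ f : MvPolynomial σ ℂ, (∀ m ∈ f.support, m ∈ M) → scl ℂ c f = f := by
    intro c hc f hf
    ext m
    rw [scl_coeff]
    by_cases h : m ∈ f.support
    · rw [hact c hc m (hf m h), map_one, one_mul]
    · rw [notMem_support_iff.1 h, mul_zero]
  let φ : ℂ →+* ℂ := i₀.comp (algebraMap ℂ (Fn ℂ))
  have hset : {c : σ → ℂ | ∃ c₀ ∈ {c' : σ → Fn ℂ | ∃ c ∈ (Gf : Set (σ → ℂ)),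
      c' = fun s => algebraMap ℂ (Fn ℂ) (c s)}, c = fun s => algebraMap (Fn ℂ) ℂ (c₀ s)} =
      (Gf : Set (σ → ℂ)) := by
    have h1 : {c : σ → ℂ | ∃ c₀ ∈ {c' : σ → Fn ℂ | ∃ c ∈ (Gf : Set (σ → ℂ)),
      c' = fun s => algebraMap ℂ (Fn ℂ) (c s)}, c = fun s => algebraMap (Fn ℂ) ℂ (c₀ s)} =
      (fun c : σ → ℂ => fun s => φ (c s)) '' (Gf : Set (σ → ℂ)) := by
      ext c
      constructor
      · rintro ⟨_, ⟨c₁, hc₁, rfl⟩, rfl⟩
        exact ⟨c₁, hc₁, rfl⟩
      · rintro ⟨c₁, hc₁, rfl⟩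
        exact ⟨_, ⟨c₁, hc₁, rfl⟩, rfl⟩
    rw [h1]
    have hinj : Function.Injective (fun c : σ → ℂ => fun s => φ (c s)) := by
      intro h h' hh
      funext s
      exact φ.injective (congrFun hh s)
    refine Set.eq_of_subset_of_ncard_le ?_ (by rw [Set.ncard_image_of_injective _ hinj])
      (Finset.finite_toSet Gf)
    rintro _ ⟨c, hc, rfl⟩
    exact hst φ c hc
  have key : ∀ r' i', i ≤ i' → i' + (r' + 1) ≤ i + r → ∀ F : Fin (r' + 1) → MvPolynomial σ ℂ,
      (∀ e, ∀ m ∈ (F e).support, m ∈ M) → PP ℚ (ZF F) (i' + 1) (Gf : Set (σ → ℂ)) := by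
    intro r'
    induction r' with
    | zero =>
      intro i' hi1 hi2 F hF
      have h1 : ZF F = ZF fun _ : Unit => F 0 := by
        ext Q
        change (∀ e, F e ∈ Q.asIdeal) ↔ (∀ _ : Unit, F 0 ∈ Q.asIdeal)
        constructor
        · intro h _; exact h 0
        · intro h e
          rw [Fin.fin_one_eq_zero e]
          exact h ()
      rw [h1]
      exact pp_of_one (Z := ZF fun _ : Unit => F 0) (fun _ hp _ hpq e => hpq (hp e)) hG
        (hbase i' hi1 (by omega) (F 0) (hF 0))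
    | succ r' ih =>
      intro i' hi1 hi2 F hF
      set f : Fin r' → MvPolynomial σ ℂ := fun e => F e.castSucc.castSucc with hf
      set A := F (Fin.last r').castSucc with hA
      set B := F (Fin.last (r' + 1)) with hB
      have hfM : ∀ e, ∀ m ∈ (f e).support, m ∈ M := fun e => hF _
      have hAM : ∀ m ∈ A.support, m ∈ M := hF _
      have hBM : ∀ m ∈ B.support, m ∈ M := hF _
      have hZ : ZF F = Zs (insert A (insert B (Set.range f))) := by
        ext Q
        change (∀ e, F e ∈ Q.asIdeal) ↔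
          (∀ x ∈ insert A (insert B (Set.range f)), x ∈ Q.asIdeal)
        constructor
        · rintro h x (rfl | rfl | ⟨e, rfl⟩)
          · exact h _
          · exact h _
          · exact h _
        · intro h e
          refine Fin.lastCases ?_ (fun e => ?_) e
          · exact h _ (Set.mem_insert_of_mem _ (Set.mem_insert _ _))
          · refine Fin.lastCases ?_ (fun e => ?_) e
            · exact h _ (Set.mem_insert _ _)
            · exact h _ (Set.mem_insert_of_mem _ (Set.mem_insert_of_mem _ ⟨e, rfl⟩))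
      obtain ⟨w0⟩ : Nonempty (VH (ZF F) (i' + 2)) := by
        refine exists_VH F (fun _ => d) (fun e => hhom _ (hF e)) (fun _ => hd) (by omega) ?_
        omega
      rw [hZ] at w0 ⊢
      refine hP (Set.range f) ?_ (hhom A hAM) (hhom B hBM) hG ?_ (fun c hc => hscl c hc A hAM)
        (fun c hc => hscl c hc B hBM) w0 ?_ ?_ ?_
      · rintro _ ⟨e, rfl⟩
        exact ⟨d, hhom _ (hfM e)⟩
      · rintro c hc _ ⟨e, rfl⟩
        exact hscl c hc _ (hfM e)
      · refine desc_alg (Ω := ℂ) ℚ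
          (Z' := {Q | cm (Fn ℂ) Q ∈ Zs (insert (bc A + C (Pcl.mu ℂ) * bc B) (bc '' Set.range f))})
          ?_ (fun Q => Iff.rfl) _ ?_ ?_
        · intro p hp q hpq x hx
          exact hpq (hp x hx)
        · rintro _ ⟨c, hc, rfl⟩ s
          exact (map_ne_zero _).2 (hG.nz c hc s)
        · rw [hset]
          have h1 := ih i' hi1 (by omega) (Fin.snoc (fun e => map φ (f e))
            (map φ A + C (i₀ (Pcl.mu ℂ)) * map φ B) : Fin (r' + 1) → MvPolynomial σ ℂ)
            (snoc_supp (fun e => supp_map (hfM e) φ)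
              (supp_comb (supp_map hAM φ) (supp_map hBM φ) _))
          have h2 : {Q : PrimeSpectrum (MvPolynomial σ ℂ) | cm (Fn ℂ) Q ∈
              Zs (insert (bc A + C (Pcl.mu ℂ) * bc B) (bc '' Set.range f))} =
              ZF (Fin.snoc (fun e => map φ (f e))
            (map φ A + C (i₀ (Pcl.mu ℂ)) * map φ B) : Fin (r' + 1) → MvPolynomial σ ℂ) := by
            have hbc : ∀ g : MvPolynomial σ ℂ, map (algebraMap (Fn ℂ) ℂ) (bc g) = map φ g := by
              intro g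
              change map i₀ (map (algebraMap ℂ (Fn ℂ)) g) = _
              rw [map_map]
            rw [zf_snoc]
            ext Q
            change (∀ x ∈ insert (bc A + C (Pcl.mu ℂ) * bc B) (bc '' Set.range f),
              map (algebraMap (Fn ℂ) ℂ) x ∈ Q.asIdeal) ↔ _
            constructor
            · intro h
              refine ⟨fun e => ?_, ?_⟩
              · have := h (bc (f e)) (Set.mem_insert_of_mem _ ⟨f e, ⟨e, rfl⟩, rfl⟩)
                rwa [hbc] at this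
              · have := h _ (Set.mem_insert _ _)
                rw [map_add, map_mul, map_C, hbc, hbc] at this
                exact this
            · rintro ⟨h3, h4⟩ x (rfl | ⟨_, ⟨e, rfl⟩, rfl⟩)
              · rw [map_add, map_mul, map_C, hbc, hbc]
                exact h4
              · rw [hbc]; exact h3 e
          rw [h2]
          exact h1
      · intro l
        rw [zs_insert_range]
        exact ih (i' + 1) (by omega) (by omega) _ (snoc_supp hfM (supp_comb hAM hBM l))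
      · rw [zs_insert_range]
        exact ih (i' + 1) (by omega) (by omega) _ (snoc_supp hfM hBM)
  obtain ⟨r', rfl⟩ : ∃ r', r = r' + 1 := ⟨r - 1, by omega⟩
  exact one_of_pp (key r' i le_rfl le_rfl F hF)

end Pool.Agent.Bloch.Pen
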