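import Pool.Agent.PEN.Pencil
import Pool.Agent.H78.Pen.Induct

/-! The pencil lemma and the theorem on systems. -/

set_option linter.unusedSectionVars false

open MvPolynomial

namespace Pool.Agent.Bloch.Pen

open Pool.Agent.Bloch.PEN Pool.Agent.Bloch.Pcl

theorem zs_union_two {K σ : Type} [Field K] [Finite σ] (E : Set (MvPolynomial σ K))
    (F G : MvPolynomial σ K) : Zs (E ∪ {F, G}) = Zs (insert F (insert G E)) := by
  have : E ∪ {F, G} = insert F (insert G E) := by
    ext x
    simp only [Set.mem_union, Set.mem_insert_iff, Set.mem_singleton_iff]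
    tauto
  rw [this]

theorem zs_union_one {K σ : Type} [Field K] [Finite σ] (E : Set (MvPolynomial σ K))
    (F : MvPolynomial σ K) : Zs (E ∪ {F}) = Zs (insert F E) := by
  rw [Set.union_singleton]

theorem pencil_stmt : PencilStmt := by
  intro σ _ E hEh F G d hF hG Gf hGf hE hFi hGi k w0 hA hB hB'
  have h := pencil ℚ E hF hG hGf hE hFi hGi (k := k)
  rw [zs_union_two] at h
  refine h w0 ?_ ?_ ?_
  · have : {Q : PrimeSpectrum (MvPolynomial σ (Fn ℂ)) | Q ∈ Pcl.ZF E ∧ Pcl.gm F G ∈ Q.asIdeal} =
        Zs (insert (bc F + C (Pcl.mu ℂ) * bc G) (bc '' E)) := by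
      ext Q
      constructor
      · rintro ⟨h1, h2⟩ x (rfl | hx)
        · exact h2
        · exact h1 x hx
      · intro h1
        exact ⟨fun x hx => h1 x (Or.inr hx), h1 _ (Or.inl rfl)⟩
    rw [this]
    exact hA
  · intro l
    rw [zs_union_one]
    exact hB l
  · rw [zs_union_one]
    exact hB'

theorem systemsG : SystemsG := systems_of_pencil pencil_stmt

end Pool.Agent.Bloch.Pen
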