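import Mathlib

/-! Distribution of the indices into parts of even sum. -/

set_option linter.unusedSectionVars false

namespace Pool.Agent.Bloch.Pen

theorem sum_half (g : ℕ → ℕ) (q : ℕ) :
    ∑ x ∈ Finset.range (2 * q), g (x / 2) = 2 * ∑ y ∈ Finset.range q, g y := by
  induction q with
  | zero => simp
  | succ q ih =>
    rw [show 2 * (q + 1) = 2 * q + 1 + 1 by ring, Finset.sum_range_succ, Finset.sum_range_succ,
      ih, Finset.sum_range_succ, show (2 * q + 1) / 2 = q by omega, show 2 * q / 2 = q by omega]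
    ring

/-- Parts of even sum. -/
theorem exists_parts {N : ℕ} (a : Fin N → ℕ) (ha : 2 ∣ ∑ k, a k) (m : ℕ)
    (hm : 2 * m < N + (Finset.univ.filter fun k => 2 ∣ a k).card) :
    ∃ π : Fin N → Fin (m + 1), Function.Surjective π ∧
      ∀ l, 2 ∣ ∑ k, if π k = l then a k else 0 := by
  classical
  set Z := Finset.univ.filter fun k => 2 ∣ a k with hZ
  set W := Finset.univ.filter fun k => ¬ 2 ∣ a k with hW
  have hZW : Z.card + W.card = N := by
    have := Finset.card_filter_add_card_filter_not (s := (Finset.univ : Finset (Fin N)))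
      (fun k => 2 ∣ a k)
    rwa [Finset.card_univ, Fintype.card_fin] at this
  have hsum : ∀ f : Fin N → ℕ, (∀ k ∈ Z, 2 ∣ f k) → (∀ k ∈ W, f k = a k ∨ f k = 0) →
      (2 ∣ ∑ k, f k ↔ 2 ∣ ∑ k ∈ W, if f k = 0 then 0 else 1) := by
    intro f hf1 hf2
    have h0 := Finset.sum_filter_add_sum_filter_not Finset.univ (fun k => 2 ∣ a k) f
    rw [← hZ, ← hW] at h0
    have h1 : ∑ k ∈ W, f k = (∑ k ∈ W, if f k = 0 then 0 else 1) +
        2 * ∑ k ∈ W, (f k / 2) := by
      rw [Finset.mul_sum, ← Finset.sum_add_distrib]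
      apply Finset.sum_congr rfl
      intro k hk
      have hk' := (Finset.mem_filter.1 hk).2
      rcases hf2 k hk with h | h
      · have : f k ≠ 0 := by rw [h]; rintro h0; exact hk' (by rw [h0]; exact dvd_zero _)
        rw [if_neg this, h]; omega
      · rw [if_pos h, h]; norm_num
    have h2 : 2 ∣ ∑ k ∈ Z, f k := Finset.dvd_sum hf1
    omega
  have hWe : 2 ∣ W.card := by
    have h1 := (hsum a (fun k hk => (Finset.mem_filter.1 hk).2) (fun k _ => Or.inl rfl)).1 ha
    rw [Finset.card_eq_sum_ones]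
    convert h1 using 2 with k hk
    have hk' := (Finset.mem_filter.1 hk).2
    rw [if_neg]
    rintro h0; exact hk' (by rw [h0]; exact dvd_zero _)
  obtain ⟨q, hq⟩ := hWe
  have hm' : m + 1 ≤ Z.card + q := by omega
  let eZ : Z ≃ Fin Z.card := Z.equivFin
  let eW : W ≃ Fin W.card := W.equivFin
  let p0 : Fin N → ℕ := fun k => if h : k ∈ Z then (eZ ⟨k, h⟩ : ℕ) else
    if h' : k ∈ W then Z.card + (eW ⟨k, h'⟩ : ℕ) / 2 else 0
  have hpZ : ∀ k (h : k ∈ Z), p0 k = eZ ⟨k, h⟩ := fun k h => dif_pos h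
  have hpW : ∀ k (h : k ∈ W), p0 k = Z.card + (eW ⟨k, h⟩ : ℕ) / 2 := by
    intro k h
    have h1 : k ∉ Z := fun h1 => (Finset.mem_filter.1 h).2 (Finset.mem_filter.1 h1).2
    change (if h : k ∈ Z then (eZ ⟨k, h⟩ : ℕ) else _) = _
    rw [dif_neg h1, dif_pos h]
  refine ⟨fun k => ⟨min (p0 k) m, by omega⟩, ?_, ?_⟩
  · intro l
    by_cases hl : (l : ℕ) < Z.card
    · refine ⟨(eZ.symm ⟨l, hl⟩).1, ?_⟩
      apply Fin.ext
      change min (p0 _) m = l
      rw [hpZ _ (eZ.symm ⟨l, hl⟩).2, Subtype.coe_eta, Equiv.apply_symm_apply]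
      change min (l : ℕ) m = l
      have := l.2
      omega
    · have h1 : 2 * ((l : ℕ) - Z.card) < W.card := by
        have := l.2
        omega
      refine ⟨(eW.symm ⟨_, h1⟩).1, ?_⟩
      apply Fin.ext
      change min (p0 _) m = l
      rw [hpW _ (eW.symm ⟨_, h1⟩).2, Subtype.coe_eta, Equiv.apply_symm_apply]
      change min (Z.card + (2 * ((l : ℕ) - Z.card)) / 2) m = l
      have := l.2
      omega
  · intro l
    rw [hsum]
    · have h1 : ∀ k ∈ W, (if (if (⟨min (p0 k) m, by omega⟩ : Fin (m + 1)) = l then a k else 0) = 0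
          then 0 else 1) = if min (p0 k) m = l then 1 else 0 := by
        intro k hk
        have hk' := (Finset.mem_filter.1 hk).2
        have : a k ≠ 0 := by rintro h0; exact hk' (by rw [h0]; exact dvd_zero _)
        by_cases h : min (p0 k) m = l
        · rw [if_pos h, if_pos (Fin.ext h), if_neg this]
        · rw [if_neg h, if_neg (fun h' => h (congrArg Fin.val h')), if_pos rfl]
      rw [Finset.sum_congr rfl h1]
      have h2 : ∑ k ∈ W, (if min (p0 k) m = l then 1 else 0) =
          ∑ x ∈ Finset.range (2 * q), (if min (Z.card + x / 2) m = l then 1 else 0) := by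
        rw [← hq, ← Finset.sum_coe_sort W,
          ← Fin.sum_univ_eq_sum_range (fun x => if min (Z.card + x / 2) m = (l : ℕ) then 1 else 0)]
        refine Fintype.sum_equiv eW _ _ (fun k => ?_)
        rw [hpW k.1 k.2]
      rw [h2, sum_half (fun y => if min (Z.card + y) m = (l : ℕ) then 1 else 0)]
      exact Dvd.intro _ rfl
    · intro k hk
      split_ifs
      · exact (Finset.mem_filter.1 hk).2
      · exact dvd_zero _
    · intro k hk
      split_ifs
      · exact Or.inl rfl
      · exact Or.inr rfl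

end Pool.Agent.Bloch.Pen
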