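import Pool.Agent.H78.Pen.Quad
import Pool.Agent.H78.Pen.Pair
import Pool.Agent.H78.Pen.SepSys

/-! One block quadric with a group of signs of the blocks. -/

set_option linter.unusedSectionVars false

open MvPolynomial

namespace Pool.Agent.Bloch.Pen

/-- the scalings of the variables defined by the block scalings -/
noncomputable def HG {t : ℕ} (d : ℕ) (ν : Fin t → ℕ) (G : Set (Fin t → ZMod d)) :
    Set (Vars ν → ℂ) :=
  {h | ∃ g ∈ G, h = fun s => Complex.exp (2 * Real.pi * Complex.I / d) ^ (g s.1).val}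

theorem bm_coeff_prod {T : Type} {σ : Type} [Fintype σ] (β : σ → T) (d : ℕ) {m : σ →₀ ℕ}
    (hm : m ∈ BM β d) (h : σ → ℂ) (hh : ∀ s u, β s = β u → h s = h u) (hd : ∀ s, h s ^ d = 1) :
    (m.prod fun s k => h s ^ k) = 1 := by
  by_cases hm0 : m = 0
  · rw [hm0, Finsupp.prod_zero_index]
  · obtain ⟨s₀, hs₀⟩ : ∃ s, m s ≠ 0 := by
      by_contra h
      push Not at h
      exact hm0 (Finsupp.ext h)
    have h1 : (m.prod fun s k => h s ^ k) = m.prod fun _ k => h s₀ ^ k := by
      apply Finsupp.prod_congr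
      intro s hs
      rw [hh s s₀ (hm.2 s s₀ (Finsupp.mem_support_iff.1 hs) hs₀)]
    rw [h1, Finsupp.prod, Finset.prod_pow_eq_pow_sum]
    have h2 : ∑ s ∈ m.support, m s = d := hm.1
    rw [h2, hd]

theorem card_vars {t : ℕ} (ν : Fin t → ℕ) : Fintype.card (Vars ν) = ∑ k, (ν k + 1) := by
  rw [Fintype.card_sigma]
  simp only [Fintype.card_fin]

/-- the number of the variables of a block -/
theorem sum_vars {t : ℕ} (ν : Fin t → ℕ) {M : Type} [AddCommMonoid M] (f : Vars ν → M) :
    ∑ s, f s = ∑ k, ∑ j : Fin (ν k + 1), f ⟨k, j⟩ := Fintype.sum_sigma _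

theorem q_count {t : ℕ} (ν : Fin t → ℕ) (a : Vars ν → ℕ) :
    (Finset.univ.filter fun k : Fin t =>
      ((ν k + 1 : ℕ) : ZMod 2) + ((∑ j : Fin (ν k + 1), a ⟨k, j⟩ : ℕ) : ZMod 2) = 1).card ≤
      (Finset.univ.filter fun s => 2 ∣ a s).card := by
  classical
  have key : ∀ k : Fin t, ((ν k + 1 : ℕ) : ZMod 2) +
      ((∑ j : Fin (ν k + 1), a ⟨k, j⟩ : ℕ) : ZMod 2) = 1 → ∃ j : Fin (ν k + 1), 2 ∣ a ⟨k, j⟩ := by
    intro k hk
    by_contra hcon
    push Not at hcon
    have h1 : ((∑ j : Fin (ν k + 1), a ⟨k, j⟩ : ℕ) : ZMod 2) = ((ν k + 1 : ℕ) : ZMod 2) := by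
      rw [Nat.cast_sum]
      have h2 : ∀ j : Fin (ν k + 1), ((a ⟨k, j⟩ : ℕ) : ZMod 2) = 1 := by
        intro j
        have h3 := hcon j
        have h4 : a ⟨k, j⟩ % 2 = 1 := by omega
        rw [← ZMod.natCast_mod, h4, Nat.cast_one]
      rw [Finset.sum_congr rfl (fun j _ => h2 j), Finset.sum_const, Finset.card_univ,
        Fintype.card_fin, nsmul_eq_mul, mul_one]
    rw [h1, ← two_mul] at hk
    have h5 : (2 : ZMod 2) = 0 := by decide
    rw [h5, zero_mul] at hk
    exact absurd hk (by decide)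
  choose! f hf using key
  refine Finset.card_le_card_of_injOn (fun k => ⟨k, f k⟩) ?_ ?_
  · intro k hk
    have hk' := (Finset.mem_filter.1 (Finset.mem_coe.1 hk)).2
    exact Finset.mem_coe.2 (Finset.mem_filter.2 ⟨Finset.mem_univ _, hf k hk'⟩)
  · intro k _ k' _ h
    exact congrArg Sigma.fst h

theorem q_base {t j : ℕ} (ν : Fin t → ℕ) (G : Set (Fin t → ZMod 2))
    (H : ∀ c : Fin t → ZMod 2, ∑ k, c k = 0 → (∀ g ∈ G, ∑ k, g k * c k = 0) →
      2 * (1 + j) < ∑ k, (ν k + 1) +
        (Finset.univ.filter fun k : Fin t => ((ν k + 1 : ℕ) : ZMod 2) + c k = 1).card)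
    (F : MvPolynomial (Vars ν) ℂ) (hF : ∀ m ∈ F.support, m ∈ BM (fun s : Vars ν => s.1) 2) :
    One (HG 2 ν G) (ZF fun _ : Unit => F) (j + 1) := by
  classical
  obtain ⟨b, hb1, hb2, hb3⟩ := quad_repr (fun s : Vars ν => s.1) F hF
  obtain ⟨P, Q, h1, h2, h3, h4⟩ := diag_block (fun s : Vars ν => s.1) b hb1 hb2
  have h1' : ∀ u u', ∑ s, P u s * Q s u' = if u = u' then 1 else 0 := by
    have h5 : Matrix.of Q * Matrix.of P = 1 := by
      ext u u'
      rw [Matrix.mul_apply, Matrix.one_apply]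
      exact h1 u u'
    have h6 : Matrix.of P * Matrix.of Q = 1 := mul_eq_one_comm.1 h5
    intro u u'
    have := congrFun (congrFun h6 u) u'
    rwa [Matrix.mul_apply, Matrix.one_apply] at this
  refine one_change (lch P) (lch Q) (lch_lch P Q h1) (lch_lch Q P h1') (lch_gr P) (lch_gr Q)
    _ ?_ _ _ ?_
  · rintro h ⟨g, hg, rfl⟩ f
    refine lch_scl (fun s : Vars ν => s.1) P h2 _ ?_ f
    intro s u hsu
    rw [show s.1 = u.1 from hsu]
  set a : Vars ν → ℂ := fun u => ∑ s, ∑ s', P s u * b s s' * P s' u with ha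
  have hZ : {Q : PrimeSpectrum (MvPolynomial (Vars ν) ℂ) |
      ctr ℂ (lch P) Q ∈ (ZF fun _ : Unit => F)} =
      (ZF fun _ : Unit => ∑ u, C (a u) * X u ^ 2) := by
    ext Q'
    change (∀ _ : Unit, lch P F ∈ Q'.asIdeal) ↔ (∀ _ : Unit, _ ∈ Q'.asIdeal)
    rw [hb3, lch_quad P b h4]
  rw [hZ]
  -- the system of equations
  let N := Fintype.card (Vars ν)
  let e : Vars ν ≃ Fin N := Fintype.equivFin _
  let Y : Sys ℂ (Vars ν) N 2 :=
    { β := e
      ι := Unit
      f := fun _ k => C (a (e.symm k)) * X (e.symm k) ^ 2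
      hf := by
        intro _ k m hm
        have hX : (X (e.symm k) ^ 2 : MvPolynomial (Vars ν) ℂ) =
            monomial (Finsupp.single (e.symm k) 2) 1 := by
          rw [X_pow_eq_monomial]
        rw [hX, C_mul_monomial] at hm
        have hm' := support_monomial_subset hm
        rw [Finset.mem_singleton] at hm'
        subst hm'
        refine ⟨fun s hs => ?_, ?_⟩
        · have : s = e.symm k := by
            by_contra hne
            exact hs (Finsupp.single_eq_of_ne hne)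
          rw [this, Equiv.apply_symm_apply]
        · rw [Finsupp.degree_single]
      Z := ZF fun _ : Unit => ∑ u, C (a u) * X u ^ 2
      HZ := by
        intro Q
        have : ∑ k, (C (a (e.symm k)) * X (e.symm k) ^ 2 : MvPolynomial (Vars ν) ℂ) =
            ∑ u, C (a u) * X u ^ 2 := e.symm.sum_comp (fun u => C (a u) * X u ^ 2)
        rw [this]
        exact Iff.rfl }
  let hYι : Fintype Y.ι := inferInstanceAs (Fintype Unit)
  have hr : Fintype.card Y.ι = 1 := rfl
  have hζ : IsPrimitiveRoot (Complex.exp (2 * Real.pi * Complex.I / (2 : ℕ))) 2 :=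
    Complex.isPrimitiveRoot_exp 2 (by norm_num)
  set ζ := Complex.exp (2 * Real.pi * Complex.I / (2 : ℕ)) with hζdef
  have key := main_Q Y e.surjective hζ (i := j)
    {γ | ∃ g ∈ G, ∀ k, wt γ k = ζ ^ (g (e.symm k).1).val} (by
    intro c hc hG
    rw [hr]
    have h5 := H (fun k => ((∑ l : Fin (ν k + 1), c (e ⟨k, l⟩) : ℕ) : ZMod 2)) ?_ ?_
    · have h6 := q_count ν (fun s => c (e s))
      have h7 : (Finset.univ.filter fun s : Vars ν => 2 ∣ c (e s)).card =
          (Finset.univ.filter fun k => 2 ∣ c k).card := by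
        refine Finset.card_bij (fun s _ => e s) ?_ ?_ ?_
        · intro s hs
          rw [Finset.mem_filter] at hs ⊢
          exact ⟨Finset.mem_univ _, hs.2⟩
        · intro s _ s' _ h; exact e.injective h
        · intro k hk
          rw [Finset.mem_filter] at hk
          exact ⟨e.symm k, Finset.mem_filter.2 ⟨Finset.mem_univ _, by
            rw [Equiv.apply_symm_apply]; exact hk.2⟩, e.apply_symm_apply k⟩
      have h8 : N = ∑ k, (ν k + 1) := card_vars ν
      obtain ⟨π, hπ1, hπ2⟩ := exists_parts c hc (1 + j) (by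
        rw [← h8] at h5
        omega)
      exact ⟨π, hπ1, hπ2⟩
    · have h6 : ∑ k, ((∑ l : Fin (ν k + 1), c (e ⟨k, l⟩) : ℕ) : ZMod 2) =
          ((∑ s : Vars ν, c (e s) : ℕ) : ZMod 2) := by
        rw [sum_vars, Nat.cast_sum]
      rw [h6, e.sum_comp (fun k => c k), ZMod.natCast_eq_zero_iff]
      exact hc
    · intro g hg
      obtain ⟨γ, hγ⟩ := exists_wt (d := 2) (fun k : Fin N => ζ ^ (g (e.symm k).1).val) (fun k => by
        rw [← pow_mul, mul_comm, pow_mul, hζ.pow_eq_one, one_pow])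
      have h6 := hG γ ⟨g, hg, hγ⟩
      have h7 : ζ ^ (∑ k : Fin N, (g (e.symm k).1).val * c k) = 1 := by
        rw [← Finset.prod_pow_eq_pow_sum, ← h6]
        unfold chr
        apply Finset.prod_congr rfl
        intro k _
        rw [hγ, pow_mul]
      have h8 := (ZMod.natCast_eq_zero_iff _ 2).2 (hζ.dvd_of_pow_eq_one _ h7)
      rw [← h8, ← e.sum_comp (fun k => (g (e.symm k).1).val * c k), sum_vars, Nat.cast_sum]
      apply Finset.sum_congr rfl
      intro k _
      rw [Nat.cast_sum, Nat.cast_sum, Finset.mul_sum]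
      apply Finset.sum_congr rfl
      intro l _
      rw [Equiv.symm_apply_apply, Nat.cast_mul, ZMod.natCast_zmod_val])
  have hS : odiff Y (j + 1) {γ | ∃ g ∈ G, ∀ k, wt γ k = ζ ^ (g (e.symm k).1).val} ⊆
      odK (HG 2 ν G) (ZF fun _ : Unit => ∑ u, C (a u) * X u ^ 2) (j + 1) := by
    rintro z ⟨γ, ⟨g, hg, hγ⟩, V, rfl⟩
    refine ⟨_, ⟨g, hg, rfl⟩, V, sc Y (j + 1) γ V, ?_, rfl⟩
    rw [sc_val]
    congr 1
    have : (fun s => wt γ (Y.β s)) = fun s : Vars ν => ζ ^ (g s.1).val := by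
      funext s
      rw [hγ]
      change ζ ^ (g (e.symm (e s)).1).val = _
      rw [Equiv.symm_apply_apply]
    rw [this]
  refine le_trans ?_ key
  exact LinearMap.rank_le_of_surjective (Submodule.factor (Submodule.span_mono
    (Set.union_subset_union_right _ hS))) (Submodule.factor_surjective _)

end Pool.Agent.Bloch.Pen
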