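import Pool.Agent.H78.Pen.QBase

/-! Systems of block quadrics with a group of signs of the blocks. -/

set_option linter.unusedSectionVars false

open MvPolynomial

namespace Pool.Agent.Bloch.Pen

theorem hg_finite {t : ℕ} (d : ℕ) [NeZero d] (ν : Fin t → ℕ) (G : Set (Fin t → ZMod d)) :
    (HG d ν G).Finite := by
  have : HG d ν G = (fun (g : Fin t → ZMod d) (s : Vars ν) =>
      Complex.exp (2 * Real.pi * Complex.I / d) ^ (g s.1).val) '' G := by
    ext h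
    constructor
    · rintro ⟨g, hg, rfl⟩; exact ⟨g, hg, rfl⟩
    · rintro ⟨g, hg, rfl⟩; exact ⟨g, hg, rfl⟩
  rw [this]
  exact Set.Finite.image _ (Set.toFinite G)

theorem hg_ne {t : ℕ} (d : ℕ) (ν : Fin t → ℕ) (G : Set (Fin t → ZMod d)) :
    ∀ h ∈ HG d ν G, ∀ s, h s ≠ 0 := by
  rintro h ⟨g, hg, rfl⟩ s
  exact pow_ne_zero _ (Complex.exp_ne_zero _)

theorem hg_stable {t : ℕ} (d : ℕ) [NeZero d] (ν : Fin t → ℕ) (G : AddSubgroup (Fin t → ZMod d))
    (φ : ℂ →+* ℂ) :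
    (fun h : Vars ν → ℂ => fun s => φ (h s)) '' (HG d ν (G : Set (Fin t → ZMod d))) =
      HG d ν (G : Set (Fin t → ZMod d)) := by
  have hζ : IsPrimitiveRoot (Complex.exp (2 * Real.pi * Complex.I / d)) d :=
    Complex.isPrimitiveRoot_exp d (NeZero.ne d)
  have h1 : (fun h : Vars ν → ℂ => fun s => φ (h s)) '' (HG d ν (G : Set (Fin t → ZMod d))) ⊆
      HG d ν (G : Set (Fin t → ZMod d)) := by
    rintro _ ⟨_, ⟨g, hg, rfl⟩, rfl⟩
    obtain ⟨u, _, hu⟩ := hζ.eq_pow_of_pow_eq_one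
      (show φ (Complex.exp (2 * Real.pi * Complex.I / d)) ^ d = 1 by
        rw [← map_pow, hζ.pow_eq_one, map_one])
    refine ⟨u • g, G.nsmul_mem hg u, ?_⟩
    funext s
    change φ (Complex.exp (2 * Real.pi * Complex.I / d) ^ (g s.1).val) =
      Complex.exp (2 * Real.pi * Complex.I / d) ^ ((u • g) s.1).val
    rw [map_pow, ← hu, ← pow_mul, Pi.smul_apply]
    have h2 : ((u • g s.1 : ZMod d)).val = (u * (g s.1).val) % d := by
      rw [nsmul_eq_mul, ZMod.val_mul, ZMod.val_natCast, Nat.mod_mul_mod]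
    rw [h2]
    conv_lhs => rw [← Nat.div_add_mod (u * (g s.1).val) d, pow_add, pow_mul, hζ.pow_eq_one,
      one_pow, one_mul]
  have hinj : Function.Injective (fun h : Vars ν → ℂ => fun s => φ (h s)) := by
    intro h h' hh
    funext s
    exact φ.injective (congrFun hh s)
  exact Set.eq_of_subset_of_ncard_le h1 (by rw [Set.ncard_image_of_injective _ hinj])
    (hg_finite d ν _)

theorem zf_eqI {t r : ℕ} (ν : Fin t → ℕ)
    (f : Fin r → (k : Fin t) → MvPolynomial (Fin (ν k + 1)) ℂ) :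
    (ZF fun e => ∑ k, ff ν f e k) =
      {Q : PrimeSpectrum (MvPolynomial (Vars ν) ℂ) | eqI ν f ≤ Q.asIdeal} := by
  ext Q
  rw [eqI_le]
  exact Iff.rfl

theorem od_eq {t r : ℕ} (d : ℕ) (ν : Fin t → ℕ)
    (f : Fin r → (k : Fin t) → MvPolynomial (Fin (ν k + 1)) ℂ)
    (G : Set (Fin t → ZMod d)) (k : ℕ) :
    odK (HG d ν G) {Q : PrimeSpectrum (MvPolynomial (Vars ν) ℂ) | eqI ν f ≤ Q.asIdeal} k ⊆
      odST d ν f G k := by
  rintro z ⟨_, ⟨g, hg, rfl⟩, V, V', hV, rfl⟩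
  refine ⟨g, hg, V, V', ?_, rfl⟩
  rw [hV]
  have : (scl ℂ (fun s : Vars ν => Complex.exp (2 * Real.pi * Complex.I / d) ^ (g s.1).val) :
      MvPolynomial (Vars ν) ℂ →ₐ[ℂ] MvPolynomial (Vars ν) ℂ) = bscale d ν g := by
    apply MvPolynomial.algHom_ext
    intro s
    rw [scl_X]
    unfold bscale
    rw [aeval_X]
    rfl
  rw [this]
  rfl

theorem bm_ff {t r : ℕ} {d : ℕ} (ν : Fin t → ℕ)
    (f : Fin r → (k : Fin t) → MvPolynomial (Fin (ν k + 1)) ℂ)
    (hf : ∀ e k, (f e k).IsHomogeneous d) (e : Fin r) :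
    ∀ m ∈ (∑ k, ff ν f e k).support, m ∈ BM (fun s : Vars ν => s.1) d := by
  classical
  intro m hm
  have h1 := support_sum hm
  rw [Finset.mem_biUnion] at h1
  obtain ⟨k, _, hk⟩ := h1
  obtain ⟨h2, h3⟩ := bh_rename k (f e k) (hf e k) m hk
  refine ⟨h3, fun s s' hs hs' => ?_⟩
  rw [h2 s hs, h2 s' hs']

/-- Theorem Q. -/
theorem q_main (hS : Systems) (t r i : ℕ) (hr : 0 < r) (ν : Fin t → ℕ)
    (f : Fin r → (k : Fin t) → MvPolynomial (Fin (ν k + 1)) ℂ)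
    (hf : ∀ e k, (f e k).IsHomogeneous 2) (G : AddSubgroup (Fin t → ZMod 2))
    (H : ∀ c : Fin t → ZMod 2, ∑ k, c k = 0 → (∀ g ∈ G, ∑ k, g k * c k = 0) →
      2 * (r + i) < ∑ k, (ν k + 1) +
        (Finset.univ.filter fun k : Fin t => ((ν k + 1 : ℕ) : ZMod 2) + c k = 1).card) :
    Module.rank ℚ ((VH {Q : PrimeSpectrum (MvPolynomial (Vars ν) ℂ) | eqI ν f ≤ Q.asIdeal} (i + 1)
        →₀ ℚ) ⧸
      Submodule.span ℚ (pdiv {Q : PrimeSpectrum (MvPolynomial (Vars ν) ℂ) | eqI ν f ≤ Q.asIdeal}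
        (i + 1) ∪ odST 2 ν f (G : Set (Fin t → ZMod 2)) (i + 1))) ≤ 1 := by
  have hζ : IsPrimitiveRoot (Complex.exp (2 * Real.pi * Complex.I / (2 : ℕ))) 2 :=
    Complex.isPrimitiveRoot_exp 2 (by norm_num)
  have key : One (HG 2 ν (G : Set (Fin t → ZMod 2))) (ZF fun e => ∑ k, ff ν f e k) (i + 1) := by
    refine hS (Vars ν) 2 (BM (fun s : Vars ν => s.1) 2) _ r i (fun m hm => hm.1) (hg_finite 2 ν _)
      (hg_ne 2 ν _) (hg_stable 2 ν G) ?_ hr ?_ _ (bm_ff ν f hf)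
    · rintro _ ⟨g, hg, rfl⟩ m hm
      refine bm_coeff_prod _ 2 hm _ ?_ ?_
      · intro s u hsu
        rw [show s.1 = u.1 from hsu]
      · intro s
        rw [← pow_mul, mul_comm (g s.1).val 2, pow_mul, hζ.pow_eq_one, one_pow]
    · intro j hj1 hj2 F hF
      refine q_base ν _ (fun c h1 h2 => ?_) F hF
      have := H c h1 h2
      omega
  rw [zf_eqI] at key
  unfold One at key
  refine le_trans ?_ key
  exact LinearMap.rank_le_of_surjective (Submodule.factor (Submodule.span_mono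
    (Set.union_subset_union_right _ (od_eq 2 ν f _ (i + 1))))) (Submodule.factor_surjective _)

end Pool.Agent.Bloch.Pen
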