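import Pool.Agent.H78.Pen.QMain
import Pool.Agent.H78.Pen.Sys2

/-! Systems of block quadrics with a group of signs of the blocks. -/

set_option linter.unusedSectionVars false

open MvPolynomial

namespace Pool.Agent.Bloch.Pen

open Pool.Agent.Bloch.PEN

theorem hg_grp {t : ℕ} (d : ℕ) [NeZero d] (ν : Fin t → ℕ) (G : AddSubgroup (Fin t → ZMod d)) :
    Grp (hg_finite d ν (G : Set (Fin t → ZMod d))).toFinset where
  one := by
    rw [Set.Finite.mem_toFinset]
    refine ⟨0, G.zero_mem, ?_⟩
    funext s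
    rw [Pi.zero_apply, ZMod.val_zero, pow_zero]
  mul := by
    intro c hc c' hc'
    rw [Set.Finite.mem_toFinset] at hc hc' ⊢
    obtain ⟨g, hg, rfl⟩ := hc
    obtain ⟨g', hg', rfl⟩ := hc'
    refine ⟨g + g', G.add_mem hg hg', ?_⟩
    funext s
    have hζ : IsPrimitiveRoot (Complex.exp (2 * Real.pi * Complex.I / d)) d :=
      Complex.isPrimitiveRoot_exp d (NeZero.ne d)
    rw [← pow_add, Pi.add_apply, ZMod.val_add]
    conv_lhs => rw [← Nat.div_add_mod ((g s.1).val + (g' s.1).val) d, pow_add, pow_mul,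
      hζ.pow_eq_one, one_pow, one_mul]
  nz := by
    intro c hc s
    rw [Set.Finite.mem_toFinset] at hc
    exact hg_ne d ν _ c hc s

/-- the case in which all blocks have one variable -/
theorem q_small {t r i : ℕ} (ν : Fin t → ℕ)
    (H : 2 * (r + i) < ∑ k, (ν k + 1) +
        (Finset.univ.filter fun k : Fin t => ((ν k + 1 : ℕ) : ZMod 2) + 0 = 1).card)
    (hN : ∑ k, (ν k + 1) ≤ r + i + 1) : ∀ k, ν k = 0 := by
  classical
  have h1 : (Finset.univ.filter fun k : Fin t => ((ν k + 1 : ℕ) : ZMod 2) + 0 = 1).card +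
      2 * (Finset.univ.filter fun k : Fin t => ν k ≠ 0).card ≤ ∑ k, (ν k + 1) := by
    rw [Finset.card_filter, Finset.card_filter, Finset.mul_sum, ← Finset.sum_add_distrib]
    apply Finset.sum_le_sum
    intro k _
    by_cases h0 : ν k = 0
    · rw [if_neg (not_not.2 h0), h0]
      split_ifs <;> omega
    · rw [if_pos h0]
      split_ifs with h2
      · have h3 : ν k ≠ 1 := by
          intro h3
          rw [h3] at h2
          exact absurd h2 (by decide)
        omega
      · omega
  have h2 : (Finset.univ.filter fun k : Fin t => ν k ≠ 0).card = 0 := by omega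
  intro k
  by_contra h
  have h3 := Finset.card_eq_zero.1 h2
  have h4 : k ∈ Finset.univ.filter fun k : Fin t => ν k ≠ 0 :=
    Finset.mem_filter.2 ⟨Finset.mem_univ _, h⟩
  rw [h3] at h4
  exact absurd h4 (Finset.notMem_empty k)

/-- Theorem Q. -/
theorem q_mainG (hS : SystemsG) (t r i : ℕ) (hr : 0 < r) (ν : Fin t → ℕ)
    (f : Fin r → (k : Fin t) → MvPolynomial (Fin (ν k + 1)) ℂ)
    (hf : ∀ e k, (f e k).IsHomogeneous 2) (G : AddSubgroup (Fin t → ZMod 2))
    (H : ∀ c : Fin t → ZMod 2, ∑ k, c k = 0 → (∀ g ∈ G, ∑ k, g k * c k = 0) →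
      2 * (r + i) < ∑ k, (ν k + 1) +
        (Finset.univ.filter fun k : Fin t => ((ν k + 1 : ℕ) : ZMod 2) + c k = 1).card) :
    Module.rank ℚ ((VH {Q : PrimeSpectrum (MvPolynomial (Vars ν) ℂ) | eqI ν f ≤ Q.asIdeal} (i + 1)
        →₀ ℚ) ⧸
      Submodule.span ℚ (pdiv {Q : PrimeSpectrum (MvPolynomial (Vars ν) ℂ) | eqI ν f ≤ Q.asIdeal}
        (i + 1) ∪ odST 2 ν f (G : Set (Fin t → ZMod 2)) (i + 1))) ≤ 1 := by
  classical
  by_cases hN : r + i + 2 ≤ ∑ k, (ν k + 1)
  · have hζ : IsPrimitiveRoot (Complex.exp (2 * Real.pi * Complex.I / (2 : ℕ))) 2 :=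
      Complex.isPrimitiveRoot_exp 2 (by norm_num)
    have key : One (HG 2 ν (G : Set (Fin t → ZMod 2))) (ZF fun e => ∑ k, ff ν f e k) (i + 1) := by
      have h1 := hS (Vars ν) 2 (BM (fun s : Vars ν => s.1) 2)
        (hg_finite 2 ν (G : Set (Fin t → ZMod 2))).toFinset r i (fun m hm => hm.1) (by norm_num)
        (hg_grp 2 ν G) (fun φ c hc => by
          rw [Set.Finite.mem_toFinset] at hc ⊢
          rw [← hg_stable 2 ν G φ]
          exact ⟨c, hc, rfl⟩) (fun c hc m hm => by
          rw [Set.Finite.mem_toFinset] at hc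
          obtain ⟨g, hg, rfl⟩ := hc
          refine bm_coeff_prod _ 2 hm _ ?_ ?_
          · intro s u hsu
            rw [show s.1 = u.1 from hsu]
          · intro s
            rw [← pow_mul, mul_comm (g s.1).val 2, pow_mul, hζ.pow_eq_one, one_pow]) hr
        (by rw [card_vars]; exact hN) (fun j hj1 hj2 F hF => by
          rw [Set.Finite.coe_toFinset]
          refine q_base ν _ (fun c h1 h2 => ?_) F hF
          have := H c h1 h2
          omega) _ (bm_ff ν f hf)
      rw [Set.Finite.coe_toFinset] at h1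
      exact h1
    rw [zf_eqI] at key
    unfold One at key
    refine le_trans ?_ key
    exact LinearMap.rank_le_of_surjective (Submodule.factor (Submodule.span_mono
      (Set.union_subset_union_right _ (od_eq 2 ν f _ (i + 1))))) (Submodule.factor_surjective _)
  · have h0 := q_small (r := r) (i := i) ν (by
      have := H 0 (by simp) (fun g _ => by simp)
      simpa using this) (by omega)
    refine main_ST 2 t r i (by norm_num) ν f hf _ (Or.inr fun c hc hg => ?_)
    obtain ⟨π, hπ1, hπ2⟩ := exists_parts (fun k => (c k).val) (by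
      rw [← ZMod.natCast_eq_zero_iff, Nat.cast_sum, ← hc]
      apply Finset.sum_congr rfl
      intro k _
      rw [ZMod.natCast_zmod_val]) (r + i) (by
      have h1 := H c hc hg
      have h2 : (Finset.univ.filter fun k : Fin t => ((ν k + 1 : ℕ) : ZMod 2) + c k = 1) =
          Finset.univ.filter fun k : Fin t => 2 ∣ (c k).val := by
        apply Finset.filter_congr
        intro k _
        rw [h0 k, ← ZMod.natCast_eq_zero_iff, ZMod.natCast_zmod_val]
        generalize c k = x
        revert x
        decide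
      have h3 : ∑ k, (ν k + 1) = t := by
        rw [Finset.sum_congr rfl (fun k _ => by rw [h0 k])]
        simp
      rw [h2, h3] at h1
      exact h1)
    refine ⟨π, hπ1, fun l => ?_⟩
    have h4 := (ZMod.natCast_eq_zero_iff _ 2).2 (hπ2 l)
    refine Eq.trans ?_ h4
    rw [Nat.cast_sum]
    apply Finset.sum_congr rfl
    intro k _
    split_ifs
    · rw [ZMod.natCast_zmod_val]
    · rw [Nat.cast_zero]

end Pool.Agent.Bloch.Pen
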