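import Pool.Agent.H78.Pen.SepSysG
import Pool.Agent.H78.Pen.BlockMainG

/-! Reduction of systems of forms to single forms, with a group of scalings of the variables. -/

set_option linter.unusedSectionVars false

open MvPolynomial

namespace Pool.Agent.Bloch.Pen

open Pool.Agent.Bloch.PEN

section
variable {σ : Type} [Fintype σ] (n : ℕ)

/-- the scaling of the variables -/
noncomputable def vsc (g : σ → ZMod n) : MvPolynomial σ ℂ →ₐ[ℂ] MvPolynomial σ ℂ :=
  aeval (fun s => C (Complex.exp (2 * Real.pi * Complex.I / n) ^ (g s).val) * X s)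

/-- differences of cycles in the same orbit -/
def odV (G : Set (σ → ZMod n)) (I : Ideal (MvPolynomial σ ℂ)) (k : ℕ) :
    Set (VH {Q : PrimeSpectrum (MvPolynomial σ ℂ) | I ≤ Q.asIdeal} k →₀ ℚ) :=
  {z | ∃ g ∈ G, ∃ V V' : VH {Q : PrimeSpectrum (MvPolynomial σ ℂ) | I ≤ Q.asIdeal} k,
    V'.1.asIdeal = V.1.asIdeal.comap (vsc n g) ∧
    z = Finsupp.single V' 1 - Finsupp.single V 1}

/-- the scalings as families of complex numbers -/
noncomputable def HV (G : Set (σ → ZMod n)) : Set (σ → ℂ) :=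
  {h | ∃ g ∈ G, h = fun s => Complex.exp (2 * Real.pi * Complex.I / n) ^ (g s).val}

variable {n}

theorem vsc_eq (g : σ → ZMod n) :
    (scl ℂ (fun s : σ => Complex.exp (2 * Real.pi * Complex.I / n) ^ (g s).val) :
      MvPolynomial σ ℂ →ₐ[ℂ] MvPolynomial σ ℂ) = vsc n g := by
  apply MvPolynomial.algHom_ext
  intro s
  rw [scl_X]
  unfold vsc
  rw [aeval_X]
  rfl

theorem odV_eq (G : Set (σ → ZMod n)) (I : Ideal (MvPolynomial σ ℂ)) (k : ℕ) :
    odV n G I k = odK (HV n G) {Q : PrimeSpectrum (MvPolynomial σ ℂ) | I ≤ Q.asIdeal} k := by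
  ext z
  constructor
  · rintro ⟨g, hg, V, V', hV, rfl⟩
    refine ⟨_, ⟨g, hg, rfl⟩, V, V', ?_, rfl⟩
    apply PrimeSpectrum.ext
    refine hV.trans ?_
    rw [← vsc_eq]
    rfl
  · rintro ⟨_, ⟨g, hg, rfl⟩, V, V', hV, rfl⟩
    refine ⟨g, hg, V, V', ?_, rfl⟩
    rw [hV, vsc_eq]
    rfl

theorem hv_finite [NeZero n] (G : Set (σ → ZMod n)) : (HV n G).Finite := by
  have : HV n G = (fun (g : σ → ZMod n) (s : σ) =>
      Complex.exp (2 * Real.pi * Complex.I / n) ^ (g s).val) '' G := by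
    ext h
    constructor
    · rintro ⟨g, hg, rfl⟩; exact ⟨g, hg, rfl⟩
    · rintro ⟨g, hg, rfl⟩; exact ⟨g, hg, rfl⟩
  rw [this]
  exact Set.Finite.image _ (Set.toFinite G)

theorem hv_stable [NeZero n] (G : AddSubgroup (σ → ZMod n)) (φ : ℂ →+* ℂ) :
    ∀ h ∈ HV n (G : Set (σ → ZMod n)), (fun s => φ (h s)) ∈ HV n (G : Set (σ → ZMod n)) := by
  have hζ : IsPrimitiveRoot (Complex.exp (2 * Real.pi * Complex.I / n)) n :=
    Complex.isPrimitiveRoot_exp n (NeZero.ne n)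
  rintro _ ⟨g, hg, rfl⟩
  obtain ⟨u, _, hu⟩ := hζ.eq_pow_of_pow_eq_one
    (show φ (Complex.exp (2 * Real.pi * Complex.I / n)) ^ n = 1 by
      rw [← map_pow, hζ.pow_eq_one, map_one])
  refine ⟨u • g, G.nsmul_mem hg u, ?_⟩
  funext s
  change φ (Complex.exp (2 * Real.pi * Complex.I / n) ^ (g s).val) =
    Complex.exp (2 * Real.pi * Complex.I / n) ^ ((u • g) s).val
  rw [map_pow, ← hu, ← pow_mul, Pi.smul_apply]
  have h2 : ((u • g s : ZMod n)).val = (u * (g s).val) % n := by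
    rw [nsmul_eq_mul, ZMod.val_mul, ZMod.val_natCast, Nat.mod_mul_mod]
  rw [h2]
  conv_lhs => rw [← Nat.div_add_mod (u * (g s).val) n, pow_add, pow_mul, hζ.pow_eq_one,
    one_pow, one_mul]

theorem hv_grp [NeZero n] (G : AddSubgroup (σ → ZMod n)) :
    Grp (hv_finite (n := n) (G : Set (σ → ZMod n))).toFinset where
  one := by
    rw [Set.Finite.mem_toFinset]
    refine ⟨0, G.zero_mem, ?_⟩
    funext s
    rw [Pi.zero_apply, ZMod.val_zero, pow_zero]
  mul := by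
    intro c hc c' hc'
    rw [Set.Finite.mem_toFinset] at hc hc' ⊢
    obtain ⟨g, hg, rfl⟩ := hc
    obtain ⟨g', hg', rfl⟩ := hc'
    refine ⟨g + g', G.add_mem hg hg', ?_⟩
    funext s
    have hζ : IsPrimitiveRoot (Complex.exp (2 * Real.pi * Complex.I / n)) n :=
      Complex.isPrimitiveRoot_exp n (NeZero.ne n)
    rw [← pow_add, Pi.add_apply, ZMod.val_add]
    conv_lhs => rw [← Nat.div_add_mod ((g s).val + (g' s).val) n, pow_add, pow_mul,
      hζ.pow_eq_one, one_pow, one_mul]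
  nz := by
    intro c hc s
    rw [Set.Finite.mem_toFinset] at hc
    obtain ⟨g, hg, rfl⟩ := hc
    exact pow_ne_zero _ (Complex.exp_ne_zero _)

theorem hv_act [NeZero n] (g : σ → ZMod n) (m : σ →₀ ℕ) (h : ∑ s, g s * (m s : ZMod n) = 0) :
    (m.prod fun s k => (Complex.exp (2 * Real.pi * Complex.I / n) ^ (g s).val) ^ k) = 1 := by
  have hζ : IsPrimitiveRoot (Complex.exp (2 * Real.pi * Complex.I / n)) n :=
    Complex.isPrimitiveRoot_exp n (NeZero.ne n)
  rw [Finsupp.prod_fintype _ _ (fun s => pow_zero _)]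
  simp only [← pow_mul]
  rw [Finset.prod_pow_eq_pow_sum, hζ.pow_eq_one_iff_dvd, ← ZMod.natCast_eq_zero_iff, Nat.cast_sum,
    ← h]
  apply Finset.sum_congr rfl
  intro s _
  rw [Nat.cast_mul, ZMod.natCast_zmod_val]

theorem one_mono {H : Set (σ → ℂ)} {H' : Set (σ → ℂ)}
    {Z : Set (PrimeSpectrum (MvPolynomial σ ℂ))} {k : ℕ} (h : H ⊆ H') (h1 : One H Z k) :
    One H' Z k := by
  unfold One at h1 ⊢
  refine le_trans ?_ h1
  refine LinearMap.rank_le_of_surjective (Submodule.factor (Submodule.span_mono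
    (Set.union_subset_union_right _ ?_))) (Submodule.factor_surjective _)
  rintro z ⟨c, hc, V, V', hV, rfl⟩
  exact ⟨c, h hc, V, V', hV, rfl⟩

/-- Reduction to single forms. -/
theorem red_mainG (hS : SystemsG) {d r i : ℕ} [NeZero n] (hd : 2 ≤ d) (hr : 0 < r)
    (M : Set (σ →₀ ℕ)) (hM : ∀ m ∈ M, m.degree = d) (G : AddSubgroup (σ → ZMod n))
    (hG : ∀ g ∈ G, ∀ m ∈ M, ∑ s, g s * (m s : ZMod n) = 0)
    (F : Fin r → MvPolynomial σ ℂ) (hF : ∀ e, ∀ m ∈ (F e).support, m ∈ M)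
    (H : (r + i + 2 ≤ Fintype.card σ ∧ ∀ j, i ≤ j → j < i + r → ∀ f : MvPolynomial σ ℂ,
        (∀ m ∈ f.support, m ∈ M) →
        Module.rank ℚ ((VH {Q : PrimeSpectrum (MvPolynomial σ ℂ) |
          Ideal.span {f} ≤ Q.asIdeal} (j + 1) →₀ ℚ) ⧸
          Submodule.span ℚ (pdiv {Q : PrimeSpectrum (MvPolynomial σ ℂ) |
            Ideal.span {f} ≤ Q.asIdeal} (j + 1) ∪ odV n (G : Set (σ → ZMod n)) (Ideal.span {f})
              (j + 1))) ≤ 1) ∨
      ∃ (c : ℕ) (V : Fin c → Finset σ), r + i ≤ c ∧ c * d < Fintype.card σ ∧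
        (∀ l l', l ≠ l' → Disjoint (V l) (V l')) ∧ (∀ l, 2 ≤ (V l).card) ∧
        (∀ m ∈ M, ∀ l l', l ≠ l' → ∀ s ∈ V l, ∀ s' ∈ V l', m s = 0 ∨ m s' = 0) ∧
        (∀ m ∈ M, ∀ l, ∑ s ∈ V l, m s ≤ (V l).card)) :
    Module.rank ℚ ((VH {Q : PrimeSpectrum (MvPolynomial σ ℂ) |
      Ideal.span (Set.range F) ≤ Q.asIdeal} (i + 1) →₀ ℚ) ⧸
      Submodule.span ℚ (pdiv {Q : PrimeSpectrum (MvPolynomial σ ℂ) |
        Ideal.span (Set.range F) ≤ Q.asIdeal} (i + 1) ∪
          odV n (G : Set (σ → ZMod n)) (Ideal.span (Set.range F)) (i + 1))) ≤ 1 := by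
  rw [odV_eq]
  change One (HV n (G : Set (σ → ZMod n))) {Q : PrimeSpectrum (MvPolynomial σ ℂ) |
        Ideal.span (Set.range F) ≤ Q.asIdeal} (i + 1)
  rcases H with ⟨hN, H⟩ | ⟨c, V, h1, h2, h3, h4, h5, h6⟩
  · rw [← zf_range]
    have key := hS σ d M (hv_finite (n := n) (G : Set (σ → ZMod n))).toFinset r i hM (by omega)
      (hv_grp G) (fun φ c hc => by
        rw [Set.Finite.mem_toFinset] at hc ⊢
        exact hv_stable G φ c hc) (fun c hc m hm => by
        rw [Set.Finite.mem_toFinset] at hc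
        obtain ⟨g, hg, rfl⟩ := hc
        exact hv_act g m (hG g hg m hm)) hr hN (fun j hj1 hj2 f hf => by
        rw [Set.Finite.coe_toFinset, zf_unit]
        have := H j hj1 hj2 f hf
        rw [odV_eq] at this
        exact this) F hF
    rw [Set.Finite.coe_toFinset] at key
    exact key
  · have key := sep_systemsG hS hd hr h1 F (fun e m hm => by
      have := hM m (hF e m (mem_support_iff.2 hm))
      rwa [Finsupp.degree_eq_weight_one] at this) V h3 h4 (fun e m hm => h5 m (hF e m hm))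
      (fun e m hm => h6 m (hF e m hm)) h2
    rw [← one_empty_iff] at key
    exact one_mono (Set.empty_subset _) key

end

end Pool.Agent.Bloch.Pen
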