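import Pool.Agent.H78.Pen.Sys2

/-! Systems of forms with separated groups of variables. -/

set_option linter.unusedSectionVars false

open MvPolynomial

namespace Pool.Agent.Bloch.Pen

open Pool.Agent.Bloch.PEN

theorem sep_systemsG (hS : SystemsG) {σ : Type} [Fintype σ] {c r i d : ℕ} (hd : 2 ≤ d) (hr : 0 < r)
    (hri : r + i ≤ c)
    (F : Fin r → MvPolynomial σ ℂ) (hF : ∀ e, (F e).IsHomogeneous d) (V : Fin c → Finset σ)
    (hV : ∀ l l', l ≠ l' → Disjoint (V l) (V l')) (hV2 : ∀ l, 2 ≤ (V l).card)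
    (hsep : ∀ e, ∀ μ ∈ (F e).support, ∀ l l', l ≠ l' → ∀ s ∈ V l, ∀ s' ∈ V l', μ s = 0 ∨ μ s' = 0)
    (hdeg : ∀ e, ∀ μ ∈ (F e).support, ∀ l, ∑ s ∈ V l, μ s ≤ (V l).card)
    (hcard : c * d < Fintype.card σ) :
    Module.rank ℚ ((VH {Q : PrimeSpectrum (MvPolynomial σ ℂ) |
      Ideal.span (Set.range F) ≤ Q.asIdeal} (i + 1) →₀ ℚ) ⧸
      Submodule.span ℚ (pdiv {Q : PrimeSpectrum (MvPolynomial σ ℂ) |
        Ideal.span (Set.range F) ≤ Q.asIdeal} (i + 1))) ≤ 1 := by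
  rw [← zf_range, ← one_triv_iff]
  refine hS σ d {μ | μ.degree = d ∧ (∀ l l', l ≠ l' → ∀ s ∈ V l, ∀ s' ∈ V l', μ s = 0 ∨ μ s' = 0) ∧
    ∀ l, ∑ s ∈ V l, μ s ≤ (V l).card} _ r i (fun m hm => hm.1) (by omega) grp_one ?_ ?_ hr ?_ ?_ F ?_
  · intro φ c hc
    rw [Finset.mem_singleton] at hc ⊢
    subst hc
    funext s
    exact map_one φ
  · intro c hc m _
    rw [Finset.mem_singleton] at hc
    subst hc
    exact Finset.prod_eq_one (fun s _ => one_pow _)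
  · have h1 : (r + i) * 2 ≤ c * d := Nat.mul_le_mul hri hd
    omega
  · intro j hj1 hj2 G hG
    rw [zf_unit, one_triv_iff]
    refine Sep.sep_main hd (by omega : j < c) G ?_ V hV hV2 (fun μ hμ => (hG μ hμ).2.1)
      (fun μ hμ => (hG μ hμ).2.2) hcard
    intro μ hμ
    have := (hG μ (mem_support_iff.2 hμ)).1
    rwa [Finsupp.degree_eq_weight_one] at this
  · intro e μ hμ
    refine ⟨?_, hsep e μ hμ, hdeg e μ hμ⟩
    have := hF e (mem_support_iff.1 hμ)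
    rwa [Finsupp.degree_eq_weight_one]

end Pool.Agent.Bloch.Pen
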