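import Pool.Agent.H78.Pen.QMainG

/-! Distributions of the blocks of one variable: big groups can be avoided. -/

set_option linter.unusedSectionVars false

open MvPolynomial

namespace Pool.Agent.Bloch.Pen

section
variable {t : ℕ}

open Classical in
/-- The blocks can be distributed into groups and these into parts of sum zero, such that the
number of the parts and of the big groups is at least `N`. -/
def Dist (d : ℕ) (ν : Fin t → ℕ) (b : Finset (Fin t) → ℕ) (N : ℕ) (c : Fin t → ZMod d) : Prop :=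
  ∃ (q m : ℕ) (ρ : Fin t → Fin m) (π : Fin m → Fin q) (E : Finset (Fin m)),
    Function.Surjective ρ ∧ Function.Surjective π ∧
    (∀ l, ∑ k ∈ Finset.univ.filter (fun k => π (ρ k) = l), c k = 0) ∧
    (∃ j, ∑ k ∈ Finset.univ.filter (fun k => ρ k = j), c k ≠ 0) ∧
    N ≤ q + E.card ∧
    ∀ j ∈ E, b (Finset.univ.filter (fun k => ρ k = j)) +
      (if ∑ k ∈ Finset.univ.filter (fun k => ρ k = j), c k = 0 then 1 else 0) <
        ∑ k ∈ Finset.univ.filter (fun k => ρ k = j), (ν k + 1)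

open Classical in
theorem split_step {d : ℕ} (hd : 0 < d) {q m : ℕ} (c : Fin t → ZMod d) (ρ : Fin t → Fin m)
    (π : Fin m → Fin q) (E : Finset (Fin m)) (hρ : Function.Surjective ρ)
    (hπ : Function.Surjective π)
    (h0 : ∀ l, ∑ k ∈ Finset.univ.filter (fun k => π (ρ k) = l), c k = 0)
    (h1 : ∃ j, ∑ k ∈ Finset.univ.filter (fun k => ρ k = j), c k ≠ 0)
    (j₀ : Fin m) (hj₀ : j₀ ∈ E)
    (hc : (d - 1) + (if ∑ k ∈ Finset.univ.filter (fun k => ρ k = j₀), c k = 0 then 1 else 0) <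
      (Finset.univ.filter (fun k => ρ k = j₀)).card) :
    ∃ (ρ' : Fin t → Fin (m + 1)) (π' : Fin (m + 1) → Fin (q + 1)),
      Function.Surjective ρ' ∧ Function.Surjective π' ∧
      (∀ l, ∑ k ∈ Finset.univ.filter (fun k => π' (ρ' k) = l), c k = 0) ∧
      (∃ j, ∑ k ∈ Finset.univ.filter (fun k => ρ' k = j), c k ≠ 0) ∧
      ∀ j : Fin m, j ≠ j₀ → Finset.univ.filter (fun k => ρ' k = j.castSucc) =
        Finset.univ.filter (fun k => ρ k = j) := by
  have : NeZero d := ⟨hd.ne'⟩
  set S := Finset.univ.filter (fun k => ρ k = j₀) with hS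
  obtain ⟨T, hTS, hTne, hTd, hT0⟩ := exists_zero_sum c S (by omega)
  have hTρ : ∀ k ∈ T, ρ k = j₀ := fun k hk => (Finset.mem_filter.1 (hTS hk)).2
  obtain ⟨x, hx, hxT⟩ : ∃ x ∈ S, x ∉ T := by
    by_contra hcon
    push Not at hcon
    have h2 : T = S := Finset.Subset.antisymm hTS hcon
    rw [← h2, if_pos hT0] at hc
    omega
  let ρ' : Fin t → Fin (m + 1) := fun k => if k ∈ T then Fin.last m else (ρ k).castSucc
  let π' : Fin (m + 1) → Fin (q + 1) := Fin.lastCases (Fin.last q) (fun j => (π j).castSucc)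
  have hρT : ∀ k ∈ T, ρ' k = Fin.last m := fun k hk => if_pos hk
  have hρn : ∀ k, k ∉ T → ρ' k = (ρ k).castSucc := fun k hk => if_neg hk
  have hπl : π' (Fin.last m) = Fin.last q := Fin.lastCases_last
  have hπc : ∀ j, π' j.castSucc = (π j).castSucc := fun j => Fin.lastCases_castSucc _
  -- the fibres
  have hf1 : ∀ j : Fin m, Finset.univ.filter (fun k => ρ' k = j.castSucc) =
      (Finset.univ.filter (fun k => ρ k = j)) \ T := by
    intro j
    ext k
    rw [Finset.mem_sdiff, Finset.mem_filter, Finset.mem_filter]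
    constructor
    · rintro ⟨h2, h3⟩
      by_cases hk : k ∈ T
      · rw [hρT k hk] at h3
        exact absurd h3.symm (Fin.castSucc_lt_last j).ne
      · rw [hρn k hk] at h3
        exact ⟨⟨h2, Fin.castSucc_injective _ h3⟩, hk⟩
    · rintro ⟨⟨h2, h3⟩, hk⟩
      exact ⟨h2, by rw [hρn k hk, h3]⟩
  have hf2 : Finset.univ.filter (fun k => π' (ρ' k) = Fin.last q) = T := by
    ext k
    rw [Finset.mem_filter]
    constructor
    · rintro ⟨-, h3⟩
      by_contra hk
      rw [hρn k hk, hπc] at h3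
      exact absurd h3 (Fin.castSucc_lt_last _).ne
    · intro hk
      exact ⟨Finset.mem_univ _, by rw [hρT k hk, hπl]⟩
  have hf3 : ∀ l : Fin q, Finset.univ.filter (fun k => π' (ρ' k) = l.castSucc) =
      (Finset.univ.filter (fun k => π (ρ k) = l)) \ T := by
    intro l
    ext k
    rw [Finset.mem_sdiff, Finset.mem_filter, Finset.mem_filter]
    constructor
    · rintro ⟨h2, h3⟩
      by_cases hk : k ∈ T
      · rw [hρT k hk, hπl] at h3
        exact absurd h3.symm (Fin.castSucc_lt_last l).ne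
      · rw [hρn k hk, hπc] at h3
        exact ⟨⟨h2, Fin.castSucc_injective _ h3⟩, hk⟩
    · rintro ⟨⟨h2, h3⟩, hk⟩
      exact ⟨h2, by rw [hρn k hk, hπc, h3]⟩
  -- removing `T` does not change the sums over unions of fibres
  have hsd : ∀ (U : Finset (Fin t)) (P : Fin m → Prop), (∀ k, k ∈ U ↔ P (ρ k)) →
      ∑ k ∈ U \ T, c k = ∑ k ∈ U, c k := by
    intro U P hU
    by_cases hP : P j₀
    · have hsub : T ⊆ U := fun k hk => (hU k).2 (by rw [hTρ k hk]; exact hP)
      rw [← Finset.sum_sdiff hsub, hT0, add_zero]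
    · congr 1
      apply Finset.sdiff_eq_self_of_disjoint
      rw [Finset.disjoint_left]
      intro k hk hkT
      apply hP
      have := (hU k).1 hk
      rwa [hTρ k hkT] at this
  refine ⟨ρ', π', ?_, ?_, ?_, ?_, ?_⟩
  · intro j
    refine Fin.lastCases ?_ (fun j => ?_) j
    · obtain ⟨k, hk⟩ := hTne
      exact ⟨k, hρT k hk⟩
    · by_cases hj : j = j₀
      · subst hj
        refine ⟨x, ?_⟩
        rw [hρn x hxT, (Finset.mem_filter.1 hx).2]
      · obtain ⟨k, hk⟩ := hρ j
        refine ⟨k, ?_⟩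
        rw [hρn k (fun h => hj (by rw [← hk, hTρ k h])), hk]
  · intro l
    refine Fin.lastCases ?_ (fun l => ?_) l
    · exact ⟨Fin.last m, hπl⟩
    · obtain ⟨j, hj⟩ := hπ l
      exact ⟨j.castSucc, by rw [hπc, hj]⟩
  · intro l
    refine Fin.lastCases ?_ (fun l => ?_) l
    · rw [hf2, hT0]
    · rw [hf3, hsd _ (fun j => π j = l) (fun k => by
        rw [Finset.mem_filter]; exact ⟨fun h => h.2, fun h => ⟨Finset.mem_univ _, h⟩⟩)]
      exact h0 l
  · obtain ⟨j, hj⟩ := h1
    refine ⟨j.castSucc, ?_⟩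
    rw [hf1, hsd _ (fun j' => j' = j) (fun k => by
      rw [Finset.mem_filter]; exact ⟨fun h => h.2, fun h => ⟨Finset.mem_univ _, h⟩⟩)]
    exact hj
  · intro j hj
    rw [hf1]
    apply Finset.sdiff_eq_self_of_disjoint
    rw [Finset.disjoint_left]
    intro k hk hkT
    apply hj
    rw [← (Finset.mem_filter.1 hk).2, hTρ k hkT]

open Classical in
theorem split_all {d : ℕ} (hd : 0 < d) (c : Fin t → ZMod d) (Z : Fin t → Prop)
    (b b' : Finset (Fin t) → ℕ) (hb : ∀ S, ¬ (∀ k ∈ S, Z k) → b S = d - 1)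
    (hb' : ∀ S, (∀ k ∈ S, Z k) → b' S = 0) (N : ℕ) : ∀ (n q m : ℕ) (ρ : Fin t → Fin m)
    (π : Fin m → Fin q) (E : Finset (Fin m)), Function.Surjective ρ → Function.Surjective π →
    (∀ l, ∑ k ∈ Finset.univ.filter (fun k => π (ρ k) = l), c k = 0) →
    (∃ j, ∑ k ∈ Finset.univ.filter (fun k => ρ k = j), c k ≠ 0) → N ≤ q + E.card →
    (∀ j ∈ E, b (Finset.univ.filter (fun k => ρ k = j)) +
      (if ∑ k ∈ Finset.univ.filter (fun k => ρ k = j), c k = 0 then 1 else 0) <
        (Finset.univ.filter (fun k => ρ k = j)).card) →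
    (E.filter (fun j => ¬ ∀ k, ρ k = j → Z k)).card = n →
    Dist d (fun _ => 0) b' N c := by
  intro n
  induction n with
  | zero =>
    intro q m ρ π E h1 h2 h3 h4 h5 h6 h7
    refine ⟨q, m, ρ, π, E, h1, h2, h3, h4, h5, fun j hj => ?_⟩
    have h8 : ∀ k, ρ k = j → Z k := by
      by_contra hcon
      have : j ∈ E.filter (fun j => ¬ ∀ k, ρ k = j → Z k) := Finset.mem_filter.2 ⟨hj, hcon⟩
      rw [Finset.card_eq_zero.1 h7] at this
      exact Finset.notMem_empty _ this
    rw [hb' _ (fun k hk => h8 k (Finset.mem_filter.1 hk).2), zero_add]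
    have h9 := h6 j hj
    rw [Finset.sum_const, smul_eq_mul, zero_add, mul_one]
    omega
  | succ n ih =>
    intro q m ρ π E h1 h2 h3 h4 h5 h6 h7
    obtain ⟨j₀, hj₀⟩ : ∃ j₀, j₀ ∈ E.filter (fun j => ¬ ∀ k, ρ k = j → Z k) := by
      have : (E.filter (fun j => ¬ ∀ k, ρ k = j → Z k)).Nonempty :=
        Finset.card_pos.1 (by rw [h7]; exact Nat.succ_pos n)
      exact this
    have hj₁ := hj₀
    rw [Finset.mem_filter] at hj₀
    have h8 := h6 j₀ hj₀.1
    rw [hb _ (by
      intro h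
      apply hj₀.2
      intro k hk
      exact h k (Finset.mem_filter.2 ⟨Finset.mem_univ _, hk⟩))] at h8
    obtain ⟨ρ', π', g1, g2, g3, g4, g5⟩ := split_step hd c ρ π E h1 h2 h3 h4 j₀ hj₀.1 h8
    have hmem : ∀ j : Fin m, j ≠ j₀ → ∀ k, (ρ' k = j.castSucc ↔ ρ k = j) := by
      intro j hj k
      have := congrArg (fun s => k ∈ s) (g5 j hj)
      simpa using this
    refine ih (q + 1) (m + 1) ρ' π' ((E.erase j₀).map Fin.castSuccEmb) g1 g2 g3 g4 ?_ ?_ ?_
    · rw [Finset.card_map, Finset.card_erase_of_mem hj₀.1]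
      have := Finset.card_pos.2 ⟨j₀, hj₀.1⟩
      omega
    · intro j hj
      rw [Finset.mem_map] at hj
      obtain ⟨j, hj, rfl⟩ := hj
      rw [Finset.mem_erase] at hj
      rw [show (Fin.castSuccEmb j : Fin (m + 1)) = j.castSucc from rfl, g5 j hj.1]
      exact h6 j hj.2
    · have h9 : ((E.erase j₀).map Fin.castSuccEmb).filter (fun j => ¬ ∀ k, ρ' k = j → Z k) =
          ((E.filter (fun j => ¬ ∀ k, ρ k = j → Z k)).erase j₀).map Fin.castSuccEmb := by
        ext j
        rw [Finset.mem_filter, Finset.mem_map, Finset.mem_map]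
        constructor
        · rintro ⟨⟨j', hj', rfl⟩, h⟩
          rw [Finset.mem_erase] at hj'
          refine ⟨j', Finset.mem_erase.2 ⟨hj'.1, Finset.mem_filter.2 ⟨hj'.2, ?_⟩⟩, rfl⟩
          intro h'
          apply h
          intro k hk
          exact h' k ((hmem j' hj'.1 k).1 hk)
        · rintro ⟨j', hj', rfl⟩
          rw [Finset.mem_erase, Finset.mem_filter] at hj'
          refine ⟨⟨j', Finset.mem_erase.2 ⟨hj'.1, hj'.2.1⟩, rfl⟩, ?_⟩
          intro h'
          apply hj'.2.2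
          intro k hk
          exact h' k ((hmem j' hj'.1 k).2 hk)
      rw [h9, Finset.card_map, Finset.card_erase_of_mem hj₁, h7, Nat.add_sub_cancel]

end

end Pool.Agent.Bloch.Pen
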