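import Pool.Agent.H78.Pen.SumBase
import Pool.Agent.H78.Pen.Sys2

/-! Systems of sums of forms in separate variables. -/

set_option linter.unusedSectionVars false

open MvPolynomial

namespace Pool.Agent.Bloch.Pen

open Pool.Agent.Bloch.PEN

/-- the ideal of the equations -/
noncomputable def eqHs {t r : ℕ} (n : Fin t → ℕ)
    (f : Fin r → (k : Fin t) → MvPolynomial (Fin (n k)) ℂ) : Ideal (MvPolynomial (VarsN n) ℂ) :=
  Ideal.span (Set.range fun e : Fin r =>
    ∑ k : Fin t, rename (fun j => (⟨k, j⟩ : VarsN n)) (f e k))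

theorem sums_mainG (hS : SystemsG) (d t r i : ℕ) (hd : 2 ≤ d) (hr : 0 < r) (n : Fin t → ℕ)
    (f : Fin r → (k : Fin t) → MvPolynomial (Fin (n k)) ℂ)
    (hf : ∀ e k, (f e k).IsHomogeneous d)
    (m : Fin t → ℕ) (hm : ∀ k, 0 < m k ∧ m k ≤ n k) (hsum : d * (r + i) < ∑ k, m k)
    (H : ((∀ k, m k ≤ 2 ∨ m k = d ∨ m k = d + 1) ∧
        ∀ k l, m k = d + 1 → m l = d + 1 → k = l) ∨
      ((∀ k, m k ∣ d ∨ m k = d + 1) ∧ (∀ k l, m k = d + 1 → m l = d + 1 → k = l) ∧
        ∀ k l, m k ∣ d → m l ∣ d → m k ∣ m l ∨ m l ∣ m k) ∨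
      ((∀ k, m k ≤ 3) ∧ d % 3 ≠ 1) ∨
      (∃ w, w ∣ d + 1 ∧ ∀ k, m k = w) ∨ Cond d m) :
    Module.rank ℚ ((VH {Q : PrimeSpectrum (MvPolynomial (VarsN n) ℂ) | eqHs n f ≤ Q.asIdeal} (i + 1)
        →₀ ℚ) ⧸
      Submodule.span ℚ (pdiv {Q : PrimeSpectrum (MvPolynomial (VarsN n) ℂ) |
        eqHs n f ≤ Q.asIdeal} (i + 1))) ≤ 1 := by
  classical
  have hC : Cond d m := by
    rcases H with H | H | H | ⟨w, hw, H⟩ | H
    · exact cond_two (by omega) m (fun k => (hm k).1) H.1 H.2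
    · exact cond_chain (by omega) m (fun k => (hm k).1) H.1 H.2.1 H.2.2
    · exact cond_three (by omega) m (fun k => (hm k).1) H.1 H.2
    · exact cond_eq m w H hw
    · exact H
  unfold eqHs
  rw [← zf_range, ← one_triv_iff]
  refine hS (VarsN n) d (BM (fun s : VarsN n => s.1) d) _ r i (fun m hm => hm.1) (by omega)
    grp_one ?_ ?_ hr ?_ ?_ _ ?_
  · intro φ c hc
    rw [Finset.mem_singleton] at hc ⊢
    subst hc
    funext s
    exact map_one φ
  · intro c hc m _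
    rw [Finset.mem_singleton] at hc
    subst hc
    exact Finset.prod_eq_one (fun s _ => one_pow _)
  · have h1 : ∑ k, m k ≤ Fintype.card (VarsN n) := by
      rw [Fintype.card_sigma]
      apply Finset.sum_le_sum
      intro k _
      rw [Fintype.card_fin]
      exact (hm k).2
    have h2 : 2 * (r + i) ≤ d * (r + i) := Nat.mul_le_mul_right _ hd
    omega
  · intro j hj1 hj2 F hF
    rw [one_triv_iff, ← ro_iff_pdiv]
    refine sums_base hd (fun s : VarsN n => s.1) m (fun k => ⟨(hm k).1, ?_⟩) hC ?_ F hF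
    · rw [card_blk]
      exact (hm k).2
    · refine lt_of_le_of_lt (Nat.mul_le_mul_left d ?_) hsum
      omega
  · intro e μ hμ
    have h1 := support_sum hμ
    rw [Finset.mem_biUnion] at h1
    obtain ⟨k, _, hk⟩ := h1
    obtain ⟨h2, h3⟩ := bh_renameN k (f e k) (hf e k) μ hk
    refine ⟨h3, fun s s' hs hs' => ?_⟩
    rw [h2 s hs, h2 s' hs']

end Pool.Agent.Bloch.Pen
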