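import Pool.Agent.Bloch.MainBC
import Pool.Agent.Bloch.MainHS
import Pool.Agent.H11.Sep.Main

/-! Systems of forms: the statement which the pencil lemma gives by induction. -/

set_option linter.unusedSectionVars false

open MvPolynomial

namespace Pool.Agent.Bloch.Pen

/-- the zero set of a family of polynomials -/
def ZF {K σ ι : Type} [Field K] (F : ι → MvPolynomial σ K) :
    Set (PrimeSpectrum (MvPolynomial σ K)) :=
  {Q | ∀ e, F e ∈ Q.asIdeal}

/-- principal divisors with rational coefficients, over any field -/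
def pdK {K σ : Type} [Field K] [Fintype σ] (Z : Set (PrimeSpectrum (MvPolynomial σ K))) (k : ℕ) :
    Set (VH Z k →₀ ℚ) :=
  {z | ∃ (W : VH Z (k + 1)) (n : ℕ) (f g : MvPolynomial σ K),
    f.IsHomogeneous n ∧ g.IsHomogeneous n ∧ f ∉ W.1.asIdeal ∧ g ∉ W.1.asIdeal ∧
    ∀ V : VH Z k, z V = ((len V.1 (MvPolynomial σ K ⧸ (W.1.asIdeal ⊔ Ideal.span {f}))).toNat : ℚ)
      - ((len V.1 (MvPolynomial σ K ⧸ (W.1.asIdeal ⊔ Ideal.span {g}))).toNat : ℚ)}

/-- orbit differences under the scalings of a set `H` -/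
def odK {K σ : Type} [Field K] [Fintype σ] (H : Set (σ → K))
    (Z : Set (PrimeSpectrum (MvPolynomial σ K))) (k : ℕ) : Set (VH Z k →₀ ℚ) :=
  {z | ∃ h ∈ H, ∃ V V' : VH Z k, V'.1 = ctr K (scl K h) V.1 ∧
    z = Finsupp.single V' 1 - Finsupp.single V 1}

/-- the group of coinvariants of the group of cycles with cones of dimension `k` has dimension
at most one -/
def One {K σ : Type} [Field K] [Fintype σ] (H : Set (σ → K))
    (Z : Set (PrimeSpectrum (MvPolynomial σ K))) (k : ℕ) : Prop :=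
  Module.rank ℚ ((VH Z k →₀ ℚ) ⧸ Submodule.span ℚ (pdK Z k ∪ odK H Z k)) ≤ 1

/-- The statement for systems of forms: if all the forms with monomials in `M` define hypersurfaces
with the property `One` in the dimensions `i, …, i + r - 1`, then all the systems of `r` forms with
monomials in `M` define schemes with this property in the dimension `i`. -/
def Systems : Prop :=
  ∀ (σ : Type) [Fintype σ] (d : ℕ) (M : Set (σ →₀ ℕ)) (H : Set (σ → ℂ)) (r i : ℕ),
    (∀ m ∈ M, m.degree = d) → H.Finite → (∀ h ∈ H, ∀ s, h s ≠ 0) →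
    (∀ φ : ℂ →+* ℂ, (fun h : σ → ℂ => fun s => φ (h s)) '' H = H) →
    (∀ h ∈ H, ∀ m ∈ M, (m.prod fun s k => h s ^ k) = 1) → 0 < r →
    (∀ j, i ≤ j → j < i + r → ∀ F : MvPolynomial σ ℂ, (∀ m ∈ F.support, m ∈ M) →
      One H (ZF fun _ : Unit => F) (j + 1)) →
    ∀ F : Fin r → MvPolynomial σ ℂ, (∀ e, ∀ m ∈ (F e).support, m ∈ M) →
      One H (ZF F) (i + 1)

theorem pdK_eq {σ : Type} [Fintype σ] (Z : Set (PrimeSpectrum (MvPolynomial σ ℂ))) (k : ℕ) :
    pdK Z k = pdiv Z k := rfl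

end Pool.Agent.Bloch.Pen
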